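import Mathlib

set_option autoImplicit false

namespace Pool.Agent.Lib.MP_4fe7bc_pr

/-- A k-clause over the variables x_0, ..., x_(n-1): a set of k literals on distinct variables.
The literal (i, b) is true under an assignment that gives x_i the value b. -/
def Clause (n k : ℕ) : Type :=
  {C : Finset (Fin n × Bool) // C.card = k ∧ ∀ l ∈ C, ∀ l' ∈ C, l.1 = l'.1 → l = l'}

/-- The assignment satisfies the clause: one of its literals is true. -/
def Sat {n k : ℕ} (σ : Fin n → Bool) (C : Clause n k) : Prop := ∃ l ∈ C.1, σ l.1 = l.2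

/-- The probability that the conjunction of m2 uniformly random 2-clauses and m3 uniformly random
3-clauses over n variables, all drawn independently with replacement, is satisfiable. -/
noncomputable def satProb (n m2 m3 : ℕ) : ℝ :=
  (Nat.card {F : (Fin m2 → Clause n 2) × (Fin m3 → Clause n 3) //
      ∃ σ : Fin n → Bool, (∀ i, Sat σ (F.1 i)) ∧ ∀ j, Sat σ (F.2 j)} : ℝ) /
    (Nat.card ((Fin m2 → Clause n 2) × (Fin m3 → Clause n 3)) : ℝ)

end Pool.Agent.Lib.MP_4fe7bc_pr
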