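import Pool.Agent.Lib.MP_4fe7bc_pr.Ops
import Pool.Agent.Lib.MP_4fe7bc_pr.Defs

set_option autoImplicit false
set_option linter.unusedSectionVars false
set_option linter.unusedVariables false

open Finset

namespace Pool.Agent.Lib.MP_4fe7bc_pr

section Min

variable {Ω : Type*} [Nonempty Ω]

/-- Ground state energy. -/
noncomputable def mn (H : Ω → ℕ) : ℕ := sInf (Set.range H)

theorem mn_le (H : Ω → ℕ) (σ : Ω) : mn H ≤ H σ := Nat.sInf_le ⟨σ, rfl⟩

theorem exists_mn (H : Ω → ℕ) : ∃ σ, H σ = mn H := Nat.sInf_mem (Set.range_nonempty H)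

theorem le_mn {H : Ω → ℕ} {a : ℕ} (h : ∀ σ, a ≤ H σ) : a ≤ mn H := by
  obtain ⟨σ, hσ⟩ := exists_mn H
  rw [← hσ]
  exact h σ

open Classical in
/-- Penalty u on the configurations in V. -/
noncomputable def pen (V : Ω → Prop) (u : ℕ) : Ω → ℕ := fun σ => if V σ then u else 0

open Classical in
theorem mn_add_pen (H : Ω → ℕ) (V : Ω → Prop) (u : ℕ) :
    mn (H + pen V u) = mn H +
      ∑ t ∈ range u, if (∀ σ, H σ ≤ mn H + t → V σ) then 1 else 0 := by
  induction u with
  | zero =>
    have : H + pen V 0 = H := by ext σ; simp [pen]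
    simp [this]
  | succ u ih =>
    rw [Finset.sum_range_succ]
    have hle : ∑ t ∈ range u, (if (∀ σ, H σ ≤ mn H + t → V σ) then 1 else 0) ≤ u := by
      calc _ ≤ ∑ t ∈ range u, 1 := Finset.sum_le_sum fun t _ => by split_ifs <;> simp
        _ = u := by simp
    by_cases hP : ∀ σ, H σ ≤ mn H + u → V σ
    · have hall : ∑ t ∈ range u, (if (∀ σ, H σ ≤ mn H + t → V σ) then 1 else 0) = u := by
        calc _ = ∑ t ∈ range u, 1 := by
              apply Finset.sum_congr rfl
              intro t ht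
              rw [if_pos]
              intro σ hσ
              have := Finset.mem_range.1 ht
              exact hP σ (by omega)
          _ = u := by simp
      rw [hall, if_pos hP]
      apply le_antisymm
      · obtain ⟨σ, hσ⟩ := exists_mn H
        refine (mn_le _ σ).trans ?_
        simp only [Pi.add_apply, pen]
        split_ifs <;> omega
      · apply le_mn
        intro σ
        simp only [Pi.add_apply, pen]
        have h1 := mn_le H σ
        split_ifs with h
        · omega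
        · by_contra hc
          exact h (hP σ (by omega))
    · rw [if_neg hP, add_zero, ← ih]
      push Not at hP
      obtain ⟨σ1, h1, h2⟩ := hP
      apply le_antisymm
      · obtain ⟨σ, hσ⟩ := exists_mn (H + pen V u)
        by_cases hV : V σ
        · refine (mn_le _ σ1).trans ?_
          rw [← hσ]
          have := mn_le H σ
          simp only [Pi.add_apply, pen, if_pos hV, if_neg h2]
          omega
        · refine (mn_le _ σ).trans ?_
          rw [← hσ]
          simp only [Pi.add_apply, pen, if_neg hV, le_refl]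
      · apply le_mn
        intro σ
        refine (mn_le _ σ).trans ?_
        simp only [Pi.add_apply, pen]
        split_ifs <;> omega

/-- Ground state energy as a real function of the state. -/
noncomputable def gs (H : Ω → ℕ) : ℝ := mn H

open Classical in
/-- Indicator of a proposition. -/
noncomputable def ind (P : Prop) : ℝ := if P then 1 else 0

theorem ind_pos {P : Prop} (h : P) : ind P = 1 := by simp [ind, h]

theorem ind_neg {P : Prop} (h : ¬ P) : ind P = 0 := by simp [ind, h]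

theorem ind_nonneg (P : Prop) : 0 ≤ ind P := by unfold ind; split_ifs <;> simp

theorem ind_le_one (P : Prop) : ind P ≤ 1 := by unfold ind; split_ifs <;> simp

theorem sum_ind {ι : Type*} (s : Finset ι) (P : ι → Prop) [DecidablePred P] :
    ∑ i ∈ s, ind (P i) = (s.filter P).card := by
  rw [← Finset.sum_boole]
  apply Finset.sum_congr rfl
  intro i _
  by_cases h : P i
  · rw [ind_pos h, if_pos h]
  · rw [ind_neg h, if_neg h]

theorem gs_add_pen (H : Ω → ℕ) (V : Ω → Prop) (u : ℕ) :
    gs (H + pen V u) = gs H + ∑ t ∈ range u, ind (∀ σ, H σ ≤ mn H + t → V σ) := by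
  simp only [gs, mn_add_pen]
  push_cast
  rfl

theorem lip_gs (V : Ω → Prop) (u : ℕ) : Lip (pen V u) (u : ℝ) gs := by
  intro H
  rw [gs_add_pen]
  constructor
  · have : 0 ≤ ∑ t ∈ range u, ind (∀ σ, H σ ≤ mn H + t → V σ) :=
      Finset.sum_nonneg fun t _ => ind_nonneg _
    linarith
  · have : ∑ t ∈ range u, ind (∀ σ, H σ ≤ mn H + t → V σ) ≤ u := by
      calc _ ≤ ∑ t ∈ range u, (1 : ℝ) := Finset.sum_le_sum fun t _ => ind_le_one _
        _ = u := by simp
    linarith

end Min

section Steps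

variable {n : ℕ}

noncomputable instance (n k : ℕ) : Fintype (Clause n k) := by
  classical
  unfold Clause
  infer_instance

open Classical in
/-- Literals that are false in every configuration of excess energy at most t. -/
noncomputable def frozen (H : (Fin n → Bool) → ℕ) (t : ℕ) : Finset (Fin n × Bool) :=
  univ.filter fun l => ∀ σ, H σ ≤ mn H + t → σ l.1 ≠ l.2

theorem frozen_inj (H : (Fin n → Bool) → ℕ) (t : ℕ) {l l' : Fin n × Bool} (hl : l ∈ frozen H t)
    (hl' : l' ∈ frozen H t) (h : l.1 = l'.1) : l = l' := by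
  obtain ⟨σ, hσ⟩ := exists_mn H
  simp only [frozen, mem_filter, mem_univ, true_and] at hl hl'
  have h1 := hl σ (by omega)
  have h2 := hl' σ (by omega)
  rw [← h] at h2
  apply Prod.ext h
  revert h1 h2
  cases σ l.1 <;> cases l.2 <;> cases l'.2 <;> simp

/-- Fraction of frozen literals. -/
noncomputable def beta (H : (Fin n → Bool) → ℕ) (t : ℕ) : ℝ := (frozen H t).card / (2 * n)

theorem beta_nonneg (H : (Fin n → Bool) → ℕ) (t : ℕ) : 0 ≤ beta H t := by
  unfold beta; positivity

theorem card_frozen_le (H : (Fin n → Bool) → ℕ) (t : ℕ) : (frozen H t).card ≤ 2 * n := by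
  have := Finset.card_le_univ (frozen H t)
  simpa [mul_comm] using this

/-- Energy of a clause of weight N. -/
noncomputable def clE (N : ℕ) {k : ℕ} (C : Clause n k) : (Fin n → Bool) → ℕ :=
  pen (fun σ => ¬ Sat σ C) N

/-- Adding a uniformly random k-clause of weight N. -/
noncomputable def clOp (n k N : ℕ) : Module.End ℝ (((Fin n → Bool) → ℕ) → ℝ) :=
  avg univ (fun _ : Clause n k => (1 : ℝ) / Fintype.card (Clause n k)) (clE N)

theorem card_clause_le (n k : ℕ) : Fintype.card (Clause n k) ≤ (2 * n).choose k := by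
  classical
  have h : Fintype.card (Clause n k) ≤ (powersetCard k (univ : Finset (Fin n × Bool))).card := by
    rw [← Finset.card_univ]
    apply Finset.card_le_card_of_injOn (fun C => C.1)
    · intro C _
      simp [C.2.1]
    · intro C _ C' _ h
      exact Subtype.ext h
  simpa [mul_comm] using h

theorem clause_nonempty {n k : ℕ} (h : k ≤ n) : Nonempty (Clause n k) := by
  classical
  refine ⟨⟨(univ : Finset (Fin k)).image fun i => (Fin.castLE h i, true), ?_, ?_⟩⟩
  · rw [Finset.card_image_of_injective]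
    · simp
    · intro i j hij
      exact Fin.castLE_injective h (congrArg Prod.fst hij)
  · intro l hl l' hl' h
    simp only [mem_image, mem_univ, true_and] at hl hl'
    obtain ⟨i, rfl⟩ := hl
    obtain ⟨j, rfl⟩ := hl'
    exact Prod.ext h rfl

theorem clause_weights {n k : ℕ} (h : k ≤ n) :
    ∑ _C ∈ (univ : Finset (Clause n k)), (1 : ℝ) / Fintype.card (Clause n k) = 1 := by
  have := clause_nonempty h
  have : (0 : ℝ) < Fintype.card (Clause n k) := by exact_mod_cast Fintype.card_pos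
  simp only [sum_const, card_univ, nsmul_eq_mul]
  field_simp

theorem isMk_clOp {n k : ℕ} (h : k ≤ n) (N : ℕ) : IsMk (clOp n k N) :=
  isMk_avg _ _ _ (fun _ _ => by positivity) (clause_weights h)

open Classical in
theorem choose_le_count (k : ℕ) (H : (Fin n → Bool) → ℕ) (t : ℕ) :
    ((frozen H t).card.choose k : ℝ) ≤
      ∑ C : Clause n k, ind (∀ σ, H σ ≤ mn H + t → ¬ Sat σ C) := by
  rw [sum_ind, ← Finset.card_powersetCard]
  have : (powersetCard k (frozen H t)).card ≤
      (univ.filter fun C : Clause n k => ∀ σ, H σ ≤ mn H + t → ¬ Sat σ C).card := by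
    apply Finset.card_le_card_of_surjOn (fun C => C.1)
    intro S hS
    simp only [mem_coe, mem_powersetCard] at hS
    obtain ⟨hS1, hS2⟩ := hS
    refine ⟨⟨S, hS2, fun l hl l' hl' h => frozen_inj H t (hS1 hl) (hS1 hl') h⟩, ?_, rfl⟩
    refine mem_coe.2 (mem_filter.2 ⟨mem_univ _, ?_⟩)
    rintro σ hσ ⟨l, hl, hl2⟩
    have := hS1 hl
    simp only [frozen, mem_filter, mem_univ, true_and] at this
    exact this σ hσ hl2
  exact_mod_cast this

theorem clOp_gs {k : ℕ} (h : k ≤ n) (N : ℕ) (H : (Fin n → Bool) → ℕ) :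
    gs H + ∑ t ∈ range N, ((frozen H t).card.choose k : ℝ) / ((2 * n).choose k : ℕ)
      ≤ clOp n k N gs H := by
  classical
  have := clause_nonempty h
  have hpos : (0 : ℝ) < Fintype.card (Clause n k) := by exact_mod_cast Fintype.card_pos
  rw [clOp, avg_apply]
  simp only [clE, gs_add_pen, mul_add]
  rw [Finset.sum_add_distrib, ← Finset.sum_mul, clause_weights h, one_mul, ← Finset.mul_sum,
    Finset.sum_comm, Finset.mul_sum]
  gcongr with t ht
  have h1 := choose_le_count k H t
  have h2 : (Fintype.card (Clause n k) : ℝ) ≤ ((2 * n).choose k : ℕ) := by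
    exact_mod_cast card_clause_le n k
  calc ((frozen H t).card.choose k : ℝ) / ((2 * n).choose k : ℕ)
      ≤ ((frozen H t).card.choose k : ℝ) / Fintype.card (Clause n k) := by gcongr
    _ = 1 / Fintype.card (Clause n k) * ((frozen H t).card.choose k : ℝ) := by ring
    _ ≤ _ := mul_le_mul_of_nonneg_left h1 (by positivity)

theorem cast_choose_three (a : ℕ) : (a.choose 3 : ℝ) = a * (a - 1) * (a - 2) / 6 := by
  induction a with
  | zero => simp
  | succ a ih =>
    rw [Nat.choose_succ_succ' a 2]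
    push_cast
    rw [ih, Nat.cast_choose_two]
    ring

theorem ratio_two {b m : ℕ} (hb : b ≤ m) (hm : 2 ≤ m) :
    ((b : ℝ) / m) ^ 2 - 3 / m ≤ (b.choose 2 : ℝ) / (m.choose 2 : ℕ) := by
  have hm2 : (2 : ℝ) ≤ m := by exact_mod_cast hm
  have hb' : (b : ℝ) ≤ m := by exact_mod_cast hb
  have hb0 : (0 : ℝ) ≤ b := Nat.cast_nonneg _
  have h1 : (0 : ℝ) ≤ (b.choose 2 : ℕ) := Nat.cast_nonneg _
  have h2 : ((m.choose 2 : ℕ) : ℝ) ≤ m ^ 2 / 2 := by rw [Nat.cast_choose_two]; nlinarith
  have h3 : (0 : ℝ) < (m.choose 2 : ℕ) := by exact_mod_cast Nat.choose_pos hm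
  calc ((b : ℝ) / m) ^ 2 - 3 / m ≤ (b.choose 2 : ℝ) / (m ^ 2 / 2) := by
        rw [Nat.cast_choose_two, le_div_iff₀ (by positivity)]
        have : (((b : ℝ) / m) ^ 2 - 3 / m) * (m ^ 2 / 2) = (b ^ 2 - 3 * m) / 2 := by
          field_simp
        rw [this]
        nlinarith
    _ ≤ _ := by gcongr

theorem ratio_three {b m : ℕ} (hb : b ≤ m) (hm : 3 ≤ m) :
    ((b : ℝ) / m) ^ 3 - 3 / m ≤ (b.choose 3 : ℝ) / (m.choose 3 : ℕ) := by
  have hm2 : (3 : ℝ) ≤ m := by exact_mod_cast hm
  have hb' : (b : ℝ) ≤ m := by exact_mod_cast hb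
  have hb0 : (0 : ℝ) ≤ b := Nat.cast_nonneg _
  have h1 : (0 : ℝ) ≤ (b.choose 3 : ℕ) := Nat.cast_nonneg _
  have h2 : ((m.choose 3 : ℕ) : ℝ) ≤ m ^ 3 / 6 := by rw [cast_choose_three]; nlinarith
  have h3 : (0 : ℝ) < (m.choose 3 : ℕ) := by exact_mod_cast Nat.choose_pos hm
  calc ((b : ℝ) / m) ^ 3 - 3 / m ≤ (b.choose 3 : ℝ) / (m ^ 3 / 6) := by
        rw [cast_choose_three, le_div_iff₀ (by positivity)]
        have : (((b : ℝ) / m) ^ 3 - 3 / m) * (m ^ 3 / 6) = (b ^ 3 - 3 * m ^ 2) / 6 := by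
          field_simp
        rw [this]
        have : (b : ℝ) ^ 2 ≤ m ^ 2 := pow_le_pow_left₀ hb0 hb' 2
        nlinarith
    _ ≤ _ := by gcongr

theorem clOp_two (hn : 3 ≤ n) (N : ℕ) (H : (Fin n → Bool) → ℕ) :
    gs H + ∑ t ∈ range N, beta H t ^ 2 - N * (3 / (2 * n)) ≤ clOp n 2 N gs H := by
  refine le_trans ?_ (clOp_gs (by omega) N H)
  have : ∀ t ∈ range N, beta H t ^ 2 - 3 / (2 * n) ≤
      ((frozen H t).card.choose 2 : ℝ) / ((2 * n).choose 2 : ℕ) := by
    intro t _
    have := ratio_two (card_frozen_le H t) (by omega)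
    push_cast at this
    exact this
  have h2 := Finset.sum_le_sum this
  rw [Finset.sum_sub_distrib, Finset.sum_const, card_range, nsmul_eq_mul] at h2
  linarith

theorem clOp_three (hn : 3 ≤ n) (N : ℕ) (H : (Fin n → Bool) → ℕ) :
    gs H + ∑ t ∈ range N, beta H t ^ 3 - N * (3 / (2 * n)) ≤ clOp n 3 N gs H := by
  refine le_trans ?_ (clOp_gs (by omega) N H)
  have : ∀ t ∈ range N, beta H t ^ 3 - 3 / (2 * n) ≤
      ((frozen H t).card.choose 3 : ℝ) / ((2 * n).choose 3 : ℕ) := by
    intro t _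
    have := ratio_three (card_frozen_le H t) (by omega)
    push_cast at this
    exact this
  have h2 := Finset.sum_le_sum this
  rw [Finset.sum_sub_distrib, Finset.sum_const, card_range, nsmul_eq_mul] at h2
  linarith

/-- A probability law on 1, ..., N (the value u + 1 has mass μ u) with tail function a. -/
structure Law (N : ℕ) (μ a : ℕ → ℝ) : Prop where
  nonneg : ∀ u, 0 ≤ μ u
  tail : ∀ t < N, ∑ u ∈ range N, (if t ≤ u then μ u else 0) = a t
  total : ∑ u ∈ range N, μ u = 1

/-- Energy of a field of strength u + 1 on a literal. -/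
noncomputable def flE (x : (Fin n × Bool) × ℕ) : (Fin n → Bool) → ℕ :=
  pen (fun σ => σ x.1.1 ≠ x.1.2) (x.2 + 1)

/-- Adding a field on a uniformly random literal. -/
noncomputable def flOp (n N : ℕ) (μ : ℕ → ℝ) : Module.End ℝ (((Fin n → Bool) → ℕ) → ℝ) :=
  avg (univ ×ˢ range N) (fun x : (Fin n × Bool) × ℕ => μ x.2 / (2 * n)) flE

theorem field_weights {N : ℕ} {μ a : ℕ → ℝ} (h : Law N μ a) (hn : 1 ≤ n) :
    ∑ x ∈ (univ : Finset (Fin n × Bool)) ×ˢ range N, μ x.2 / (2 * n) = 1 := by
  have : (0 : ℝ) < n := by exact_mod_cast hn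
  rw [Finset.sum_product]
  simp only [← Finset.sum_div, h.total]
  simp only [sum_const, card_univ, Fintype.card_prod, Fintype.card_fin, Fintype.card_bool,
    nsmul_eq_mul]
  push_cast
  field_simp

theorem isMk_flOp {N : ℕ} {μ a : ℕ → ℝ} (h : Law N μ a) (hn : 1 ≤ n) : IsMk (flOp n N μ) :=
  isMk_avg _ _ _ (fun x _ => div_nonneg (h.nonneg _) (by positivity)) (field_weights h hn)

theorem flOp_gs {N : ℕ} {μ a : ℕ → ℝ} (h : Law N μ a) (hn : 1 ≤ n) (H : (Fin n → Bool) → ℕ) :
    flOp n N μ gs H = gs H + ∑ t ∈ range N, beta H t * a t := by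
  classical
  rw [flOp, avg_apply]
  simp only [flE, gs_add_pen, mul_add]
  rw [Finset.sum_add_distrib, ← Finset.sum_mul, field_weights h hn, one_mul]
  congr 1
  have h1 : ∀ x ∈ (univ : Finset (Fin n × Bool)) ×ˢ range N,
      μ x.2 / (2 * n) * ∑ t ∈ range (x.2 + 1),
        ind (∀ σ, H σ ≤ mn H + t → σ x.1.1 ≠ x.1.2) =
      ∑ t ∈ range N, ind (∀ σ, H σ ≤ mn H + t → σ x.1.1 ≠ x.1.2) / (2 * n) *
        (if t ≤ x.2 then μ x.2 else 0) := by
    intro x hx
    have hx2 : x.2 < N := Finset.mem_range.1 (Finset.mem_product.1 hx).2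
    have hsub : range (x.2 + 1) = (range N).filter (fun t => t ≤ x.2) := by
      ext t
      simp only [mem_range, mem_filter]
      omega
    rw [hsub, Finset.sum_filter, Finset.mul_sum]
    apply Finset.sum_congr rfl
    intro t _
    split_ifs <;> ring
  rw [Finset.sum_congr rfl h1, Finset.sum_comm]
  apply Finset.sum_congr rfl
  intro t ht
  rw [Finset.sum_product]
  have h2 : ∀ l : Fin n × Bool, ∑ u ∈ range N,
      ind (∀ σ, H σ ≤ mn H + t → σ l.1 ≠ l.2) / (2 * n) * (if t ≤ u then μ u else 0)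
      = ind (∀ σ, H σ ≤ mn H + t → σ l.1 ≠ l.2) / (2 * n) * a t := by
    intro l
    rw [← Finset.mul_sum, h.tail t (Finset.mem_range.1 ht)]
  rw [Finset.sum_congr rfl fun l _ => h2 l, ← Finset.sum_mul, ← Finset.sum_div, sum_ind, beta]
  congr 3

theorem step_two (hn : 3 ≤ n) {N : ℕ} {μ a : ℕ → ℝ} (h : Law N μ a) (ρ : ℝ)
    (H : (Fin n → Bool) → ℕ) :
    2 * (lazy ρ (flOp n N μ) gs H - gs H) - (ρ ^ 2 * ∑ t ∈ range N, a t ^ 2 + N * (3 / (2 * n)))
      ≤ clOp n 2 N gs H - gs H := by
  have h1 := clOp_two hn N H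
  rw [lazy_apply, flOp_gs h (by omega)]
  have h2 : ∀ t ∈ range N, 2 * ρ * (beta H t * a t) - ρ ^ 2 * a t ^ 2 ≤ beta H t ^ 2 :=
    fun t _ => by nlinarith [sq_nonneg (beta H t - ρ * a t)]
  have h3 := Finset.sum_le_sum h2
  rw [Finset.sum_sub_distrib, ← Finset.mul_sum, ← Finset.mul_sum] at h3
  linarith

theorem step_three (hn : 3 ≤ n) {N : ℕ} {μ a : ℕ → ℝ} (h : Law N μ (fun t => a t ^ 2)) {ρ : ℝ}
    (hρ : 0 ≤ ρ) (ha : ∀ t, 0 ≤ a t) (H : (Fin n → Bool) → ℕ) :
    3 * (lazy (ρ ^ 2) (flOp n N μ) gs H - gs H)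
      - (2 * ρ ^ 3 * ∑ t ∈ range N, a t ^ 3 + N * (3 / (2 * n)))
      ≤ clOp n 3 N gs H - gs H := by
  have h1 := clOp_three hn N H
  rw [lazy_apply, flOp_gs h (by omega)]
  have h2 : ∀ t ∈ range N, 3 * ρ ^ 2 * (beta H t * a t ^ 2) - 2 * ρ ^ 3 * a t ^ 3
      ≤ beta H t ^ 3 := by
    intro t _
    have h3 : 0 ≤ (beta H t - ρ * a t) ^ 2 * (beta H t + 2 * (ρ * a t)) :=
      mul_nonneg (sq_nonneg _) (add_nonneg (beta_nonneg H t) (by have := ha t; positivity))
    nlinarith
  have h3 := Finset.sum_le_sum h2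
  rw [Finset.sum_sub_distrib, ← Finset.mul_sum, ← Finset.mul_sum] at h3
  linarith

end Steps

end Pool.Agent.Lib.MP_4fe7bc_pr
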