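import Pool.Agent.Lib.MP_4fe7bc_pr.Sibuya

set_option autoImplicit false
set_option linter.unusedSectionVars false
set_option linter.unusedVariables false

open Finset Filter Topology

namespace Pool.Agent.Lib.MP_4fe7bc_pr

theorem interp_op {M : Type*} [AddCommMonoid M] {Q A B : Module.End ℝ (M → ℝ)} (hQ : IsMk Q)
    (hA : IsMk A) (hB : IsMk B) (hAB : Commute A B) (f : M → ℝ) (k : ℕ) (hk : 1 ≤ k) (c w : ℝ)
    (hw : 0 ≤ w) (h1 : ∀ H, k * (B f H - f H) - c ≤ A f H - f H)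
    (h2 : ∀ H, f H ≤ A f H ∧ A f H ≤ f H + w) (m : ℕ) (K : ℝ) (hK : 0 < K) (H : M) :
    (Q * B ^ (k * m)) f H - m * c - w * (m / K + K) ≤ (Q * A ^ m) f H := by
  have hP : ∀ a j, IsMk (Q * A ^ a * B ^ j) := fun a j => (hQ.mul (hA.pow a)).mul (hB.pow j)
  have eA : ∀ a j, (Q * A ^ (a + 1) * B ^ j) f = (Q * A ^ a * B ^ j) (A f) := by
    intro a j
    have : Q * A ^ (a + 1) * B ^ j = Q * A ^ a * B ^ j * A := by
      rw [pow_succ, mul_assoc, mul_assoc, (hAB.pow_right j).eq]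
      simp only [mul_assoc]
    rw [this, Module.End.mul_apply]
  have eB : ∀ a j, (Q * A ^ a * B ^ (j + 1)) f = (Q * A ^ a * B ^ j) (B f) := by
    intro a j
    rw [pow_succ, ← mul_assoc, Module.End.mul_apply]
  have := interp (fun a j => (Q * A ^ a * B ^ j) f H) k hk c w hw ?_ ?_ ?_ m K hK
  · simpa using this
  · intro a j
    simp only [eA, eB]
    have h3 : (fun x => ((k : ℝ) • B f - (k : ℝ) • f + f) x + -c) ≤ A f := by
      intro x
      have := h1 x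
      simp only [Pi.add_apply, Pi.sub_apply, Pi.smul_apply, smul_eq_mul]
      linarith
    have h4 := (hP a j).mono h3 H
    rw [(hP a j).add_const, map_add, map_sub, map_smul, map_smul] at h4
    simp only [Pi.add_apply, Pi.sub_apply, Pi.smul_apply, smul_eq_mul] at h4
    linarith
  · intro a
    simp only [eA]
    exact (hP a 0).mono (fun x => (h2 x).1) H
  · intro a
    simp only [eA]
    rw [← (hP a 0).add_const]
    exact (hP a 0).mono (fun x => (h2 x).2) H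

/-- Expected ground state energy of the random formula with clause weight N. -/
noncomputable def mean (n N m2 m3 : ℕ) : ℝ := (clOp n 2 N ^ m2 * clOp n 3 N ^ m3) gs 0

theorem clOp_lip {n k : ℕ} (h : k ≤ n) (N : ℕ) (H : (Fin n → Bool) → ℕ) :
    gs H ≤ clOp n k N gs H ∧ clOp n k N gs H ≤ gs H + N :=
  avg_lip (fun _ _ => by positivity) (clause_weights h) (fun C _ => lip_gs _ N) H

theorem mean_mono {n : ℕ} (hn : 3 ≤ n) (N : ℕ) {m2 m3 l2 l3 : ℕ} (h2 : m2 ≤ l2) (h3 : m3 ≤ l3) :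
    mean n N m2 m3 ≤ mean n N l2 l3 := by
  have hA2 := isMk_clOp (show 2 ≤ n by omega) N
  have hA3 := isMk_clOp hn N
  simp only [mean, Module.End.mul_apply]
  calc (clOp n 2 N ^ m2) ((clOp n 3 N ^ m3) gs) 0 ≤ (clOp n 2 N ^ m2) ((clOp n 3 N ^ l3) gs) 0 :=
        (hA2.pow m2).mono (fun H => avg_pow_mono (fun _ _ => by positivity) (clause_weights hn)
          (fun C _ => lip_gs _ N) H h3) 0
    _ ≤ _ := avg_pow_mono (fun _ _ => by positivity) (clause_weights (show 2 ≤ n by omega))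
          (fun C _ => (lip_gs _ N).map (hA3.pow l3)) 0 h2

theorem second_moment {n : ℕ} (hn : 3 ≤ n) (N m2 m3 : ℕ) :
    (clOp n 2 N ^ m2 * clOp n 3 N ^ m3) (fun H => gs H ^ 2) 0 ≤
      mean n N m2 m3 ^ 2 + (m2 + m3) * (N : ℝ) ^ 2 := by
  have hA2 := isMk_clOp (show 2 ≤ n by omega) N
  have hA3 := isMk_clOp hn N
  simp only [mean, Module.End.mul_apply]
  have h1 : (clOp n 3 N ^ m3) (fun H => gs H ^ 2) ≤
      fun H => ((clOp n 3 N ^ m3) gs H) ^ 2 + m3 * (N : ℝ) ^ 2 := fun H =>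
    avg_pow_sq (fun _ _ => by positivity) (clause_weights hn) (fun C _ => lip_gs _ N) m3 H
  have h2 := (hA2.pow m2).mono h1 0
  rw [(hA2.pow m2).add_const] at h2
  have h3 : (clOp n 2 N ^ m2) (fun H => ((clOp n 3 N ^ m3) gs H) ^ 2) 0 ≤
      ((clOp n 2 N ^ m2) ((clOp n 3 N ^ m3) gs) 0) ^ 2 + m2 * (N : ℝ) ^ 2 :=
    avg_pow_sq (fun _ _ => by positivity) (clause_weights (show 2 ≤ n by omega))
      (fun C _ => (lip_gs _ N).map (hA3.pow m3)) m2 0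
  linarith

theorem satProb_nonneg (n m2 m3 : ℕ) : 0 ≤ satProb n m2 m3 := by
  unfold satProb; positivity

theorem satProb_le {n : ℕ} (hn : 3 ≤ n) (N m2 m3 : ℕ) :
    satProb n m2 m3 ≤ (clOp n 2 N ^ m2 * clOp n 3 N ^ m3) (fun H => ind (mn H = 0)) 0 := by
  classical
  have := clause_nonempty (show 2 ≤ n by omega)
  have := clause_nonempty hn
  have hp2 : (0 : ℝ) < Fintype.card (Clause n 2) := by exact_mod_cast Fintype.card_pos
  have hp3 : (0 : ℝ) < Fintype.card (Clause n 3) := by exact_mod_cast Fintype.card_pos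
  rw [Module.End.mul_apply, clOp, avg_pow_uniform]
  simp only [clOp, avg_pow_uniform]
  rw [← Finset.mul_sum, satProb, Nat.card_eq_fintype_card, Nat.card_eq_fintype_card,
    Fintype.card_subtype, ← sum_ind, Fintype.sum_prod_type, Fintype.card_prod, Fintype.card_fun,
    Fintype.card_fun, Fintype.card_fin, Fintype.card_fin]
  have h1 : ∑ c : Fin m2 → Clause n 2, ∑ d : Fin m3 → Clause n 3,
      ind (∃ σ : Fin n → Bool, (∀ i, Sat σ (c i)) ∧ ∀ j, Sat σ (d j)) ≤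
      ∑ c : Fin m2 → Clause n 2, ∑ d : Fin m3 → Clause n 3,
        ind (mn (0 + ∑ i, clE N (c i) + ∑ j, clE N (d j)) = 0) := by
    apply Finset.sum_le_sum
    intro c _
    apply Finset.sum_le_sum
    intro d _
    by_cases h : ∃ σ : Fin n → Bool, (∀ i, Sat σ (c i)) ∧ ∀ j, Sat σ (d j)
    · rw [ind_pos h, ind_pos]
      obtain ⟨σ, h2, h3⟩ := h
      apply Nat.eq_zero_of_le_zero
      refine (mn_le _ σ).trans (le_of_eq ?_)
      simp [Finset.sum_apply, clE, pen, h2, h3]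
    · rw [ind_neg h]
      exact ind_nonneg _
  push_cast
  calc _ ≤ (∑ c : Fin m2 → Clause n 2, ∑ d : Fin m3 → Clause n 3,
        ind (mn (0 + ∑ i, clE N (c i) + ∑ j, clE N (d j)) = 0)) /
        ((Fintype.card (Clause n 2) : ℝ) ^ m2 * (Fintype.card (Clause n 3) : ℝ) ^ m3) := by
        gcongr
    _ = _ := by
        rw [one_div_pow, one_div_pow]
        field_simp

theorem chebyshev {n : ℕ} (hn : 3 ≤ n) (N m2 m3 : ℕ) :
    satProb n m2 m3 * mean n N m2 m3 ^ 2 ≤ (m2 + m3) * (N : ℝ) ^ 2 := by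
  have hT : IsMk (clOp n 2 N ^ m2 * clOp n 3 N ^ m3) :=
    ((isMk_clOp (show 2 ≤ n by omega) N).pow m2).mul ((isMk_clOp hn N).pow m3)
  have h1 := satProb_le hn N m2 m3
  have h2 := second_moment hn N m2 m3
  set e := mean n N m2 m3 with he
  have h3 : (e ^ 2) • (fun H : (Fin n → Bool) → ℕ => ind (mn H = 0)) ≤
      fun H => ((fun H => gs H ^ 2) - (2 * e) • gs : ((Fin n → Bool) → ℕ) → ℝ) H + e ^ 2 := by
    intro H
    simp only [Pi.smul_apply, Pi.sub_apply, smul_eq_mul]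
    by_cases h : mn H = 0
    · rw [ind_pos h]
      simp [gs, h]
    · rw [ind_neg h]
      nlinarith [sq_nonneg (gs H - e)]
  have h4 := hT.mono h3 0
  rw [hT.add_const, map_smul, map_sub, map_smul] at h4
  simp only [Pi.smul_apply, Pi.sub_apply, smul_eq_mul] at h4
  have h5 : (clOp n 2 N ^ m2 * clOp n 3 N ^ m3) gs 0 = e := rfl
  rw [h5] at h4
  have h6 := mul_le_mul_of_nonneg_right h1 (sq_nonneg e)
  nlinarith

theorem mean_ge_fields {n : ℕ} (hn : 3 ≤ n) {N : ℕ} {μ μ' a : ℕ → ℝ} (h : Law N μ a)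
    (h' : Law N μ' (fun t => a t ^ 2)) (ha : ∀ t, 0 ≤ a t) {ρ : ℝ} (h0 : 0 ≤ ρ) (h1 : ρ ≤ 1)
    (m2 m3 : ℕ) (K : ℝ) (hK : 0 < K) :
    (lazy ρ (flOp n N μ) ^ (2 * m2) * lazy (ρ ^ 2) (flOp n N μ') ^ (3 * m3)) gs 0
      - m2 * (ρ ^ 2 * ∑ t ∈ range N, a t ^ 2 + N * (3 / (2 * n))) - N * (m2 / K + K)
      - m3 * (2 * ρ ^ 3 * ∑ t ∈ range N, a t ^ 3 + N * (3 / (2 * n))) - N * (m3 / K + K)
      ≤ mean n N m2 m3 := by
  have hA2 := isMk_clOp (show 2 ≤ n by omega) N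
  have hA3 := isMk_clOp hn N
  have hB2 := (isMk_flOp (n := n) h (by omega)).lazy h0 h1
  have hB3 := (isMk_flOp (n := n) h' (by omega)).lazy (sq_nonneg ρ) (pow_le_one₀ h0 h1)
  have e1 := interp_op (hA2.pow m2) hA3 hB3 (hB3.commute_avg _ _ _).symm gs 3 (by norm_num) _ N
    (Nat.cast_nonneg N) (fun H => by exact_mod_cast step_three hn h' h0 ha H) (clOp_lip hn N)
    m3 K hK 0
  have e2 := interp_op (hB3.pow (3 * m3)) hA2 hB2 (hB2.commute_avg _ _ _).symm gs 2 (by norm_num)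
    _ N (Nat.cast_nonneg N) (fun H => by exact_mod_cast step_two hn h ρ H)
    (clOp_lip (show 2 ≤ n by omega) N) m2 K hK 0
  have c1 : Commute (lazy (ρ ^ 2) (flOp n N μ') ^ (3 * m3)) (clOp n 2 N ^ m2) :=
    ((hB3.pow _).commute_avg _ _ _).pow_right _
  have c2 : Commute (lazy (ρ ^ 2) (flOp n N μ') ^ (3 * m3)) (lazy ρ (flOp n N μ) ^ (2 * m2)) :=
    (commute_lazy ((hB3.pow _).commute_avg _ _ _) ρ).pow_right _
  rw [c1.eq, c2.eq] at e2
  unfold mean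
  push_cast at e1 e2
  linarith

/-- The normalised lower bound for the ground state energy. -/
noncomputable def lowG (S2 Sp S3 w ρ η x y z : ℝ) : ℝ :=
  (1 - 2 * x * ρ - 3 * y * ρ ^ 2) * (x * (2 * x - z) * ρ ^ 2 * (S2 / 2)
    + 2 * x * (2 * x - z) * (2 * x - 2 * z) / 6 * ρ ^ 3 * (3 / 4 * Sp)
    + 2 * x * ρ * (3 * y * ρ ^ 2) * (S3 / 2))
  - x * (ρ ^ 2 * S2 + w * (3 / 2 * z)) - w * (x * z / η + η)
  - y * (2 * ρ ^ 3 * S3 + w * (3 / 2 * z)) - w * (y * z / η + η)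

theorem mean_ge_lowG {n : ℕ} (hn : 3 ≤ n) {N : ℕ} (hN : 1 ≤ N) {ρ : ℝ} (h0 : 0 ≤ ρ) (h1 : ρ ≤ 1)
    (m2 m3 : ℕ) {η : ℝ} (hη : 0 < η) :
    n * lowG (∑ t ∈ range N, sa t ^ 2) (∑ t ∈ range N, sa t * (2 * sa t - sb t))
      (∑ t ∈ range N, sa t ^ 3) N ρ η (m2 / n) (m3 / n) (1 / n) ≤ mean n N m2 m3 := by
  have hn0 : (0 : ℝ) < n := by exact_mod_cast (show 0 < n by omega)
  have hn1 : (1 : ℝ) ≤ n := by exact_mod_cast (show 1 ≤ n by omega)
  have h := law_lawOf hN (a := sa) rfl (fun t => (sa_pos t).le) sa_succ_le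
  have h' := law_lawOf hN (a := fun t => sa t ^ 2) (by simp [sa]) (fun t => sq_nonneg _)
    (fun t => pow_le_pow_left₀ (sa_pos _).le (sa_succ_le t) 2)
  have e1 := mean_ge_fields hn h h' (fun t => (sa_pos t).le) h0 h1 m2 m3 (η * n) (by positivity)
  have e2 := fields_lower (n := n) (by omega) h h' h0 h1 (sq_nonneg ρ) (pow_le_one₀ h0 h1)
    (2 * m2) (3 * m3)
  have hz : 1 / (n : ℝ) ≤ 1 := by rw [div_le_one hn0]; exact hn1
  have e3 := site_lower h h' (q := ρ * (1 / n)) (q' := ρ ^ 2 * (1 / n)) (by positivity)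
    (mul_le_one₀ h1 (by positivity) hz) (by positivity)
    (mul_le_one₀ (pow_le_one₀ h0 h1) (by positivity) hz) (2 * m2) (3 * m3)
  have s1 : ∑ t ∈ range N, sa t * sa t = ∑ t ∈ range N, sa t ^ 2 :=
    Finset.sum_congr rfl fun t _ => by ring
  have s2 : ∑ t ∈ range N, sa t * sa t ^ 2 = ∑ t ∈ range N, sa t ^ 3 :=
    Finset.sum_congr rfl fun t _ => by ring
  have s3 : ∑ t ∈ range N, sa t * rOp N (lawOf N sa) (rOp N (lawOf N sa) (chi t)) 0
      = ∑ t ∈ range N, sa t * (2 * sa t - sb t) :=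
    Finset.sum_congr rfl fun t ht => by rw [rr_sa hN (mem_range.1 ht)]
  rw [s1, s2, s3, Nat.cast_choose_two, cast_choose_three] at e3
  have e4 := (mul_le_mul_of_nonneg_left e3 hn0.le).trans e2
  refine le_trans (le_of_eq ?_) (le_trans (by
    exact sub_le_sub_right (sub_le_sub_right (sub_le_sub_right (sub_le_sub_right e4 _) _) _) _) e1)
  unfold lowG
  push_cast
  field_simp

theorem tendsto_lowG {S2 Sp S3 w ρ η x y z : ℝ} {X Y Z : ℕ → ℝ} (hx : Tendsto X atTop (𝓝 x))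
    (hy : Tendsto Y atTop (𝓝 y)) (hz : Tendsto Z atTop (𝓝 z)) :
    Tendsto (fun n => lowG S2 Sp S3 w ρ η (X n) (Y n) (Z n)) atTop
      (𝓝 (lowG S2 Sp S3 w ρ η x y z)) := by
  have hc : Continuous fun v : ℝ × ℝ × ℝ => lowG S2 Sp S3 w ρ η v.1 v.2.1 v.2.2 := by
    unfold lowG; fun_prop
  have h1 := (hc.tendsto (x, y, z)).comp (hx.prodMk_nhds (hy.prodMk_nhds hz))
  simpa only [Function.comp_def] using h1

theorem tendsto_floor_div {α : ℝ} (h : 0 ≤ α) :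
    Tendsto (fun n : ℕ => (⌊α * n⌋₊ : ℝ) / n) atTop (𝓝 α) :=
  (tendsto_nat_floor_mul_div_atTop h).comp tendsto_natCast_atTop_atTop

theorem unsat_whp {lam : ℝ} (h : Real.Gamma (2 / 3) ^ 2 / Real.Gamma (1 / 3) < lam) :
    ∃ x0 : ℝ, 0 < x0 ∧ x0 < 1 ∧ ∀ α2 α3 : ℝ, x0 ≤ α2 → lam ≤ α3 →
      Tendsto (fun n : ℕ => satProb n ⌊α2 * n⌋₊ ⌊α3 * n⌋₊) atTop (𝓝 0) := by
  have hlam : 0 < lam := lt_trans (div_pos (pow_pos (Real.Gamma_pos_of_pos (by norm_num)) 2)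
    (Real.Gamma_pos_of_pos (by norm_num))) h
  obtain ⟨N, hN, hgood⟩ := exists_good_cutoff h
  set S2 := ∑ t ∈ range N, sa t ^ 2 with hS2
  set Sp := ∑ t ∈ range N, sa t * (2 * sa t - sb t) with hSp
  set S3 := ∑ t ∈ range N, sa t ^ 3 with hS3
  have hpos : 0 < lam * S3 - 2 * S2 + Sp := by
    have : Sp = 2 * S2 - ∑ t ∈ range N, sa t * sb t := by
      rw [hSp, hS2, Finset.mul_sum, ← Finset.sum_sub_distrib]
      exact Finset.sum_congr rfl fun t _ => by ring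
    linarith
  -- choice of the density of nonzero fields
  obtain ⟨ρ, hρ, hρ0, hρ1⟩ : ∃ ρ : ℝ, 0 < (lam * S3 - 2 * S2 + Sp)
      - ρ * (2 * Sp + 6 * lam * S3 + 3 * lam * S2) - ρ ^ 2 * (3 * lam * (Sp + 3 * lam * S3))
      ∧ 0 < ρ ∧ ρ < 1 := by
    have hc : Continuous fun ρ : ℝ => (lam * S3 - 2 * S2 + Sp)
      - ρ * (2 * Sp + 6 * lam * S3 + 3 * lam * S2)
      - ρ ^ 2 * (3 * lam * (Sp + 3 * lam * S3)) := by fun_prop
    have h1 := (hc.tendsto 0).eventually (lt_mem_nhds (by simpa using hpos))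
    have h2 : ∀ᶠ ρ : ℝ in 𝓝[>] 0, 0 < ρ ∧ ρ < 1 := Ioo_mem_nhdsGT (show (0 : ℝ) < 1 by norm_num)
    exact ((h1.filter_mono nhdsWithin_le_nhds).and h2).exists
  -- choice of the density of 2-clauses
  let g : ℝ → ℝ := fun x => (1 - 2 * x * ρ - 3 * lam * ρ ^ 2) * (x ^ 2 * ρ ^ 2 * S2
    + x ^ 3 * ρ ^ 3 * Sp + 3 * x * lam * ρ ^ 3 * S3) - x * (ρ ^ 2 * S2) - lam * (2 * ρ ^ 3 * S3)
  have hg1 : 0 < g 1 := by
    have : g 1 = ρ ^ 3 * ((lam * S3 - 2 * S2 + Sp)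
      - ρ * (2 * Sp + 6 * lam * S3 + 3 * lam * S2)
      - ρ ^ 2 * (3 * lam * (Sp + 3 * lam * S3))) := by
      simp only [g]; ring
    rw [this]
    positivity
  obtain ⟨x0, hx, hx0, hx1⟩ : ∃ x0 : ℝ, 0 < g x0 ∧ 0 < x0 ∧ x0 < 1 := by
    have hc : Continuous g := by simp only [g]; fun_prop
    have h1 := (hc.tendsto 1).eventually (lt_mem_nhds hg1)
    have h2 : ∀ᶠ x : ℝ in 𝓝[<] 1, 0 < x ∧ x < 1 := Ioo_mem_nhdsLT (show (0 : ℝ) < 1 by norm_num)
    exact ((h1.filter_mono nhdsWithin_le_nhds).and h2).exists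
  refine ⟨x0, hx0, hx1, fun α2 α3 h2 h3 => ?_⟩
  have hN0 : (0 : ℝ) < N := by exact_mod_cast hN
  set η : ℝ := g x0 / (4 * N) with hη
  have hη0 : 0 < η := by positivity
  have hlim : Tendsto (fun n : ℕ => lowG S2 Sp S3 N ρ η ((⌊x0 * n⌋₊ : ℝ) / n)
      ((⌊lam * n⌋₊ : ℝ) / n) (1 / n)) atTop (𝓝 (lowG S2 Sp S3 N ρ η x0 lam 0)) := by
    exact tendsto_lowG (tendsto_floor_div hx0.le) (tendsto_floor_div hlam.le)
      tendsto_one_div_atTop_nhds_zero_nat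
  have hval : lowG S2 Sp S3 N ρ η x0 lam 0 = g x0 / 2 := by
    have : lowG S2 Sp S3 N ρ η x0 lam 0 = g x0 - 2 * N * η := by
      simp only [lowG, g]; ring
    rw [this, hη]
    field_simp
    ring
  set c := g x0 / 4 with hc
  have hc0 : 0 < c := by positivity
  have hev := hlim.eventually (lt_mem_nhds (show c < lowG S2 Sp S3 N ρ η x0 lam 0 by
    rw [hval, hc]; linarith))
  have hup : Tendsto (fun n : ℕ => ((α2 + α3) * N ^ 2 / c ^ 2) / (n : ℝ)) atTop (𝓝 0) :=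
    tendsto_const_div_atTop_nhds_zero_nat _
  apply squeeze_zero' (Eventually.of_forall fun n => satProb_nonneg _ _ _) _ hup
  filter_upwards [hev, eventually_ge_atTop 3] with n hn1 hn
  have hn0 : (0 : ℝ) < n := by exact_mod_cast (show 0 < n by omega)
  have e1 := mean_ge_lowG hn hN hρ0.le hρ1.le ⌊x0 * n⌋₊ ⌊lam * n⌋₊ hη0
  have e2 : mean n N ⌊x0 * n⌋₊ ⌊lam * n⌋₊ ≤ mean n N ⌊α2 * n⌋₊ ⌊α3 * n⌋₊ :=
    mean_mono hn N (Nat.floor_le_floor (by gcongr)) (Nat.floor_le_floor (by gcongr))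
  have e3 : n * c ≤ mean n N ⌊α2 * n⌋₊ ⌊α3 * n⌋₊ :=
    le_trans (mul_le_mul_of_nonneg_left hn1.le hn0.le) (e1.trans e2)
  have e4 := chebyshev hn N ⌊α2 * n⌋₊ ⌊α3 * n⌋₊
  have f2 : (⌊α2 * n⌋₊ : ℝ) ≤ α2 * n := Nat.floor_le (mul_nonneg (by linarith) hn0.le)
  have f3 : (⌊α3 * n⌋₊ : ℝ) ≤ α3 * n := Nat.floor_le (mul_nonneg (by linarith) hn0.le)
  have e5 : satProb n ⌊α2 * n⌋₊ ⌊α3 * n⌋₊ * (n * c) ^ 2 ≤ (α2 * n + α3 * n) * (N : ℝ) ^ 2 := by
    calc _ ≤ satProb n ⌊α2 * n⌋₊ ⌊α3 * n⌋₊ * mean n N ⌊α2 * n⌋₊ ⌊α3 * n⌋₊ ^ 2 :=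
          mul_le_mul_of_nonneg_left (pow_le_pow_left₀ (by positivity) e3 2) (satProb_nonneg _ _ _)
      _ ≤ _ := e4
      _ ≤ _ := by gcongr
  rw [← le_div_iff₀ (by positivity)] at e5
  refine e5.trans (le_of_eq ?_)
  field_simp

end Pool.Agent.Lib.MP_4fe7bc_pr
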