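import Mathlib

set_option autoImplicit false
set_option linter.unusedSectionVars false
set_option linter.unusedVariables false

open Finset

namespace Pool.Agent.Lib.MP_4fe7bc_pr

section Ops

variable {M : Type*} [AddCommMonoid M]

/-- Translation operator on real functions of a state. -/
def tr (x : M) : Module.End ℝ (M → ℝ) := LinearMap.funLeft ℝ ℝ (fun H => H + x)

@[simp] theorem tr_apply (x : M) (f : M → ℝ) (H : M) : tr x f H = f (H + x) := rfl

/-- Weighted average of translations. -/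
noncomputable def avg {ι : Type*} (s : Finset ι) (p : ι → ℝ) (X : ι → M) :
    Module.End ℝ (M → ℝ) := ∑ i ∈ s, p i • tr (X i)

theorem avg_apply {ι : Type*} (s : Finset ι) (p : ι → ℝ) (X : ι → M) (f : M → ℝ) (H : M) :
    avg s p X f H = ∑ i ∈ s, p i * f (H + X i) := by
  simp [avg, LinearMap.sum_apply, Finset.sum_apply]

/-- Translation invariant Markov operators. -/
structure IsMk (T : Module.End ℝ (M → ℝ)) : Prop where
  pos : ∀ f, 0 ≤ f → 0 ≤ T f
  one : T 1 = 1
  comm : ∀ x, Commute T (tr x)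

theorem IsMk.mono {T : Module.End ℝ (M → ℝ)} (h : IsMk T) {f g : M → ℝ} (hfg : f ≤ g) :
    T f ≤ T g := by
  have := h.pos (g - f) (sub_nonneg.2 hfg)
  rw [map_sub] at this
  exact sub_nonneg.1 this

theorem IsMk.const {T : Module.End ℝ (M → ℝ)} (h : IsMk T) (c : ℝ) :
    T (fun _ => c) = fun _ => c := by
  have : (fun _ : M => c) = c • (1 : M → ℝ) := by ext; simp
  rw [this, map_smul, h.one]

theorem IsMk.add_const {T : Module.End ℝ (M → ℝ)} (h : IsMk T) (f : M → ℝ) (c : ℝ) (H : M) :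
    T (fun x => f x + c) H = T f H + c := by
  have : (fun x => f x + c) = f + fun _ => c := rfl
  rw [this, map_add, h.const]
  rfl

theorem isMk_one : IsMk (1 : Module.End ℝ (M → ℝ)) :=
  ⟨fun _ hf => hf, rfl, fun _ => Commute.one_left _⟩

theorem IsMk.mul {S T : Module.End ℝ (M → ℝ)} (hS : IsMk S) (hT : IsMk T) : IsMk (S * T) :=
  ⟨fun f hf => hS.pos _ (hT.pos f hf), by rw [Module.End.mul_apply, hT.one, hS.one],
    fun x => (hS.comm x).mul_left (hT.comm x)⟩

theorem IsMk.pow {T : Module.End ℝ (M → ℝ)} (hT : IsMk T) (m : ℕ) : IsMk (T ^ m) := by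
  induction m with
  | zero => rw [pow_zero]; exact isMk_one
  | succ m ih => rw [pow_succ]; exact ih.mul hT

theorem commute_tr (x y : M) : Commute (tr x) (tr y) := by
  ext f H
  simp [add_right_comm]

theorem isMk_avg {ι : Type*} (s : Finset ι) (p : ι → ℝ) (X : ι → M) (hp : ∀ i ∈ s, 0 ≤ p i)
    (h1 : ∑ i ∈ s, p i = 1) : IsMk (avg s p X) := by
  refine ⟨fun f hf H => ?_, ?_, fun x => ?_⟩
  · rw [avg_apply]
    exact Finset.sum_nonneg fun i hi => mul_nonneg (hp i hi) (hf _)
  · ext H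
    rw [avg_apply]
    simpa using h1
  · exact Commute.sum_left _ _ _ fun i _ => (commute_tr _ _).smul_left _

theorem IsMk.commute_avg {T : Module.End ℝ (M → ℝ)} (hT : IsMk T) {ι : Type*} (s : Finset ι)
    (p : ι → ℝ) (X : ι → M) : Commute T (avg s p X) :=
  Commute.sum_right _ _ _ fun i _ => (hT.comm _).smul_right _

/-- Lazy version of an operator. -/
noncomputable def lazy (q : ℝ) (U : Module.End ℝ (M → ℝ)) : Module.End ℝ (M → ℝ) :=
  (1 - q) • 1 + q • U

theorem lazy_apply (q : ℝ) (U : Module.End ℝ (M → ℝ)) (f : M → ℝ) (H : M) :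
    lazy q U f H = (1 - q) * f H + q * U f H := by
  simp [lazy]

theorem IsMk.lazy {U : Module.End ℝ (M → ℝ)} (hU : IsMk U) {q : ℝ} (h0 : 0 ≤ q) (h1 : q ≤ 1) :
    IsMk (lazy q U) := by
  refine ⟨fun f hf H => ?_, ?_, fun x => ?_⟩
  · rw [lazy_apply]
    exact add_nonneg (mul_nonneg (by linarith) (hf H)) (mul_nonneg h0 (hU.pos f hf H))
  · ext H
    rw [lazy_apply, hU.one]
    simp
  · exact ((Commute.one_left _).smul_left _).add_left ((hU.comm x).smul_left _)

theorem commute_lazy {T U : Module.End ℝ (M → ℝ)} (h : Commute T U) (q : ℝ) :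
    Commute T (lazy q U) :=
  ((Commute.one_right _).smul_right _).add_right (h.smul_right _)

/-- The function increases by at most w under translation by x. -/
def Lip (x : M) (w : ℝ) (f : M → ℝ) : Prop := ∀ H, f H ≤ f (H + x) ∧ f (H + x) ≤ f H + w

theorem Lip.map {x : M} {w : ℝ} {f : M → ℝ} (h : Lip x w f) {T : Module.End ℝ (M → ℝ)}
    (hT : IsMk T) : Lip x w (T f) := by
  intro H
  have hc : T f (H + x) = T (tr x f) H := by
    have := congrFun (LinearMap.congr_fun (hT.comm x).eq f) H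
    simp only [Module.End.mul_apply, tr_apply] at this
    exact this.symm
  rw [hc]
  refine ⟨hT.mono (fun y => (h y).1) H, ?_⟩
  rw [← hT.add_const]
  exact hT.mono (fun y => (h y).2) H

theorem avg_lip {ι : Type*} {s : Finset ι} {p : ι → ℝ} {X : ι → M} (hp : ∀ i ∈ s, 0 ≤ p i)
    (h1 : ∑ i ∈ s, p i = 1) {w : ℝ} {f : M → ℝ} (hf : ∀ i ∈ s, Lip (X i) w f) (H : M) :
    f H ≤ avg s p X f H ∧ avg s p X f H ≤ f H + w := by
  rw [avg_apply]
  constructor
  · calc f H = ∑ i ∈ s, p i * f H := by rw [← Finset.sum_mul, h1, one_mul]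
      _ ≤ _ := Finset.sum_le_sum fun i hi => mul_le_mul_of_nonneg_left (hf i hi H).1 (hp i hi)
  · calc _ ≤ ∑ i ∈ s, p i * (f H + w) :=
        Finset.sum_le_sum fun i hi => mul_le_mul_of_nonneg_left (hf i hi H).2 (hp i hi)
      _ = f H + w := by rw [← Finset.sum_mul, h1, one_mul]

theorem avg_sq {ι : Type*} {s : Finset ι} {p : ι → ℝ} {X : ι → M} (hp : ∀ i ∈ s, 0 ≤ p i)
    (h1 : ∑ i ∈ s, p i = 1) {w : ℝ} {f : M → ℝ} (hf : ∀ i ∈ s, Lip (X i) w f) (H : M) :
    avg s p X (fun x => f x ^ 2) H ≤ (avg s p X f H) ^ 2 + w ^ 2 := by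
  rw [avg_apply, avg_apply]
  set m := ∑ i ∈ s, p i * f (H + X i) with hm
  have h2 : ∀ i ∈ s, p i * f (H + X i) ^ 2 ≤
      p i * (w ^ 2 - f H ^ 2) + 2 * f H * (p i * f (H + X i)) := by
    intro i hi
    have ha := (hf i hi H).1
    have hb := (hf i hi H).2
    have hc : (f (H + X i) - f H) ^ 2 ≤ w ^ 2 :=
      pow_le_pow_left₀ (by linarith) (by linarith) 2
    have := mul_le_mul_of_nonneg_left hc (hp i hi)
    nlinarith
  have h3 := Finset.sum_le_sum h2
  rw [Finset.sum_add_distrib, ← Finset.sum_mul, h1, ← Finset.mul_sum, ← hm] at h3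
  nlinarith [sq_nonneg (m - f H)]

theorem avg_pow_sq {ι : Type*} {s : Finset ι} {p : ι → ℝ} {X : ι → M} (hp : ∀ i ∈ s, 0 ≤ p i)
    (h1 : ∑ i ∈ s, p i = 1) {w : ℝ} {f : M → ℝ} (hf : ∀ i ∈ s, Lip (X i) w f) (m : ℕ) (H : M) :
    (avg s p X ^ m) (fun x => f x ^ 2) H ≤ ((avg s p X ^ m) f H) ^ 2 + m * w ^ 2 := by
  have hA := isMk_avg s p X hp h1
  induction m generalizing H with
  | zero => simp
  | succ m ih =>
    rw [pow_succ', Module.End.mul_apply, Module.End.mul_apply]
    have h2 : avg s p X ((avg s p X ^ m) fun x => f x ^ 2) H ≤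
        avg s p X (fun y => ((avg s p X ^ m) f y) ^ 2 + m * w ^ 2) H := hA.mono ih H
    rw [hA.add_const] at h2
    have h3 := avg_sq hp h1 (fun i hi => (hf i hi).map (hA.pow m)) H
    push_cast
    linarith

theorem avg_pow_mono {ι : Type*} {s : Finset ι} {p : ι → ℝ} {X : ι → M} (hp : ∀ i ∈ s, 0 ≤ p i)
    (h1 : ∑ i ∈ s, p i = 1) {w : ℝ} {f : M → ℝ} (hf : ∀ i ∈ s, Lip (X i) w f) (H : M) :
    Monotone fun m : ℕ => (avg s p X ^ m) f H := by
  have hA := isMk_avg s p X hp h1
  apply monotone_nat_of_le_succ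
  intro m
  simp only [pow_succ', Module.End.mul_apply]
  exact (avg_lip hp h1 (fun i hi => (hf i hi).map (hA.pow m)) H).1

/-- Iterating a uniform average is averaging over independent uniform samples. -/
theorem avg_pow_uniform {C : Type*} [Fintype C] (r : ℝ) (X : C → M) (m : ℕ) (f : M → ℝ) (H : M) :
    (avg univ (fun _ => r) X ^ m) f H = r ^ m * ∑ c : Fin m → C, f (H + ∑ i, X (c i)) := by
  induction m generalizing H with
  | zero => simp
  | succ m ih =>
    rw [pow_succ', Module.End.mul_apply, avg_apply]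
    simp only [ih]
    rw [← (Fin.consEquiv (fun _ : Fin (m + 1) => C)).sum_comp, Fintype.sum_prod_type,
      Finset.mul_sum]
    apply Finset.sum_congr rfl
    intro x _
    rw [pow_succ', mul_assoc]
    congr 2
    apply Finset.sum_congr rfl
    intro c _
    congr 1
    rw [Fin.sum_univ_succ, add_assoc]
    simp [Fin.consEquiv]

/-- Lower bound for the powers of a lazy operator by the first terms of the binomial expansion. -/
theorem lazy_pow_lower {U : Module.End ℝ (M → ℝ)} (hU : IsMk U) {q : ℝ} (h0 : 0 ≤ q) (h1 : q ≤ 1)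
    {f : M → ℝ} (hf : 0 ≤ f) (T : ℕ) :
    (1 - q) ^ T • (f + (T * q) • U f + ((T.choose 2 : ℝ) * q ^ 2) • U (U f)
      + ((T.choose 3 : ℝ) * q ^ 3) • U (U (U f))) ≤ (lazy q U ^ T) f := by
  have hL := hU.lazy h0 h1
  have p1 := hU.pos _ hf
  have p2 := hU.pos _ p1
  have p3 := hU.pos _ p2
  have p4 := hU.pos _ p3
  induction T with
  | zero => simp
  | succ T ih =>
    rw [pow_succ' (lazy q U), Module.End.mul_apply]
    refine le_trans ?_ (hL.mono ih)
    intro H
    rw [lazy_apply]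
    simp only [map_smul, map_add, Pi.smul_apply, Pi.add_apply, smul_eq_mul]
    have e2 : ((T + 1).choose 2 : ℝ) = T + T.choose 2 := by
      rw [Nat.choose_succ_succ' T 1]; simp
    have e3 : ((T + 1).choose 3 : ℝ) = T.choose 2 + T.choose 3 := by
      rw [Nat.choose_succ_succ' T 2]; simp
    rw [e2, e3]
    push_cast
    have q1 := p1 H
    have q2 := p2 H
    have q3 := p3 H
    have q4 := p4 H
    simp only [Pi.zero_apply] at q1 q2 q3 q4
    have hP : 0 ≤ (1 - q) ^ T := pow_nonneg (by linarith) T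
    have hc2 : (0 : ℝ) ≤ (T.choose 2 : ℕ) := Nat.cast_nonneg _
    have hc3 : (0 : ℝ) ≤ (T.choose 3 : ℕ) := Nat.cast_nonneg _
    generalize ((T.choose 2 : ℕ) : ℝ) = c2 at *
    generalize ((T.choose 3 : ℕ) : ℝ) = c3 at *
    have hT : (0 : ℝ) ≤ T := Nat.cast_nonneg _
    have key : 0 ≤ (1 - q) ^ T * (q * q * (U f H + T * q * U (U f) H + c2 * q ^ 2 * U (U (U f)) H)
        + q * (c3 * q ^ 3 * U (U (U (U f))) H)) := by positivity
    rw [pow_succ]
    nlinarith [key]

/-- Intertwining of operators along an additive map. -/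
def Semi {M' : Type*} [AddCommMonoid M'] (π : M → M') (S : Module.End ℝ (M → ℝ))
    (T : Module.End ℝ (M' → ℝ)) : Prop := ∀ f : M' → ℝ, S (f ∘ π) = (T f) ∘ π

theorem Semi.mul {M' : Type*} [AddCommMonoid M'] {π : M → M'} {S S' : Module.End ℝ (M → ℝ)}
    {T T' : Module.End ℝ (M' → ℝ)} (h : Semi π S T) (h' : Semi π S' T') :
    Semi π (S * S') (T * T') := by
  intro f
  rw [Module.End.mul_apply, Module.End.mul_apply, h', h]

theorem Semi.pow {M' : Type*} [AddCommMonoid M'] {π : M → M'} {S : Module.End ℝ (M → ℝ)}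
    {T : Module.End ℝ (M' → ℝ)} (h : Semi π S T) (m : ℕ) : Semi π (S ^ m) (T ^ m) := by
  induction m with
  | zero => intro f; simp
  | succ m ih => rw [pow_succ, pow_succ]; exact ih.mul h

theorem Semi.lazy {M' : Type*} [AddCommMonoid M'] {π : M → M'} {S : Module.End ℝ (M → ℝ)}
    {T : Module.End ℝ (M' → ℝ)} (h : Semi π S T) (q : ℝ) : Semi π (lazy q S) (lazy q T) := by
  intro f
  ext H
  rw [lazy_apply, h]
  simp [lazy_apply]

end Ops

section Interp

/-- One step of a lazy walk on the naturals. -/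
noncomputable def walk (q : ℝ) : Module.End ℝ (ℕ → ℝ) := lazy q (tr 1)

theorem isMk_tr {M : Type*} [AddCommMonoid M] (x : M) : IsMk (tr x) :=
  ⟨fun _ hf H => hf (H + x), rfl, fun y => commute_tr x y⟩

theorem walk_quad (q c : ℝ) (T a : ℕ) :
    (walk q ^ T) (fun x : ℕ => ((x : ℝ) - c) ^ 2) a = (a + T * q - c) ^ 2 + T * (q * (1 - q)) := by
  induction T generalizing a with
  | zero => simp
  | succ T ih =>
    rw [pow_succ', Module.End.mul_apply, walk, lazy_apply, tr_apply, ← walk, ih, ih]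
    push_cast
    ring

/-- The discrete interpolation: k fields replace one clause. -/
theorem interp (Φ : ℕ → ℕ → ℝ) (k : ℕ) (hk : 1 ≤ k) (c w : ℝ) (hw : 0 ≤ w)
    (h1 : ∀ a j, k * (Φ a (j + 1) - Φ a j) - c ≤ Φ (a + 1) j - Φ a j)
    (h2 : ∀ a, Φ a 0 ≤ Φ (a + 1) 0) (h3 : ∀ a, Φ (a + 1) 0 ≤ Φ a 0 + w) (m : ℕ) (K : ℝ)
    (hK : 0 < K) : Φ 0 (k * m) - m * c - w * (m / K + K) ≤ Φ m 0 := by
  have hk0 : (0 : ℝ) < k := by exact_mod_cast hk
  have hk1 : (1 : ℝ) ≤ k := by exact_mod_cast hk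
  set q : ℝ := 1 / k with hq
  have hq0 : 0 ≤ q := by positivity
  have hq1 : q ≤ 1 := by rw [hq, div_le_one hk0]; exact hk1
  have hW : IsMk (walk q) := (isMk_tr 1).lazy hq0 hq1
  have step : ∀ T j a, Φ a (j + T) - T * (q * c) ≤ (walk q ^ T) (fun x => Φ x j) a := by
    intro T
    induction T with
    | zero => intro j a; simp
    | succ T ih =>
      intro j a
      rw [pow_succ, Module.End.mul_apply]
      have h4 : (fun x => Φ x (j + 1) + -(q * c)) ≤ walk q (fun x => Φ x j) := by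
        intro x
        rw [walk, lazy_apply, tr_apply]
        have := mul_le_mul_of_nonneg_left (h1 x j) hq0
        have hqk : q * k = 1 := by rw [hq]; field_simp
        have h5 : q * (k * (Φ x (j + 1) - Φ x j) - c) = Φ x (j + 1) - Φ x j - q * c := by
          rw [mul_sub, ← mul_assoc, hqk, one_mul]
        rw [h5] at this
        show Φ x (j + 1) + -(q * c) ≤ _
        linarith
      have h6 := (hW.pow T).mono h4 a
      rw [(hW.pow T).add_const] at h6
      have h7 := ih (j + 1) a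
      rw [show j + (T + 1) = j + 1 + T by ring]
      push_cast
      linarith
  have hmono : Monotone fun a => Φ a 0 := monotone_nat_of_le_succ h2
  have hup : ∀ d, Φ (m + d) 0 ≤ Φ m 0 + w * d := by
    intro d
    induction d with
    | zero => simp
    | succ d ih =>
      have := h3 (m + d)
      rw [← add_assoc]
      push_cast
      linarith
  have hbound : (fun x => Φ x 0) ≤
      fun x : ℕ => (w / K) * ((x : ℝ) - m) ^ 2 + (Φ m 0 + w * K) := by
    intro x
    have hsq : 0 ≤ (w / K) * ((x : ℝ) - m) ^ 2 := by positivity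
    have hwK : 0 ≤ w * K := by positivity
    rcases le_total x m with h | h
    · have := hmono h
      show Φ x 0 ≤ _
      simp only at this
      linarith
    · obtain ⟨d, rfl⟩ := Nat.exists_eq_add_of_le h
      have h5 := hup d
      have h6 : (d : ℝ) ≤ d ^ 2 / K + K := by
        rw [div_add' _ _ _ hK.ne', le_div_iff₀ hK]
        nlinarith [sq_nonneg ((d : ℝ) - K), mul_nonneg (Nat.cast_nonneg (α := ℝ) d) hK.le]
      have h7 := mul_le_mul_of_nonneg_left h6 hw
      show Φ (m + d) 0 ≤ _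
      push_cast
      have h8 : (w / K) * ((m : ℝ) + d - m) ^ 2 = w * (d ^ 2 / K) := by ring
      rw [h8]
      linarith
  have h9 := (hW.pow (k * m)).mono hbound 0
  rw [(hW.pow (k * m)).add_const] at h9
  have h10 : (fun x : ℕ => (w / K) * ((x : ℝ) - m) ^ 2)
      = (w / K) • fun x : ℕ => ((x : ℝ) - m) ^ 2 := rfl
  rw [h10, map_smul, Pi.smul_apply, walk_quad, smul_eq_mul] at h9
  have h11 := step (k * m) 0 0
  have hkm : ((k * m : ℕ) : ℝ) * q = m := by
    rw [hq]; push_cast; field_simp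
  have h12 : ((k * m : ℕ) : ℝ) * (q * c) = m * c := by rw [← mul_assoc, hkm]
  have h13 : ((k * m : ℕ) : ℝ) * (q * (1 - q)) = m * (1 - q) := by rw [← mul_assoc, hkm]
  rw [h12, zero_add] at h11
  rw [h13, hkm] at h9
  have h14 : (w / K) * ((((0 : ℕ) : ℝ) + m - m) ^ 2 + m * (1 - q)) ≤ w * (m / K) := by
    have : (((0 : ℕ) : ℝ) + m - m) ^ 2 + m * (1 - q) ≤ m := by
      have := mul_nonneg (Nat.cast_nonneg (α := ℝ) m) hq0
      simp only [Nat.cast_zero, zero_add, sub_self]
      nlinarith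
    calc _ ≤ (w / K) * m := mul_le_mul_of_nonneg_left this (by positivity)
      _ = _ := by ring
  linarith

end Interp

end Pool.Agent.Lib.MP_4fe7bc_pr
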