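import Pool.Agent.Lib.MP_4fe7bc_pr.Site

set_option autoImplicit false
set_option linter.unusedSectionVars false
set_option linter.unusedVariables false

open Finset Filter Topology

namespace Pool.Agent.Lib.MP_4fe7bc_pr

/-- Truncated tail function. -/
def cut (N : ℕ) (a : ℕ → ℝ) (t : ℕ) : ℝ := if t < N then a t else 0

/-- The law with a given tail, truncated at N. -/
def lawOf (N : ℕ) (a : ℕ → ℝ) (u : ℕ) : ℝ := cut N a u - cut N a (u + 1)

theorem law_lawOf {N : ℕ} (hN : 1 ≤ N) {a : ℕ → ℝ} (h0 : a 0 = 1) (hpos : ∀ t, 0 ≤ a t)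
    (hanti : ∀ t, a (t + 1) ≤ a t) : Law N (lawOf N a) a := by
  have key : ∀ t K, t ≤ K → ∑ u ∈ range K, (if t ≤ u then lawOf N a u else 0)
      = cut N a t - cut N a K := by
    intro t K hK
    induction K, hK using Nat.le_induction with
    | base =>
      rw [sub_self]
      apply Finset.sum_eq_zero
      intro u hu
      rw [if_neg (not_le.2 (mem_range.1 hu))]
    | succ K hK ih =>
      rw [Finset.sum_range_succ, ih, if_pos hK, lawOf]
      ring
  have htail : ∀ t < N, ∑ u ∈ range N, (if t ≤ u then lawOf N a u else 0) = a t := by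
    intro t ht
    rw [key t N ht.le]
    simp [cut, ht]
  refine ⟨fun u => ?_, htail, ?_⟩
  · simp only [lawOf, cut]
    have := hanti u
    have := hpos u
    split_ifs with h1 h2 h2
    · linarith
    · linarith
    · omega
    · simp
  · have := htail 0 hN
    simpa [h0] using this

theorem rr_chi {N : ℕ} {μ a : ℕ → ℝ} (h : Law N μ a) (h0 : a 0 = 1) {t : ℕ} (ht : t < N) :
    rOp N μ (rOp N μ (chi t)) 0 = a t + ∑ u ∈ range t, μ u * a (t - 1 - u) := by
  have h1 : ∀ u, rOp N μ (chi t) (0 + (u + 1)) = a (t - (u + 1)) := by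
    intro u
    rw [rOp, avg_apply, ← h.tail (t - (u + 1)) (by omega)]
    apply Finset.sum_congr rfl
    intro v _
    simp only [chi]
    by_cases hv : t - (u + 1) ≤ v
    · rw [if_pos hv, if_pos (by omega), mul_one]
    · rw [if_neg hv, if_neg (by omega), mul_zero]
  rw [rOp, avg_apply, ← rOp]
  simp only [h1]
  rw [← h.tail t ht]
  have hsub : range t = (range N).filter (fun u => u < t) := by
    ext u
    simp only [mem_range, mem_filter]
    omega
  rw [hsub, Finset.sum_filter, ← Finset.sum_add_distrib]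
  apply Finset.sum_congr rfl
  intro u _
  by_cases hu : t ≤ u
  · rw [if_pos hu, if_neg (by omega), show t - (u + 1) = 0 by omega, h0]
    ring
  · rw [if_neg hu, if_pos (by omega), show t - (u + 1) = t - 1 - u by omega]
    ring

/-- Coefficients of (1 - z)^(-2/3). -/
noncomputable def sa : ℕ → ℝ
  | 0 => 1
  | t + 1 => sa t * ((t + 2 / 3) / (t + 1))

/-- Coefficients of (1 - z)^(-1/3). -/
noncomputable def sb : ℕ → ℝ
  | 0 => 1
  | t + 1 => sb t * ((t + 1 / 3) / (t + 1))

theorem sa_pos (t : ℕ) : 0 < sa t := by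
  induction t with
  | zero => simp [sa]
  | succ t ih => rw [sa]; positivity

theorem sb_pos (t : ℕ) : 0 < sb t := by
  induction t with
  | zero => simp [sb]
  | succ t ih => rw [sb]; positivity

theorem sa_succ_le (t : ℕ) : sa (t + 1) ≤ sa t := by
  rw [sa]
  apply mul_le_of_le_one_right (sa_pos t).le
  rw [div_le_one (by positivity)]
  linarith

theorem sa_rec (t : ℕ) : (t + 1 : ℝ) * sa (t + 1) = (t + 2 / 3) * sa t := by
  rw [sa]; field_simp

theorem sb_rec (t : ℕ) : (t + 1 : ℝ) * sb (t + 1) = (t + 1 / 3) * sb t := by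
  rw [sb]; field_simp

/-- Convolution square of sa. -/
noncomputable def sc (t : ℕ) : ℝ := ∑ p ∈ antidiagonal t, sa p.1 * sa p.2

theorem sc_weight (t : ℕ) : (t : ℝ) * sc t = 2 * ∑ p ∈ antidiagonal t, p.1 * sa p.1 * sa p.2 := by
  have h1 : ∑ p ∈ antidiagonal t, (p.2 : ℝ) * sa p.1 * sa p.2
      = ∑ p ∈ antidiagonal t, p.1 * sa p.1 * sa p.2 := by
    rw [← Finset.Nat.sum_antidiagonal_swap]
    apply Finset.sum_congr rfl
    intro p _
    simp only [Prod.fst_swap, Prod.snd_swap]
    ring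
  rw [two_mul]
  nth_rewrite 2 [← h1]
  rw [← Finset.sum_add_distrib, sc, Finset.mul_sum]
  apply Finset.sum_congr rfl
  intro p hp
  rw [← mem_antidiagonal.1 hp]
  push_cast
  ring

theorem sc_rec (t : ℕ) : (t + 1 : ℝ) * sc (t + 1) = (t + 4 / 3) * sc t := by
  have h1 := sc_weight (t + 1)
  rw [Finset.Nat.sum_antidiagonal_succ] at h1
  have h2 : ∑ p ∈ antidiagonal t, ((p.1 + 1 : ℕ) : ℝ) * sa (p.1 + 1) * sa p.2
      = ∑ p ∈ antidiagonal t, p.1 * sa p.1 * sa p.2 + 2 / 3 * sc t := by
    rw [sc, Finset.mul_sum, ← Finset.sum_add_distrib]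
    apply Finset.sum_congr rfl
    intro p _
    push_cast
    rw [sa_rec]
    ring
  rw [h2] at h1
  have h3 := sc_weight t
  push_cast at h1
  linarith

theorem sc_eq (t : ℕ) : sc t = 3 * (t + 1) * sb (t + 1) := by
  induction t with
  | zero => simp [sc, sa, sb]
  | succ t ih =>
    have h1 := sc_rec t
    have h2 := sb_rec (t + 1)
    push_cast at h2 ⊢
    have h3 : (0 : ℝ) < t + 1 := by positivity
    apply mul_left_cancel₀ h3.ne'
    rw [h1, ih]
    linear_combination (-3 * ((t : ℝ) + 1)) * h2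

theorem conv_identity (t : ℕ) :
    ∑ u ∈ range t, (sa u - sa (u + 1)) * sa (t - 1 - u) = sa t - sb t := by
  cases t with
  | zero => simp [sa, sb]
  | succ t =>
    have h1 : sc t = ∑ u ∈ range (t + 1), sa u * sa (t - u) := by
      rw [sc, Finset.Nat.sum_antidiagonal_eq_sum_range_succ (fun i j => sa i * sa j)]
    have h2 : sc (t + 1) = sa (t + 1) + ∑ u ∈ range (t + 1), sa (u + 1) * sa (t - u) := by
      rw [sc, Finset.Nat.sum_antidiagonal_succ,
        Finset.Nat.sum_antidiagonal_eq_sum_range_succ (fun i j => sa (i + 1) * sa j)]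
      simp [sa]
    have h3 : sc (t + 1) - sc t = sb (t + 1) := by
      have h4 := sc_rec t
      have h5 := sc_eq t
      have h6 : (0 : ℝ) < t + 1 := by positivity
      apply mul_left_cancel₀ h6.ne'
      linear_combination h4 + (1 / 3) * h5
    simp only [Nat.add_sub_cancel, sub_mul, Finset.sum_sub_distrib]
    linarith

theorem rr_sa {N : ℕ} (hN : 1 ≤ N) {t : ℕ} (ht : t < N) :
    rOp N (lawOf N sa) (rOp N (lawOf N sa) (chi t)) 0 = 2 * sa t - sb t := by
  rw [rr_chi (law_lawOf hN rfl (fun t => (sa_pos t).le) sa_succ_le) rfl ht]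
  have : ∑ u ∈ range t, lawOf N sa u * sa (t - 1 - u)
      = ∑ u ∈ range t, (sa u - sa (u + 1)) * sa (t - 1 - u) := by
    apply Finset.sum_congr rfl
    intro u hu
    have := mem_range.1 hu
    rw [lawOf, cut, cut, if_pos (by omega), if_pos (by omega)]
  rw [this, conv_identity]
  ring

theorem sa_cube (t : ℕ) : 1 ≤ (3 * t + 1 : ℝ) * sa t ^ 3 := by
  induction t with
  | zero => simp [sa]
  | succ t ih =>
    refine ih.trans ?_
    rw [sa, mul_pow, div_pow]
    have h0 : (0 : ℝ) ≤ t := Nat.cast_nonneg t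
    have h1 : (3 * t + 1 : ℝ) ≤ (3 * (t + 1 : ℕ) + 1) * ((t + 2 / 3) ^ 3 / (t + 1) ^ 3) := by
      rw [← mul_div_assoc, le_div_iff₀ (by positivity)]
      push_cast
      nlinarith
    have h2 := mul_le_mul_of_nonneg_right h1 (pow_pos (sa_pos t) 3).le
    linarith

theorem tendsto_sum_cube : Tendsto (fun N => ∑ t ∈ range N, sa t ^ 3) atTop atTop := by
  have h1 := Real.tendsto_sum_range_one_div_nat_succ_atTop.const_mul_atTop
    (show (0 : ℝ) < 1 / 3 by norm_num)
  apply tendsto_atTop_mono _ h1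
  intro N
  rw [Finset.mul_sum]
  apply Finset.sum_le_sum
  intro t _
  have h2 := sa_cube t
  have h3 := pow_pos (sa_pos t) 3
  have h0 : (0 : ℝ) ≤ t := Nat.cast_nonneg t
  rw [div_mul_div_comm, div_le_iff₀ (by positivity)]
  nlinarith

theorem sa_prod (t : ℕ) : sa t * (t.factorial : ℝ) = ∏ j ∈ range t, ((2 / 3 : ℝ) + j) := by
  induction t with
  | zero => simp [sa]
  | succ t ih =>
    rw [Finset.prod_range_succ, ← ih, Nat.factorial_succ]
    push_cast
    linear_combination (t.factorial : ℝ) * sa_rec t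

theorem sb_prod (t : ℕ) : sb t * (t.factorial : ℝ) = ∏ j ∈ range t, ((1 / 3 : ℝ) + j) := by
  induction t with
  | zero => simp [sb]
  | succ t ih =>
    rw [Finset.prod_range_succ, ← ih, Nat.factorial_succ]
    push_cast
    linear_combination (t.factorial : ℝ) * sb_rec t

theorem tendsto_ratio : Tendsto (fun t => sb t / sa t ^ 2) atTop
    (𝓝 (Real.Gamma (2 / 3) ^ 2 / Real.Gamma (1 / 3))) := by
  rw [← tendsto_add_atTop_iff_nat 1]
  have hG : Real.Gamma (1 / 3) ≠ 0 := (Real.Gamma_pos_of_pos (by norm_num)).ne'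
  have h1 := ((Real.GammaSeq_tendsto_Gamma (2 / 3)).pow 2).div
    (Real.GammaSeq_tendsto_Gamma (1 / 3)) hG
  have h2 : Tendsto (fun t : ℕ => 1 + 1 / (t : ℝ)) atTop (𝓝 (1 + 0)) :=
    tendsto_const_nhds.add tendsto_one_div_atTop_nhds_zero_nat
  have h3 := h2.mul h1
  rw [add_zero, one_mul] at h3
  apply h3.congr'
  filter_upwards [eventually_gt_atTop 0] with t ht
  have ht' : (0 : ℝ) < t := by exact_mod_cast ht
  simp only [Pi.div_apply, Real.GammaSeq]
  rw [← sa_prod, ← sb_prod, Nat.factorial_succ]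
  have hf : (0 : ℝ) < t.factorial := by exact_mod_cast t.factorial_pos
  have ha := sa_pos (t + 1)
  have hb := sb_pos (t + 1)
  have hp : (0 : ℝ) < (t : ℝ) ^ (1 / 3 : ℝ) := Real.rpow_pos_of_pos ht' _
  have hq : ((t : ℝ) ^ (2 / 3 : ℝ)) ^ 2 = t * (t : ℝ) ^ (1 / 3 : ℝ) := by
    rw [← Real.rpow_natCast, ← Real.rpow_mul ht'.le, ← Real.rpow_one_add' ht'.le (by norm_num)]
    norm_num
  rw [div_pow, mul_pow, hq]
  push_cast
  field_simp

theorem exists_good_cutoff {lam : ℝ} (h : Real.Gamma (2 / 3) ^ 2 / Real.Gamma (1 / 3) < lam) :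
    ∃ N, 1 ≤ N ∧ ∑ t ∈ range N, sa t * sb t < lam * ∑ t ∈ range N, sa t ^ 3 := by
  obtain ⟨l, hl1, hl2⟩ := exists_between h
  obtain ⟨t0, ht0⟩ := eventually_atTop.1 ((tendsto_order.1 tendsto_ratio).2 l hl1)
  have hl0 : 0 ≤ l := by
    have := ht0 t0 le_rfl
    have h2 := div_pos (sb_pos t0) (pow_pos (sa_pos t0) 2)
    linarith
  set C := ∑ t ∈ range t0, sa t * sb t with hC
  have key : ∀ N, ∑ t ∈ range N, sa t * sb t ≤ C + l * ∑ t ∈ range N, sa t ^ 3 := by
    intro N
    have h1 : ∀ t ∈ range N, sa t * sb t ≤ (if t ∈ range t0 then sa t * sb t else 0)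
        + l * sa t ^ 3 := by
      intro t _
      have ha := sa_pos t
      split_ifs with ht
      · have : 0 ≤ l * sa t ^ 3 := by positivity
        linarith
      · have h2 := ht0 t (by simpa using ht)
        rw [div_lt_iff₀ (by positivity)] at h2
        nlinarith
    refine (Finset.sum_le_sum h1).trans ?_
    rw [Finset.sum_add_distrib, ← Finset.mul_sum, Finset.sum_ite_mem]
    have h4 : ∑ i ∈ range N ∩ range t0, sa i * sb i ≤ C :=
      Finset.sum_le_sum_of_subset_of_nonneg inter_subset_right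
        fun t _ _ => (mul_pos (sa_pos t) (sb_pos t)).le
    linarith
  have h3 := (tendsto_sum_cube.const_mul_atTop (sub_pos.2 hl2)).eventually_gt_atTop C
  obtain ⟨N, hN1, hN2⟩ := (h3.and (eventually_ge_atTop 1)).exists
  refine ⟨N, hN2, ?_⟩
  have := key N
  linarith

end Pool.Agent.Lib.MP_4fe7bc_pr
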