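import Pool.Agent.Lib.MP_4fe7bc_pr.Energy

set_option autoImplicit false
set_option linter.unusedSectionVars false
set_option linter.unusedVariables false

open Finset

namespace Pool.Agent.Lib.MP_4fe7bc_pr

/-- One field added to a single counter. -/
noncomputable def rOp (N : ℕ) (μ : ℕ → ℝ) : Module.End ℝ (ℕ → ℝ) :=
  avg (range N) μ (fun u => u + 1)

/-- One field added to a uniformly chosen literal of a single variable. -/
noncomputable def uOp (N : ℕ) (μ : ℕ → ℝ) : Module.End ℝ (ℕ × ℕ → ℝ) :=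
  avg (univ ×ˢ range N) (fun x : Bool × ℕ => μ x.2 / 2)
    (fun x => if x.1 then (x.2 + 1, 0) else (0, x.2 + 1))

theorem uOp_apply (N : ℕ) (μ : ℕ → ℝ) (f : ℕ × ℕ → ℝ) (p : ℕ × ℕ) :
    uOp N μ f p = ∑ u ∈ range N, μ u / 2 * f (p.1 + (u + 1), p.2)
      + ∑ u ∈ range N, μ u / 2 * f (p.1, p.2 + (u + 1)) := by
  rw [uOp, avg_apply, Finset.sum_product, Fintype.sum_bool]
  rfl

theorem isMk_uOp {N : ℕ} {μ a : ℕ → ℝ} (h : Law N μ a) : IsMk (uOp N μ) := by
  apply isMk_avg _ _ _ (fun x _ => div_nonneg (h.nonneg _) (by positivity))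
  rw [Finset.sum_product, Fintype.sum_bool]
  simp only [← Finset.sum_div, h.total]
  norm_num

/-- Product function. -/
def ten (g h : ℕ → ℝ) : ℕ × ℕ → ℝ := fun p => g p.1 * h p.2

theorem uOp_ten (N : ℕ) (μ : ℕ → ℝ) (g h : ℕ → ℝ) :
    uOp N μ (ten g h) = (1 / 2 : ℝ) • (ten (rOp N μ g) h + ten g (rOp N μ h)) := by
  ext p
  rw [uOp_apply]
  simp only [ten, rOp, avg_apply, Pi.smul_apply, Pi.add_apply, smul_eq_mul, mul_add,
    Finset.sum_mul, Finset.mul_sum]
  congr 1 <;> (apply Finset.sum_congr rfl; intro u _; ring)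

/-- Threshold indicator. -/
def chi (t : ℕ) : ℕ → ℝ := fun x => if t < x then 1 else 0

theorem chi_zero (t : ℕ) : chi t 0 = 0 := by simp [chi]

theorem chi_nonneg (t x : ℕ) : 0 ≤ chi t x := by unfold chi; split_ifs <;> simp

theorem rOp_chi {N : ℕ} {μ a : ℕ → ℝ} (h : Law N μ a) {t : ℕ} (ht : t < N) :
    rOp N μ (chi t) 0 = a t := by
  rw [rOp, avg_apply, ← h.tail t ht]
  apply Finset.sum_congr rfl
  intro u _
  simp only [chi, zero_add, Nat.lt_succ_iff]
  split_ifs <;> simp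

/-- Lower bound for the ground state energy of a single variable. -/
noncomputable def siteF (N : ℕ) : ℕ × ℕ → ℝ := ∑ t ∈ range N, ten (chi t) (chi t)

theorem siteF_apply (N : ℕ) (p : ℕ × ℕ) :
    siteF N p = ∑ t ∈ range N, chi t p.1 * chi t p.2 := by
  simp [siteF, Finset.sum_apply, ten]

theorem siteF_nonneg (N : ℕ) : 0 ≤ siteF N := by
  intro p
  rw [siteF_apply]
  exact Finset.sum_nonneg fun t _ => mul_nonneg (chi_nonneg _ _) (chi_nonneg _ _)

theorem siteF_le (N : ℕ) (p : ℕ × ℕ) : siteF N p ≤ (min p.1 p.2 : ℕ) := by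
  rw [siteF_apply]
  have : ∀ t ∈ range N, chi t p.1 * chi t p.2 = if t < min p.1 p.2 then 1 else 0 := by
    intro t _
    simp only [chi, lt_min_iff]
    by_cases h1 : t < p.1 <;> by_cases h2 : t < p.2 <;> simp [h1, h2]
  rw [Finset.sum_congr rfl this, Finset.sum_boole]
  have h : ((range N).filter fun t => t < min p.1 p.2) ⊆ range (min p.1 p.2) := by
    intro t ht
    exact mem_range.2 (mem_filter.1 ht).2
  have := Finset.card_le_card h
  rw [card_range] at this
  exact_mod_cast this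

theorem uu_site {N : ℕ} {μ a μ' a' : ℕ → ℝ} (h : Law N μ a) (h' : Law N μ' a') :
    uOp N μ (uOp N μ' (siteF N)) (0, 0) = (∑ t ∈ range N, a t * a' t) / 2 := by
  simp only [siteF, map_sum, Finset.sum_apply, Finset.sum_div]
  apply Finset.sum_congr rfl
  intro t ht
  have ht' := mem_range.1 ht
  simp only [uOp_ten, map_smul, map_add, Pi.smul_apply, Pi.add_apply, smul_eq_mul, ten, chi_zero,
    rOp_chi h ht', rOp_chi h' ht']
  ring

theorem uuu_site {N : ℕ} {μ a : ℕ → ℝ} (h : Law N μ a) :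
    uOp N μ (uOp N μ (uOp N μ (siteF N))) (0, 0) =
      3 / 4 * ∑ t ∈ range N, a t * rOp N μ (rOp N μ (chi t)) 0 := by
  simp only [siteF, map_sum, Finset.sum_apply, Finset.mul_sum]
  apply Finset.sum_congr rfl
  intro t ht
  have ht' := mem_range.1 ht
  simp only [uOp_ten, map_smul, map_add, Pi.smul_apply, Pi.add_apply, smul_eq_mul, ten, chi_zero,
    rOp_chi h ht']
  ring

theorem site_lower {N : ℕ} {μ a μ' a' : ℕ → ℝ} (h : Law N μ a) (h' : Law N μ' a') {q q' : ℝ}
    (h0 : 0 ≤ q) (h1 : q ≤ 1) (h0' : 0 ≤ q') (h1' : q' ≤ 1) (T T' : ℕ) :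
    (1 - T * q - T' * q') * ((T.choose 2 : ℝ) * q ^ 2 * ((∑ t ∈ range N, a t * a t) / 2)
      + (T.choose 3 : ℝ) * q ^ 3 * (3 / 4 * ∑ t ∈ range N, a t * rOp N μ (rOp N μ (chi t)) 0)
      + T * q * (T' * q') * ((∑ t ∈ range N, a t * a' t) / 2))
      ≤ (lazy q (uOp N μ) ^ T * lazy q' (uOp N μ') ^ T') (siteF N) (0, 0) := by
  have hU := isMk_uOp h
  have hU' := isMk_uOp h'
  have hf := siteF_nonneg N
  set U := uOp N μ with hUdef
  set U' := uOp N μ' with hUdef'
  set f := siteF N with hfdef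
  have hP : 0 ≤ (1 - q) ^ T := pow_nonneg (by linarith) T
  have hP' : 0 ≤ (1 - q') ^ T' := pow_nonneg (by linarith) T'
  have p1 := hU'.pos _ hf
  have p2 := hU'.pos _ p1
  have p3 := hU'.pos _ p2
  set g := f + (T' * q') • U' f with hg
  have hg0 : 0 ≤ g := add_nonneg hf (smul_nonneg (by positivity) p1)
  have e1 : (1 - q') ^ T' • g ≤ (lazy q' U' ^ T') f := by
    refine le_trans ?_ (lazy_pow_lower hU' h0' h1' hf T')
    apply smul_le_smul_of_nonneg_left _ hP'
    rw [add_assoc g]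
    exact le_add_of_nonneg_right (add_nonneg (smul_nonneg (by positivity) p2)
      (smul_nonneg (by positivity) p3))
  have e2 := ((hU.lazy h0 h1).pow T).mono e1 (0, 0)
  rw [map_smul, Pi.smul_apply, smul_eq_mul] at e2
  have e3 := lazy_pow_lower hU h0 h1 hg0 T (0, 0)
  simp only [Pi.smul_apply, Pi.add_apply, smul_eq_mul] at e3
  rw [Module.End.mul_apply]
  refine le_trans ?_ e2
  refine le_trans ?_ (mul_le_mul_of_nonneg_left e3 hP')
  rw [← uu_site h h, ← uu_site h h', ← uuu_site h, ← hUdef, ← hUdef', ← hfdef]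
  have hfg : f ≤ g := le_add_of_nonneg_right (smul_nonneg (by positivity) p1)
  have hfg' : (T' * q') • U' f ≤ g := le_add_of_nonneg_left hf
  have b0 : 0 ≤ g (0, 0) := hg0 _
  have b1 : T' * q' * U (U' f) (0, 0) ≤ U g (0, 0) := by
    have := hU.mono hfg' (0, 0)
    rwa [map_smul, Pi.smul_apply, smul_eq_mul] at this
  have b2 : U (U f) (0, 0) ≤ U (U g) (0, 0) := hU.mono (hU.mono hfg) _
  have b3 : U (U (U f)) (0, 0) ≤ U (U (U g)) (0, 0) := hU.mono (hU.mono (hU.mono hfg)) _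
  have c1 : 0 ≤ U (U' f) (0, 0) := hU.pos _ p1 _
  have c2 : 0 ≤ U (U f) (0, 0) := hU.pos _ (hU.pos _ hf) _
  have c3 : 0 ≤ U (U (U f)) (0, 0) := hU.pos _ (hU.pos _ (hU.pos _ hf)) _
  have hB : 1 - T * q ≤ (1 - q) ^ T := by
    have := one_add_mul_le_pow (a := -q) (by linarith) T
    simpa [sub_eq_add_neg] using this
  have hB' : 1 - T' * q' ≤ (1 - q') ^ T' := by
    have := one_add_mul_le_pow (a := -q') (by linarith) T'
    simpa [sub_eq_add_neg] using this
  have hL : (1 - q) ^ T ≤ 1 := pow_le_one₀ (by linarith) (by linarith)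
  have hL' : (1 - q') ^ T' ≤ 1 := pow_le_one₀ (by linarith) (by linarith)
  have hprod : 1 - T * q - T' * q' ≤ (1 - q') ^ T' * (1 - q) ^ T := by
    nlinarith [mul_nonneg (sub_nonneg.2 hL) (sub_nonneg.2 hL')]
  rw [← mul_assoc ((1 - q') ^ T') ((1 - q) ^ T)]
  have hin : (T.choose 2 : ℝ) * q ^ 2 * U (U f) (0, 0)
      + (T.choose 3 : ℝ) * q ^ 3 * U (U (U f)) (0, 0) + T * q * (T' * q') * U (U' f) (0, 0)
      ≤ g (0, 0) + T * q * U g (0, 0) + (T.choose 2 : ℝ) * q ^ 2 * U (U g) (0, 0)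
        + (T.choose 3 : ℝ) * q ^ 3 * U (U (U g)) (0, 0) := by
    have d1 := mul_le_mul_of_nonneg_left b1 (show (0 : ℝ) ≤ T * q by positivity)
    have d2 := mul_le_mul_of_nonneg_left b2 (show (0 : ℝ) ≤ (T.choose 2 : ℝ) * q ^ 2 by positivity)
    have d3 := mul_le_mul_of_nonneg_left b3 (show (0 : ℝ) ≤ (T.choose 3 : ℝ) * q ^ 3 by positivity)
    linarith
  exact mul_le_mul hprod hin (by positivity) (mul_nonneg hP' hP)

section Fields

variable {n : ℕ}

/-- Energy function of accumulated fields on the literals. -/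
noncomputable def emb (s : Fin n × Bool → ℕ) : (Fin n → Bool) → ℕ :=
  fun σ => ∑ l : Fin n × Bool, if σ l.1 ≠ l.2 then s l else 0

/-- Adding a field, on the level of the accumulated fields. -/
noncomputable def accOp (n N : ℕ) (μ : ℕ → ℝ) : Module.End ℝ ((Fin n × Bool → ℕ) → ℝ) :=
  avg (univ ×ˢ range N) (fun x : (Fin n × Bool) × ℕ => μ x.2 / (2 * n))
    (fun x => Pi.single x.1 (x.2 + 1))

theorem isMk_accOp {N : ℕ} {μ a : ℕ → ℝ} (h : Law N μ a) (hn : 1 ≤ n) : IsMk (accOp n N μ) :=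
  isMk_avg _ _ _ (fun x _ => div_nonneg (h.nonneg _) (by positivity)) (field_weights h hn)

theorem emb_add_single (s : Fin n × Bool → ℕ) (x : (Fin n × Bool) × ℕ) :
    emb (s + Pi.single x.1 (x.2 + 1)) = emb s + flE x := by
  ext σ
  simp only [emb, Pi.add_apply, flE, pen]
  have : ∀ l : Fin n × Bool, (if σ l.1 ≠ l.2 then s l + (Pi.single x.1 (x.2 + 1) :
      Fin n × Bool → ℕ) l else 0) = (if σ l.1 ≠ l.2 then s l else 0) +
      (if l = x.1 then (if σ x.1.1 ≠ x.1.2 then x.2 + 1 else 0) else 0) := by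
    intro l
    by_cases hl : l = x.1
    · subst hl
      simp only [Pi.single_eq_same, if_true]
      split_ifs <;> rfl
    · simp [hl]
  rw [Finset.sum_congr rfl fun l _ => this l, Finset.sum_add_distrib, Finset.sum_ite_eq']
  simp only [mem_univ, if_true]
  congr

theorem semi_emb (N : ℕ) (μ : ℕ → ℝ) : Semi emb (accOp n N μ) (flOp n N μ) := by
  intro f
  ext s
  simp only [accOp, flOp, avg_apply, Function.comp_apply, emb_add_single]

/-- The fields on the two literals of a variable. -/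
def proj (i : Fin n) (s : Fin n × Bool → ℕ) : ℕ × ℕ := (s (i, true), s (i, false))

theorem semi_proj {N : ℕ} {μ a : ℕ → ℝ} (h : Law N μ a) (i : Fin n) :
    Semi (proj i) (accOp n N μ) (lazy (1 / n) (uOp N μ)) := by
  intro f
  ext s
  have hn : (0 : ℝ) < n := by exact_mod_cast Fin.pos i
  rw [Function.comp_apply, lazy_apply, uOp_apply, accOp, avg_apply, Finset.sum_product,
    Fintype.sum_prod_type, ← Finset.add_sum_erase _ _ (mem_univ i), Fintype.sum_bool]
  have h1 : ∀ j ∈ univ.erase i, ∑ b : Bool, ∑ u ∈ range N, μ u / (2 * n) *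
      (f ∘ proj i) (s + Pi.single (j, b) (u + 1)) = 1 / n * f (proj i s) := by
    intro j hj
    have hji : j ≠ i := (mem_erase.1 hj).1
    have h2 : ∀ (b : Bool) (u : ℕ), proj i (s + Pi.single (j, b) (u + 1)) = proj i s := by
      intro b u
      have h3 : ∀ c : Bool, (i, c) ≠ (j, b) := fun c hc => hji (congrArg Prod.fst hc).symm
      simp [proj, Pi.single_eq_of_ne (h3 _)]
    simp only [Function.comp_apply, h2, ← Finset.sum_mul, ← Finset.sum_div, h.total,
      Fintype.sum_bool]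
    congr 1
    field_simp
    norm_num
  rw [Finset.sum_congr rfl h1, Finset.sum_const, card_erase_of_mem (mem_univ i), card_univ,
    Fintype.card_fin, nsmul_eq_mul, Nat.cast_sub (Fin.pos i)]
  have h4 : ∀ u : ℕ, proj i (s + Pi.single (i, true) (u + 1)) =
      ((proj i s).1 + (u + 1), (proj i s).2) := by
    intro u
    simp [proj]
  have h5 : ∀ u : ℕ, proj i (s + Pi.single (i, false) (u + 1)) =
      ((proj i s).1, (proj i s).2 + (u + 1)) := by
    intro u
    simp [proj]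
  simp only [Function.comp_apply, h4, h5, mul_add, Finset.mul_sum]
  have h6 : ∀ (g : ℕ → ℝ), ∑ u ∈ range N, μ u / (2 * n) * g u =
      ∑ u ∈ range N, 1 / n * (μ u / 2 * g u) := by
    intro g
    apply Finset.sum_congr rfl
    intro u _
    field_simp
  rw [h6, h6]
  have h7 : ((n : ℝ) - (1 : ℕ)) * (1 / n * f (proj i s)) = (1 - 1 / n) * f (proj i s) := by
    push_cast
    field_simp
  rw [h7]
  ring

theorem lazy_lazy {M : Type*} (q r : ℝ) (U : Module.End ℝ (M → ℝ)) :
    lazy q (lazy r U) = lazy (q * r) U := by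
  ext f H
  simp [lazy]
  ring

theorem sum_site_le (N : ℕ) (s : Fin n × Bool → ℕ) :
    ∑ i, siteF N (proj i s) ≤ gs (emb s) := by
  have h1 : ∑ i, min (s (i, true)) (s (i, false)) ≤ mn (emb s) := by
    apply le_mn
    intro σ
    rw [emb, Fintype.sum_prod_type]
    apply Finset.sum_le_sum
    intro i _
    rw [Fintype.sum_bool]
    cases σ i <;> simp
  calc ∑ i, siteF N (proj i s) ≤ ∑ i, ((min (s (i, true)) (s (i, false)) : ℕ) : ℝ) :=
        Finset.sum_le_sum fun i _ => siteF_le N _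
    _ ≤ _ := by unfold gs; exact_mod_cast h1

theorem fields_lower (hn : 1 ≤ n) {N : ℕ} {μ a μ' a' : ℕ → ℝ} (h : Law N μ a) (h' : Law N μ' a')
    {r r' : ℝ} (h0 : 0 ≤ r) (h1 : r ≤ 1) (h0' : 0 ≤ r') (h1' : r' ≤ 1) (T T' : ℕ) :
    n * (lazy (r * (1 / n)) (uOp N μ) ^ T * lazy (r' * (1 / n)) (uOp N μ') ^ T') (siteF N) (0, 0)
      ≤ (lazy r (flOp n N μ) ^ T * lazy r' (flOp n N μ') ^ T') gs 0 := by
  have hS : Semi emb (lazy r (accOp n N μ) ^ T * lazy r' (accOp n N μ') ^ T')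
      (lazy r (flOp n N μ) ^ T * lazy r' (flOp n N μ') ^ T') :=
    (((semi_emb N μ).lazy r).pow T).mul (((semi_emb N μ').lazy r').pow T')
  have hP : ∀ i : Fin n, Semi (proj i) (lazy r (accOp n N μ) ^ T * lazy r' (accOp n N μ') ^ T')
      (lazy (r * (1 / n)) (uOp N μ) ^ T * lazy (r' * (1 / n)) (uOp N μ') ^ T') := by
    intro i
    rw [← lazy_lazy, ← lazy_lazy]
    exact (((semi_proj h i).lazy r).pow T).mul (((semi_proj h' i).lazy r').pow T')
  have hM : IsMk (lazy r (accOp n N μ) ^ T * lazy r' (accOp n N μ') ^ T') :=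
    (((isMk_accOp h hn).lazy h0 h1).pow T).mul (((isMk_accOp h' hn).lazy h0' h1').pow T')
  have e0 : emb (0 : Fin n × Bool → ℕ) = 0 := by ext σ; simp [emb]
  have e1 := congrFun (hS gs) 0
  rw [Function.comp_apply, e0] at e1
  rw [← e1]
  have e2 : (∑ i : Fin n, siteF N ∘ proj i) ≤ gs ∘ emb := by
    intro s
    rw [Finset.sum_apply]
    exact sum_site_le N s
  refine le_trans (le_of_eq ?_) (hM.mono e2 0)
  rw [map_sum, Finset.sum_apply]
  have e3 : ∀ i : Fin n, (lazy r (accOp n N μ) ^ T * lazy r' (accOp n N μ') ^ T')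
      (siteF N ∘ proj i) 0 = (lazy (r * (1 / n)) (uOp N μ) ^ T *
        lazy (r' * (1 / n)) (uOp N μ') ^ T') (siteF N) (0, 0) := by
    intro i
    rw [hP i]
    rfl
  rw [Finset.sum_congr rfl fun i _ => e3 i]
  simp

end Fields

end Pool.Agent.Lib.MP_4fe7bc_pr
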