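import Pool.Agent.Lib.MP_4fe7bc_pr.Main

set_option autoImplicit false
set_option linter.unusedSectionVars false
set_option linter.unusedVariables false

open Finset

namespace Pool.Agent.Lib.MP_4fe7bc_pr.Thr

/-- Finitely supported signed measures on states, under convolution. -/
abbrev Alg (Ω : Type) : Type := AddMonoidAlgebra ℝ (Ω → ℕ)

variable {Ω : Type}

/-- Translations as a monoid homomorphism. -/
def trHom (Ω : Type) : Multiplicative (Ω → ℕ) →* Module.End ℝ ((Ω → ℕ) → ℝ) where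
  toFun x := tr x.toAdd
  map_one' := by ext f H; simp
  map_mul' x y := by ext f H; simp [add_assoc]

/-- The action of a measure on functions of the state. -/
noncomputable def rep : Alg Ω →ₐ[ℝ] Module.End ℝ ((Ω → ℕ) → ℝ) :=
  AddMonoidAlgebra.lift ℝ _ _ (trHom Ω)

/-- Point mass. -/
noncomputable def dl (x : Ω → ℕ) : Alg Ω := AddMonoidAlgebra.single x 1

theorem rep_single (x : Ω → ℕ) (r : ℝ) (g : (Ω → ℕ) → ℝ) (H : Ω → ℕ) :
    rep (AddMonoidAlgebra.single x r) g H = r * g (H + x) := by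
  simp [rep, trHom]

theorem rep_dl (x : Ω → ℕ) (g : (Ω → ℕ) → ℝ) (H : Ω → ℕ) : rep (dl x) g H = g (H + x) := by
  rw [dl, rep_single, one_mul]

theorem rep_mul (μ ν : Alg Ω) (g : (Ω → ℕ) → ℝ) : rep (μ * ν) g = rep μ (rep ν g) := by
  rw [map_mul, Module.End.mul_apply]

theorem rep_comm (μ ν : Alg Ω) (g : (Ω → ℕ) → ℝ) : rep μ (rep ν g) = rep ν (rep μ g) := by
  rw [← rep_mul, mul_comm, rep_mul]

theorem rep_one (g : (Ω → ℕ) → ℝ) : rep (1 : Alg Ω) g = g := by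
  rw [map_one, Module.End.one_apply]

theorem rep_add (μ ν : Alg Ω) (g : (Ω → ℕ) → ℝ) (H : Ω → ℕ) :
    rep (μ + ν) g H = rep μ g H + rep ν g H := by
  rw [map_add]; rfl

theorem rep_sub (μ ν : Alg Ω) (g : (Ω → ℕ) → ℝ) (H : Ω → ℕ) :
    rep (μ - ν) g H = rep μ g H - rep ν g H := by
  rw [map_sub]; rfl

theorem rep_smul (r : ℝ) (μ : Alg Ω) (g : (Ω → ℕ) → ℝ) (H : Ω → ℕ) :
    rep (r • μ) g H = r * rep μ g H := by
  rw [map_smul]; rfl

theorem rep_shift (μ : Alg Ω) (g : (Ω → ℕ) → ℝ) (H x : Ω → ℕ) :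
    rep μ g (H + x) = rep μ (fun y => g (y + x)) H := by
  have h1 : (fun y => g (y + x)) = rep (dl x) g := by ext y; rw [rep_dl]
  rw [h1, rep_comm, rep_dl]

theorem rep_zero_shift (μ : Alg Ω) (g : (Ω → ℕ) → ℝ) (H : Ω → ℕ) :
    rep μ g H = rep μ (fun y => g (y + H)) 0 := by
  rw [← rep_shift, zero_add]

/-- Positive measures. -/
def Pos (μ : Alg Ω) : Prop := ∀ g : (Ω → ℕ) → ℝ, 0 ≤ g → 0 ≤ rep μ g

theorem Pos.mono {μ : Alg Ω} (h : Pos μ) {f g : (Ω → ℕ) → ℝ} (hfg : f ≤ g) :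
    rep μ f ≤ rep μ g := by
  have := h (g - f) (sub_nonneg.2 hfg)
  rw [map_sub] at this
  exact sub_nonneg.1 this

theorem Pos.mul {μ ν : Alg Ω} (h : Pos μ) (h' : Pos ν) : Pos (μ * ν) := fun g hg => by
  rw [rep_mul]; exact h _ (h' g hg)

theorem pos_one : Pos (1 : Alg Ω) := fun g hg => by rw [rep_one]; exact hg

theorem Pos.pow {μ : Alg Ω} (h : Pos μ) (m : ℕ) : Pos (μ ^ m) := by
  induction m with
  | zero => rw [pow_zero]; exact pos_one
  | succ m ih => rw [pow_succ]; exact ih.mul h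

theorem Pos.add {μ ν : Alg Ω} (h : Pos μ) (h' : Pos ν) : Pos (μ + ν) := fun g hg H => by
  rw [rep_add]; exact add_nonneg (h g hg H) (h' g hg H)

theorem Pos.smul {μ : Alg Ω} (h : Pos μ) {r : ℝ} (hr : 0 ≤ r) : Pos (r • μ) := fun g hg H => by
  rw [rep_smul]; exact mul_nonneg hr (h g hg H)

/-- Probability measures. -/
structure Mk (μ : Alg Ω) : Prop where
  pos : Pos μ
  one : rep μ 1 = 1

theorem Mk.const {μ : Alg Ω} (h : Mk μ) (c : ℝ) : rep μ (fun _ => c) = fun _ => c := by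
  have : (fun _ : Ω → ℕ => c) = c • (1 : (Ω → ℕ) → ℝ) := by ext; simp
  rw [this, map_smul, h.one]

theorem Mk.add_const {μ : Alg Ω} (h : Mk μ) (f : (Ω → ℕ) → ℝ) (c : ℝ) (H : Ω → ℕ) :
    rep μ (fun x => f x + c) H = rep μ f H + c := by
  have : (fun x => f x + c) = f + fun _ => c := rfl
  rw [this, map_add, h.const]
  rfl

theorem Mk.le_one {μ : Alg Ω} (h : Mk μ) {f : (Ω → ℕ) → ℝ} (hf : f ≤ 1) : rep μ f ≤ 1 := by
  rw [← h.one]; exact h.pos.mono hf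

theorem mk_one : Mk (1 : Alg Ω) := ⟨pos_one, rep_one _⟩

theorem Mk.mul {μ ν : Alg Ω} (h : Mk μ) (h' : Mk ν) : Mk (μ * ν) :=
  ⟨h.pos.mul h'.pos, by rw [rep_mul, h'.one, h.one]⟩

theorem Mk.pow {μ : Alg Ω} (h : Mk μ) (m : ℕ) : Mk (μ ^ m) := by
  induction m with
  | zero => rw [pow_zero]; exact mk_one
  | succ m ih => rw [pow_succ]; exact ih.mul h

/-- Nonnegative functions that decrease when the set of zero-energy configurations shrinks. -/
structure Cl (g : (Ω → ℕ) → ℝ) : Prop where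
  nonneg : 0 ≤ g
  anti : ∀ H H' : Ω → ℕ, (∀ σ, H' σ = 0 → H σ = 0) → g H' ≤ g H

theorem Cl.add_le {g : (Ω → ℕ) → ℝ} (hg : Cl g) (H : Ω → ℕ) {x y : Ω → ℕ}
    (h : ∀ σ, y σ = 0 → x σ = 0) : g (H + y) ≤ g (H + x) := by
  apply hg.anti
  intro σ hσ
  simp only [Pi.add_apply, Nat.add_eq_zero_iff] at hσ ⊢
  exact ⟨hσ.1, h σ hσ.2⟩

theorem Cl.add_le_self {g : (Ω → ℕ) → ℝ} (hg : Cl g) (H y : Ω → ℕ) : g (H + y) ≤ g H := by
  apply hg.anti
  intro σ hσ
  simp only [Pi.add_apply, Nat.add_eq_zero_iff] at hσ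
  exact hσ.1

theorem Cl.map {g : (Ω → ℕ) → ℝ} (hg : Cl g) {μ : Alg Ω} (h : Pos μ) : Cl (rep μ g) := by
  refine ⟨h g hg.nonneg, fun H H' hH => ?_⟩
  rw [rep_zero_shift μ g H, rep_zero_shift μ g H']
  exact h.mono (fun y => hg.add_le y hH) 0

theorem Cl.sum {ι : Type*} (s : Finset ι) {g : ι → (Ω → ℕ) → ℝ} (hg : ∀ i ∈ s, Cl (g i)) :
    Cl (∑ i ∈ s, g i) := by
  refine ⟨Finset.sum_nonneg fun i hi => (hg i hi).nonneg, fun H H' hH => ?_⟩
  simp only [Finset.sum_apply]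
  exact Finset.sum_le_sum fun i hi => (hg i hi).anti H H' hH

/-- Domination on the class of antitone functions. -/
def Dom (μ ν : Alg Ω) : Prop := ∀ g : (Ω → ℕ) → ℝ, Cl g → rep μ g ≤ rep ν g

theorem Dom.refl (μ : Alg Ω) : Dom μ μ := fun _ _ => le_rfl

theorem Dom.trans {μ ν ξ : Alg Ω} (h : Dom μ ν) (h' : Dom ν ξ) : Dom μ ξ :=
  fun g hg => (h g hg).trans (h' g hg)

theorem Dom.mul {μ ν μ' ν' : Alg Ω} (h : Dom μ ν) (h' : Dom μ' ν') (hμ : Pos μ) (hν : Pos ν') :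
    Dom (μ * μ') (ν * ν') := fun g hg => by
  rw [rep_mul, rep_mul]
  exact (hμ.mono (h' g hg)).trans (h _ (hg.map hν))

theorem Dom.mul_left {μ ν ξ : Alg Ω} (h : Dom μ ν) (hξ : Pos ξ) : Dom (ξ * μ) (ξ * ν) :=
  fun g hg => by
    rw [rep_mul, rep_mul]
    exact hξ.mono (h g hg)

theorem Dom.pow {μ ν : Alg Ω} (h : Dom μ ν) (hμ : Pos μ) (hν : Pos ν) (m : ℕ) :
    Dom (μ ^ m) (ν ^ m) := by
  induction m with
  | zero => rw [pow_zero, pow_zero]; exact Dom.refl _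
  | succ m ih => rw [pow_succ, pow_succ]; exact ih.mul h (hμ.pow m) hν

theorem Dom.pow_anti {μ : Alg Ω} (h : Dom μ 1) (hμ : Pos μ) {a b : ℕ} (hab : a ≤ b) :
    Dom (μ ^ b) (μ ^ a) := by
  obtain ⟨d, rfl⟩ := Nat.exists_eq_add_of_le hab
  have h1 := (h.pow hμ pos_one d).mul_left (hμ.pow a)
  rwa [one_pow, mul_one, ← pow_add] at h1

section Un

variable {L : Type} [Fintype L]

/-- Uniform average of point masses. -/
noncomputable def un (v : L → Ω → ℕ) : Alg Ω := (1 / Fintype.card L : ℝ) • ∑ l, dl (v l)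

theorem rep_un (v : L → Ω → ℕ) (g : (Ω → ℕ) → ℝ) (H : Ω → ℕ) :
    rep (un v) g H = (∑ l, g (H + v l)) / Fintype.card L := by
  rw [un, rep_smul, map_sum, LinearMap.sum_apply, Finset.sum_apply]
  simp only [rep_dl]
  ring

theorem pos_un (v : L → Ω → ℕ) : Pos (un v) := fun g hg H => by
  rw [rep_un]
  exact div_nonneg (Finset.sum_nonneg fun l _ => hg _) (Nat.cast_nonneg _)

theorem mk_un [Nonempty L] (v : L → Ω → ℕ) : Mk (un v) := by
  refine ⟨pos_un v, ?_⟩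
  ext H
  have : (0 : ℝ) < Fintype.card L := by exact_mod_cast Fintype.card_pos
  rw [rep_un]
  simp only [Pi.one_apply, sum_const, card_univ, nsmul_eq_mul, mul_one]
  field_simp

theorem dom_un_one [Nonempty L] (v : L → Ω → ℕ) : Dom (un v) 1 := fun g hg H => by
  have : (0 : ℝ) < Fintype.card L := by exact_mod_cast Fintype.card_pos
  rw [rep_un, rep_one, div_le_iff₀ this]
  calc ∑ l, g (H + v l) ≤ ∑ _l : L, g H := Finset.sum_le_sum fun l _ => hg.add_le_self H _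
    _ = _ := by simp [mul_comm]

/-- Adding a clause made of k independent uniform literals of the family. -/
noncomputable def U (k : ℕ) (v : L → Ω → ℕ) : Alg Ω := un fun x : Fin k → L => ∏ i, v (x i)

theorem rep_U (k : ℕ) (v : L → Ω → ℕ) (g : (Ω → ℕ) → ℝ) (H : Ω → ℕ) :
    rep (U k v) g H = (∑ x : Fin k → L, g (H + ∏ i, v (x i))) / (Fintype.card L : ℝ) ^ k := by
  rw [U, rep_un]
  simp

theorem pos_U (k : ℕ) (v : L → Ω → ℕ) : Pos (U k v) := pos_un _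

theorem mk_U [Nonempty L] (k : ℕ) (v : L → Ω → ℕ) : Mk (U k v) := mk_un _

theorem dom_U_one [Nonempty L] (k : ℕ) (v : L → Ω → ℕ) : Dom (U k v) 1 := dom_un_one _

theorem sum_tuple_succ (k : ℕ) (v : L → Ω → ℕ) (h : (Ω → ℕ) → ℝ) :
    ∑ x : Fin (k + 1) → L, h (∏ i, v (x i)) = ∑ a, ∑ y : Fin k → L, h (v a * ∏ i, v (y i)) := by
  rw [← (Fin.consEquiv (fun _ : Fin (k + 1) => L)).sum_comp, Fintype.sum_prod_type]
  refine Finset.sum_congr rfl fun a _ => Finset.sum_congr rfl fun y _ => ?_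
  rw [Fin.prod_univ_succ]
  simp [Fin.consEquiv]

theorem sum_tuple_one (v : L → Ω → ℕ) (h : (Ω → ℕ) → ℝ) :
    ∑ x : Fin 1 → L, h (∏ i, v (x i)) = ∑ a, h (v a) := by
  rw [sum_tuple_succ]; simp

theorem sum_tuple_two (v : L → Ω → ℕ) (h : (Ω → ℕ) → ℝ) :
    ∑ x : Fin 2 → L, h (∏ i, v (x i)) = ∑ a, ∑ b, h (v a * v b) := by
  rw [sum_tuple_succ]
  exact Finset.sum_congr rfl fun a _ => sum_tuple_one v fun y => h (v a * y)

theorem sum_tuple_three (v : L → Ω → ℕ) (h : (Ω → ℕ) → ℝ) :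
    ∑ x : Fin 3 → L, h (∏ i, v (x i)) = ∑ a, ∑ b, ∑ c, h (v a * (v b * v c)) := by
  rw [sum_tuple_succ]
  exact Finset.sum_congr rfl fun a _ => sum_tuple_two v fun y => h (v a * y)

theorem dom_U_succ [Nonempty L] (k : ℕ) (v : L → Ω → ℕ) : Dom (U k v) (U (k + 1) v) := by
  intro g hg H
  have : (0 : ℝ) < Fintype.card L := by exact_mod_cast Fintype.card_pos
  rw [rep_U, rep_U, sum_tuple_succ k v fun y => g (H + y), div_le_div_iff₀ (by positivity)
    (by positivity)]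
  have h1 : ∑ _a : L, ∑ y : Fin k → L, g (H + ∏ i, v (y i)) ≤
      ∑ a, ∑ y : Fin k → L, g (H + v a * ∏ i, v (y i)) :=
    Finset.sum_le_sum fun a _ => Finset.sum_le_sum fun y _ => hg.add_le H fun σ hσ => by
      rw [Pi.mul_apply, hσ, mul_zero]
  rw [sum_const, card_univ, nsmul_eq_mul] at h1
  calc _ = (Fintype.card L * ∑ y : Fin k → L, g (H + ∏ i, v (y i))) * (Fintype.card L : ℝ) ^ k := by
        ring
    _ ≤ _ := by gcongr

/-- Indicator that the state has a zero-energy configuration. -/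
noncomputable def phi (H : Ω → ℕ) : ℝ := ind (∃ σ, H σ = 0)

theorem cl_phi : Cl (phi : (Ω → ℕ) → ℝ) := by
  refine ⟨fun H => ind_nonneg _, fun H H' h => ?_⟩
  by_cases h1 : ∃ σ, H' σ = 0
  · obtain ⟨σ, hσ⟩ := h1
    rw [phi, phi, ind_pos ⟨σ, hσ⟩, ind_pos ⟨σ, h σ hσ⟩]
  · rw [phi, ind_neg h1]; exact ind_nonneg _

theorem phi_le_one : (phi : (Ω → ℕ) → ℝ) ≤ 1 := fun H => ind_le_one _

/-- Fraction of literals of the family that are false at every zero-energy configuration. -/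
noncomputable def bet (v : L → Ω → ℕ) (H : Ω → ℕ) : ℝ :=
  (∑ l, ind (∀ σ, H σ = 0 → v l σ ≠ 0)) / Fintype.card L

theorem bet_nonneg (v : L → Ω → ℕ) (H : Ω → ℕ) : 0 ≤ bet v H :=
  div_nonneg (Finset.sum_nonneg fun _ _ => ind_nonneg _) (Nat.cast_nonneg _)

theorem bet_le_one [Nonempty L] (v : L → Ω → ℕ) (H : Ω → ℕ) : bet v H ≤ 1 := by
  have : (0 : ℝ) < Fintype.card L := by exact_mod_cast Fintype.card_pos
  rw [bet, div_le_one this]
  calc _ ≤ ∑ _l : L, (1 : ℝ) := Finset.sum_le_sum fun _ _ => ind_le_one _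
    _ = _ := by simp

theorem phi_add_prod {k : ℕ} (H : Ω → ℕ) (w : Fin k → Ω → ℕ) :
    phi (H + ∏ i, w i) = phi H - phi H * ∏ i, ind (∀ σ, H σ = 0 → w i σ ≠ 0) := by
  by_cases h : ∃ σ, H σ = 0
  · rw [phi, phi, ind_pos h, one_mul]
    by_cases h2 : ∀ i, ∀ σ, H σ = 0 → w i σ ≠ 0
    · rw [Finset.prod_congr rfl fun i _ => ind_pos (h2 i), ind_neg]
      · simp
      · rintro ⟨σ, hσ⟩
        simp only [Pi.add_apply, Finset.prod_apply, Nat.add_eq_zero_iff,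
          Finset.prod_eq_zero_iff] at hσ
        obtain ⟨h3, i, _, h4⟩ := hσ
        exact h2 i σ h3 h4
    · push Not at h2
      obtain ⟨i, σ, h3, h4⟩ := h2
      have h5 : ∏ i, ind (∀ σ, H σ = 0 → w i σ ≠ 0) = 0 :=
        Finset.prod_eq_zero (Finset.mem_univ i) (ind_neg fun h5 => h5 σ h3 h4)
      rw [h5, ind_pos]
      · simp
      · refine ⟨σ, ?_⟩
        simp only [Pi.add_apply, Finset.prod_apply, Nat.add_eq_zero_iff,
          Finset.prod_eq_zero_iff]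
        exact ⟨h3, i, Finset.mem_univ _, h4⟩
  · have h1 : phi H = 0 := ind_neg h
    have h2 := cl_phi.add_le_self H (∏ i, w i)
    have h3 := cl_phi.nonneg (H + ∏ i, w i)
    simp only [Pi.zero_apply] at h3
    rw [h1] at h2 ⊢
    linarith

/-- The probability that a new clause destroys satisfiability. -/
theorem rep_U_phi [Nonempty L] (k : ℕ) (v : L → Ω → ℕ) (H : Ω → ℕ) :
    rep (U k v) phi H = phi H - phi H * bet v H ^ k := by
  have : (0 : ℝ) < Fintype.card L := by exact_mod_cast Fintype.card_pos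
  rw [rep_U]
  simp only [phi_add_prod]
  rw [Finset.sum_sub_distrib, ← Finset.mul_sum, bet, div_pow,
    Fintype.sum_pow (fun l => ind (∀ σ, H σ = 0 → v l σ ≠ 0)) k]
  simp only [sum_const, card_univ, nsmul_eq_mul, Fintype.card_fun, Fintype.card_fin]
  push_cast
  field_simp

end Un

section Map

variable {Ω' : Type}

/-- Pulling a state back along a map of configurations. -/
def pb (ε : Ω' → Ω) : (Ω → ℕ) →+ (Ω' → ℕ) where
  toFun H := H ∘ ε
  map_zero' := rfl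
  map_add' _ _ := rfl

/-- Pushing measures forward along the pull-back of states. -/
noncomputable def mp (ε : Ω' → Ω) : Alg Ω →ₐ[ℝ] Alg Ω' :=
  AddMonoidAlgebra.mapDomainAlgHom ℝ ℝ (pb ε)

theorem mp_single (ε : Ω' → Ω) (x : Ω → ℕ) (r : ℝ) :
    mp ε (AddMonoidAlgebra.single x r) = AddMonoidAlgebra.single (x ∘ ε) r := by
  simp [mp, pb]

theorem rep_mp (ε : Ω' → Ω) (μ : Alg Ω) (g : (Ω' → ℕ) → ℝ) (H : Ω → ℕ) :
    rep μ (fun y => g (y ∘ ε)) H = rep (mp ε μ) g (H ∘ ε) := by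
  induction μ using AddMonoidAlgebra.induction_linear with
  | zero => simp
  | add x y hx hy => rw [map_add (mp ε), rep_add, rep_add, hx, hy]
  | single m r => rw [mp_single, rep_single, rep_single]; rfl

theorem mp_U {L : Type} [Fintype L] (ε : Ω' → Ω) (k : ℕ) (v : L → Ω → ℕ) :
    mp ε (U k v) = U k fun l => v l ∘ ε := by
  rw [U, U, un, un, map_smul, map_sum]
  congr 1
  refine Finset.sum_congr rfl fun x _ => ?_
  rw [dl, dl, mp_single]
  congr 1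
  ext σ
  simp

theorem phi_comp_le (ε : Ω' → Ω) (H : Ω → ℕ) : phi (H ∘ ε) ≤ phi H := by
  by_cases h : ∃ σ, (H ∘ ε) σ = 0
  · obtain ⟨σ, hσ⟩ := h
    rw [phi, phi, ind_pos ⟨σ, hσ⟩, ind_pos ⟨ε σ, hσ⟩]
  · rw [phi, ind_neg h]; exact ind_nonneg _

theorem phi_comp {ε : Ω' → Ω} (hε : Function.Surjective ε) (H : Ω → ℕ) :
    phi (H ∘ ε) = phi H := by
  rw [phi, phi]
  congr 1
  apply propext
  constructor
  · rintro ⟨σ, hσ⟩; exact ⟨ε σ, hσ⟩
  · rintro ⟨σ, hσ⟩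
    obtain ⟨τ, rfl⟩ := hε σ
    exact ⟨τ, hσ⟩

end Map

section Op

variable {L : Type} [Fintype L] [Nonempty L]

/-- j unit clauses, a clauses of length two and b clauses of length three. -/
noncomputable def Op (v : L → Ω → ℕ) (j a b : ℕ) : Alg Ω := U 1 v ^ j * U 2 v ^ a * U 3 v ^ b

theorem mk_Op (v : L → Ω → ℕ) (j a b : ℕ) : Mk (Op v j a b) :=
  (((mk_U 1 v).pow j).mul ((mk_U 2 v).pow a)).mul ((mk_U 3 v).pow b)

theorem Op_mul (v : L → Ω → ℕ) (j a b j' a' b' : ℕ) :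
    Op v j a b * Op v j' a' b' = Op v (j + j') (a + a') (b + b') := by
  simp only [Op, pow_add]; ring

theorem dom_Op (v : L → Ω → ℕ) {j a b j' a' b' : ℕ} (hj : j ≤ j') (ha : a ≤ a') (hb : b ≤ b') :
    Dom (Op v j' a' b') (Op v j a b) :=
  (((dom_U_one 1 v).pow_anti (pos_U 1 v) hj).mul ((dom_U_one 2 v).pow_anti (pos_U 2 v) ha)
    ((pos_U 1 v).pow _) ((pos_U 2 v).pow _)).mul ((dom_U_one 3 v).pow_anti (pos_U 3 v) hb)
    (((pos_U 1 v).pow _).mul ((pos_U 2 v).pow _)) ((pos_U 3 v).pow _)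

theorem mp_Op {Ω' : Type} (ε : Ω' → Ω) (v : L → Ω → ℕ) (j a b : ℕ) :
    mp ε (Op v j a b) = Op (fun l => v l ∘ ε) j a b := by
  simp only [Op, map_mul, map_pow, mp_U]

/-- Satisfiability probability for the family. -/
noncomputable def Gv (v : L → Ω → ℕ) (j a b : ℕ) : ℝ := rep (Op v j a b) phi 0

theorem Gv_nonneg (v : L → Ω → ℕ) (j a b : ℕ) : 0 ≤ Gv v j a b :=
  (mk_Op v j a b).pos _ cl_phi.nonneg 0

theorem Gv_le_one (v : L → Ω → ℕ) (j a b : ℕ) : Gv v j a b ≤ 1 :=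
  (mk_Op v j a b).le_one phi_le_one 0

theorem Gv_anti (v : L → Ω → ℕ) {j a b j' a' b' : ℕ} (hj : j ≤ j') (ha : a ≤ a') (hb : b ≤ b') :
    Gv v j' a' b' ≤ Gv v j a b := dom_Op v hj ha hb _ cl_phi 0

theorem Gv_comp_le {Ω' : Type} (ε : Ω' → Ω) (v : L → Ω → ℕ) (j a b : ℕ) :
    Gv (fun l => v l ∘ ε) j a b ≤ Gv v j a b := by
  rw [Gv, Gv, ← mp_Op]
  exact (rep_mp ε _ phi 0).symm.le.trans ((mk_Op v j a b).pos.mono (phi_comp_le ε) 0)

theorem Gv_comp {Ω' : Type} {ε : Ω' → Ω} (hε : Function.Surjective ε) (v : L → Ω → ℕ)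
    (j a b : ℕ) : Gv (fun l => v l ∘ ε) j a b = Gv v j a b := by
  rw [Gv, Gv, ← mp_Op]
  refine (rep_mp ε _ phi 0).symm.trans ?_
  simp only [phi_comp hε]

end Op

end Pool.Agent.Lib.MP_4fe7bc_pr.Thr
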