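import Pool.Agent.Lib.MP_4fe7bc_pr.T1

set_option autoImplicit false
set_option linter.unusedSectionVars false
set_option linter.unusedVariables false

open Finset

namespace Pool.Agent.Lib.MP_4fe7bc_pr.Thr

variable {Ω : Type}

/-- Evaluation of the action at a fixed function and state. -/
noncomputable def ev (ψ : (Ω → ℕ) → ℝ) (H : Ω → ℕ) : Alg Ω →ₗ[ℝ] ℝ where
  toFun μ := rep μ ψ H
  map_add' μ ν := rep_add μ ν ψ H
  map_smul' r μ := rep_smul r μ ψ H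

theorem ev_apply (ψ : (Ω → ℕ) → ℝ) (H : Ω → ℕ) (μ : Alg Ω) : ev ψ H μ = rep μ ψ H := rfl

theorem geo (Λ : Alg Ω →ₗ[ℝ] ℝ) (S : Alg Ω) {α q : ℝ} (hα : 0 ≤ α) (hq : 0 ≤ q) (Γ z : ℝ)
    (N : ℕ) (T : Alg Ω) (B : ℝ) (h : ∀ x : ℕ, Γ - B * z ^ x ≤ Λ (T * S ^ x)) :
    (α + q) ^ N * Γ - B * (α + q * z) ^ N ≤ Λ (T * (α • 1 + q • S) ^ N) := by
  induction N generalizing T B with
  | zero => simpa using h 0
  | succ N ih =>
    have e : T * (α • 1 + q • S) ^ (N + 1) =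
        α • (T * (α • 1 + q • S) ^ N) + q • (T * S * (α • 1 + q • S) ^ N) := by
      rw [pow_succ]
      generalize (α • 1 + q • S) ^ N = W
      simp only [Algebra.smul_def]
      ring
    have h1 := ih T B h
    have h2 := ih (T * S) (B * z) fun x => by
      have := h (x + 1)
      rw [pow_succ', pow_succ', ← mul_assoc, ← mul_assoc] at this
      exact this
    rw [e, map_add, map_smul, map_smul, smul_eq_mul, smul_eq_mul]
    have h3 := mul_le_mul_of_nonneg_left h1 hα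
    have h4 := mul_le_mul_of_nonneg_left h2 hq
    rw [pow_succ, pow_succ]
    nlinarith

theorem quad (Λ : Alg Ω →ₗ[ℝ] ℝ) (S1 S2 : Alg Ω) {q : ℝ} (h0 : 0 ≤ q) (h1 : q ≤ 1) (Γ c : ℝ)
    (N : ℕ) (T : Alg Ω) (m1 m2 : ℝ)
    (h : ∀ x y : ℕ, Γ - c * ((x - m1) ^ 2 + (y - m2) ^ 2) ≤ Λ (T * S1 ^ x * S2 ^ y)) :
    Γ - c * ((q * N - m1) ^ 2 + ((1 - q) * N - m2) ^ 2 + 2 * N * (q * (1 - q))) ≤
      Λ (T * (q • S1 + (1 - q) • S2) ^ N) := by
  induction N generalizing T m1 m2 with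
  | zero => simpa using h 0 0
  | succ N ih =>
    have e : T * (q • S1 + (1 - q) • S2) ^ (N + 1) =
        q • (T * S1 * (q • S1 + (1 - q) • S2) ^ N) +
          (1 - q) • (T * S2 * (q • S1 + (1 - q) • S2) ^ N) := by
      rw [pow_succ]
      generalize (q • S1 + (1 - q) • S2) ^ N = W
      simp only [Algebra.smul_def]
      ring
    have h2 := ih (T * S1) (m1 - 1) m2 fun x y => by
      have := h (x + 1) y
      rw [show T * S1 ^ (x + 1) * S2 ^ y = T * S1 * S1 ^ x * S2 ^ y by ring] at this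
      push_cast at this
      convert this using 4
      ring
    have h3 := ih (T * S2) m1 (m2 - 1) fun x y => by
      have := h x (y + 1)
      rw [show T * S1 ^ x * S2 ^ (y + 1) = T * S2 * S1 ^ x * S2 ^ y by ring] at this
      push_cast at this
      convert this using 4
      ring
    rw [e, map_add, map_smul, map_smul, smul_eq_mul, smul_eq_mul]
    have h4 := mul_le_mul_of_nonneg_left h2 h0
    have h5 := mul_le_mul_of_nonneg_left h3 (sub_nonneg.2 h1)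
    push_cast
    refine le_trans (le_of_eq ?_) (add_le_add h4 h5)
    ring

theorem Mk.mix {μ ν : Alg Ω} (h : Mk μ) (h' : Mk ν) {q : ℝ} (h0 : 0 ≤ q) (h1 : q ≤ 1) :
    Mk (q • μ + (1 - q) • ν) := by
  refine ⟨(h.pos.smul h0).add (h'.pos.smul (sub_nonneg.2 h1)), ?_⟩
  ext H
  rw [rep_add, rep_smul, rep_smul, h.one, h'.one]
  simp

theorem Mk.lz {μ : Alg Ω} (h : Mk μ) {q : ℝ} (h0 : 0 ≤ q) (h1 : q ≤ 1) :
    Mk ((1 - q) • 1 + q • μ) := by
  rw [add_comm]; exact h.mix mk_one h0 h1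

theorem tail_geo {T S : Alg Ω} (hT : Mk T) (hS : Mk S) (hS1 : Dom S 1) {ψ : (Ω → ℕ) → ℝ}
    (hψ : Cl ψ) (hψ1 : ψ ≤ 1) {q : ℝ} (h0 : 0 ≤ q) (h1 : q ≤ 1) (a s : ℕ) (H : Ω → ℕ) :
    rep (T * ((1 - q) • 1 + q • S) ^ (a + s)) ψ H ≤
      rep (T * S ^ a) ψ H + (2 - q) ^ (a + s) / 2 ^ s := by
  have h2 := geo (-ev ψ H) S (sub_nonneg.2 h1) h0 (-rep (T * S ^ a) ψ H) (1 / 2) (a + s) T
    (2 ^ a) fun x => by
      rw [LinearMap.neg_apply, ev_apply]
      rcases le_total a x with hx | hx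
      · have h3 := ((hS1.pow_anti hS.pos hx).mul_left hT.pos) ψ hψ H
        have : (0 : ℝ) ≤ 2 ^ a * (1 / 2) ^ x := by positivity
        linarith
      · have h3 := (hT.mul (hS.pow x)).le_one hψ1 H
        have h4 := (hT.mul (hS.pow a)).pos ψ hψ.nonneg H
        obtain ⟨d, rfl⟩ := Nat.exists_eq_add_of_le hx
        have h5 : (2 : ℝ) ^ (x + d) * (1 / 2) ^ x = 2 ^ d := by
          rw [pow_add, one_div_pow]; field_simp
        have h6 : (1 : ℝ) ≤ 2 ^ d := one_le_pow₀ (by norm_num)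
        simp only [Pi.one_apply, Pi.zero_apply] at h3 h4
        linarith
  rw [LinearMap.neg_apply, ev_apply] at h2
  have h7 : (2 : ℝ) ^ a * (1 - q + q * (1 / 2)) ^ (a + s) = (2 - q) ^ (a + s) / 2 ^ s := by
    rw [show 1 - q + q * (1 / 2) = (2 - q) / 2 by ring, div_pow, pow_add (2 : ℝ)]
    field_simp
  rw [h7, sub_add_cancel, one_pow] at h2
  linarith

theorem tail_quad {T S1 S2 : Alg Ω} (hT : Mk T) (hS1 : Mk S1) (hS2 : Mk S2) (hd1 : Dom S1 1)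
    (hd2 : Dom S2 1) {ψ : (Ω → ℕ) → ℝ} (hψ : Cl ψ) (hψ1 : ψ ≤ 1) {q : ℝ} (h0 : 0 ≤ q)
    (h1 : q ≤ 1) {D : ℝ} (hD : 0 < D) {N a1 a2 : ℕ} (ha1 : q * N + D ≤ a1)
    (ha2 : (1 - q) * N + D ≤ a2) (H : Ω → ℕ) :
    rep (T * S1 ^ a1 * S2 ^ a2) ψ H - N / (2 * D ^ 2) ≤
      rep (T * (q • S1 + (1 - q) • S2) ^ N) ψ H := by
  have h2 := quad (ev ψ H) S1 S2 h0 h1 (rep (T * S1 ^ a1 * S2 ^ a2) ψ H) (1 / D ^ 2) N T
    (q * N) ((1 - q) * N) fun x y => by
      rw [ev_apply]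
      have h3 := ((hT.mul (hS1.pow a1)).mul (hS2.pow a2)).le_one hψ1 H
      have h4 := ((hT.mul (hS1.pow x)).mul (hS2.pow y)).pos ψ hψ.nonneg H
      simp only [Pi.one_apply, Pi.zero_apply] at h3 h4
      have key : ∀ u w : ℝ, D ≤ u → 1 ≤ 1 / D ^ 2 * (u ^ 2 + w ^ 2) := by
        intro u w hu
        rw [one_div, inv_mul_eq_div, le_div_iff₀ (by positivity)]
        nlinarith [sq_nonneg w]
      by_cases hx : x ≤ a1
      · by_cases hy : y ≤ a2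
        · have h5 := (((hd1.pow_anti hS1.pos hx).mul_left hT.pos).mul (hd2.pow_anti hS2.pos hy)
            (hT.pos.mul (hS1.pos.pow _)) (hS2.pos.pow _)) ψ hψ H
          have : 0 ≤ 1 / D ^ 2 * (((x : ℝ) - q * N) ^ 2 + ((y : ℝ) - (1 - q) * N) ^ 2) := by
            positivity
          linarith
        · have h5 : (a2 : ℝ) ≤ y := by exact_mod_cast (not_le.1 hy).le
          have := key ((y : ℝ) - (1 - q) * N) ((x : ℝ) - q * N) (by linarith)
          rw [add_comm] at this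
          linarith
      · have h5 : (a1 : ℝ) ≤ x := by exact_mod_cast (not_le.1 hx).le
        have := key ((x : ℝ) - q * N) ((y : ℝ) - (1 - q) * N) (by linarith)
        linarith
  rw [ev_apply] at h2
  refine le_trans ?_ h2
  have h3 : 1 / D ^ 2 * ((q * N - q * N) ^ 2 + ((1 - q) * N - (1 - q) * N) ^ 2
      + 2 * N * (q * (1 - q))) ≤ N / (2 * D ^ 2) := by
    have h4 : 2 * N * (q * (1 - q)) ≤ N / 2 := by
      have : q * (1 - q) ≤ 1 / 4 := by nlinarith [sq_nonneg (q - 1 / 2)]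
      have hN : (0 : ℝ) ≤ N := Nat.cast_nonneg _
      nlinarith
    calc _ = (2 * N * (q * (1 - q))) / D ^ 2 := by ring
      _ ≤ (N / 2) / D ^ 2 := by gcongr
      _ = _ := by ring
  linarith

/-- Domination on all nonnegative functions. -/
def DomP (μ ν : Alg Ω) : Prop := ∀ g : (Ω → ℕ) → ℝ, 0 ≤ g → rep μ g ≤ rep ν g

theorem DomP.mul {μ ν μ' ν' : Alg Ω} (h : DomP μ ν) (h' : DomP μ' ν') (hμ : Pos μ)
    (hν : Pos ν') : DomP (μ * μ') (ν * ν') := fun g hg => by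
  rw [rep_mul, rep_mul]
  exact (hμ.mono (h' g hg)).trans (h _ (hν g hg))

theorem DomP.pow {μ ν : Alg Ω} (h : DomP μ ν) (hμ : Pos μ) (hν : Pos ν) (m : ℕ) :
    DomP (μ ^ m) (ν ^ m) := by
  induction m with
  | zero => rw [pow_zero, pow_zero]; exact fun _ _ => le_rfl
  | succ m ih => rw [pow_succ, pow_succ]; exact ih.mul h (hμ.pow m) hν

section Sub

variable {L L' : Type} [Fintype L] [Fintype L']

/-- The first family is contained, with multiplicity, in the second. -/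
def Sub (v' : L' → Ω → ℕ) (v : L → Ω → ℕ) : Prop :=
  ∀ h : (Ω → ℕ) → ℝ, 0 ≤ h → ∑ l, h (v' l) ≤ ∑ l, h (v l)

theorem Sub.tuple {v' : L' → Ω → ℕ} {v : L → Ω → ℕ} (hs : Sub v' v) (k : ℕ) :
    Sub (fun x : Fin k → L' => ∏ i, v' (x i)) (fun x : Fin k → L => ∏ i, v (x i)) := by
  induction k with
  | zero => intro h _; simp
  | succ k ih =>
    intro h hh
    rw [sum_tuple_succ, sum_tuple_succ]
    calc _ ≤ ∑ a, ∑ y : Fin k → L, h (v' a * ∏ i, v (y i)) :=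
          Finset.sum_le_sum fun a _ => ih (fun z => h (v' a * z)) fun z => hh (v' a * z)
      _ ≤ _ := hs (fun z => ∑ y : Fin k → L, h (z * ∏ i, v (y i))) fun z =>
          Finset.sum_nonneg fun y _ => hh _

theorem Sub.card_le {v' : L' → Ω → ℕ} {v : L → Ω → ℕ} (hs : Sub v' v) :
    (Fintype.card L' : ℝ) ≤ Fintype.card L := by
  simpa using hs (fun _ => 1) fun _ => zero_le_one

variable [Nonempty L] [Nonempty L']

theorem Sub.lower {v' : L' → Ω → ℕ} {v : L → Ω → ℕ} (hs : Sub v' v) (k : ℕ) :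
    DomP ((((Fintype.card L' : ℝ) / Fintype.card L) ^ k) • U k v') (U k v) := by
  intro g hg H
  have h1 : (0 : ℝ) < Fintype.card L := by exact_mod_cast Fintype.card_pos
  have h2 : (0 : ℝ) < Fintype.card L' := by exact_mod_cast Fintype.card_pos
  have h3 := hs.tuple k (fun z => g (H + z)) fun z => hg (H + z)
  rw [rep_smul, rep_U, rep_U]
  calc _ = (∑ x : Fin k → L', g (H + ∏ i, v' (x i))) / (Fintype.card L : ℝ) ^ k := by
        rw [div_pow]; field_simp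
    _ ≤ _ := by gcongr

theorem Sub.upper {v' : L' → Ω → ℕ} {v : L → Ω → ℕ} (hs : Sub v' v) (k : ℕ) :
    Dom (U k v) ((1 - ((Fintype.card L' : ℝ) / Fintype.card L) ^ k) • 1 +
      (((Fintype.card L' : ℝ) / Fintype.card L) ^ k) • U k v') := by
  intro g hg H
  have h1 : (0 : ℝ) < Fintype.card L := by exact_mod_cast Fintype.card_pos
  have h2 : (0 : ℝ) < Fintype.card L' := by exact_mod_cast Fintype.card_pos
  have h3 := hs.tuple k (fun z => g H - g (H + z)) fun z => sub_nonneg.2 (hg.add_le_self H z)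
  simp only [Finset.sum_sub_distrib, sum_const, card_univ, nsmul_eq_mul, Fintype.card_fun,
    Fintype.card_fin] at h3
  push_cast at h3
  rw [rep_add, rep_smul, rep_smul, rep_one, rep_U, rep_U, div_le_iff₀ (by positivity), div_pow]
  refine le_trans (by linarith : _ ≤ (Fintype.card L : ℝ) ^ k * g H -
    (Fintype.card L' : ℝ) ^ k * g H + ∑ x : Fin k → L', g (H + ∏ i, v' (x i))) (le_of_eq ?_)
  field_simp

theorem Sub.Gv_lower {v' : L' → Ω → ℕ} {v : L → Ω → ℕ} (hs : Sub v' v) (a b : ℕ) :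
    ((Fintype.card L' : ℝ) / Fintype.card L) ^ (3 * (a + b)) * Gv v' 0 a b ≤ Gv v 0 a b := by
  have h1 : (0 : ℝ) < Fintype.card L := by exact_mod_cast Fintype.card_pos
  set κ : ℝ := (Fintype.card L' : ℝ) / Fintype.card L with hκ
  have h0 : 0 ≤ κ := by positivity
  have hκ1 : κ ≤ 1 := by rw [hκ, div_le_one h1]; exact hs.card_le
  have p2 := (pos_U 2 v').smul (pow_nonneg h0 2)
  have p3 := (pos_U 3 v').smul (pow_nonneg h0 3)
  have h2 := (((hs.lower 2).pow p2 (pos_U 2 v) a).mul ((hs.lower 3).pow p3 (pos_U 3 v) b)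
    (p2.pow a) ((pos_U 3 v).pow b)) phi cl_phi.nonneg 0
  rw [smul_pow, smul_pow, smul_mul_smul_comm, rep_smul, ← hκ] at h2
  have e1 : Gv v' 0 a b = rep (U 2 v' ^ a * U 3 v' ^ b) phi 0 := by simp [Gv, Op]
  have e2 : Gv v 0 a b = rep (U 2 v ^ a * U 3 v ^ b) phi 0 := by simp [Gv, Op]
  rw [← e1, ← e2] at h2
  refine le_trans (mul_le_mul_of_nonneg_right ?_ (Gv_nonneg _ _ _ _)) h2
  rw [← pow_mul, ← pow_mul, ← pow_add]
  exact pow_le_pow_of_le_one h0 hκ1 (by omega)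

theorem Sub.Gv_upper {v' : L' → Ω → ℕ} {v : L → Ω → ℕ} (hs : Sub v' v) (a b s s' : ℕ) :
    Gv v 0 (a + s) (b + s') ≤ Gv v' 0 a b
      + (2 - ((Fintype.card L' : ℝ) / Fintype.card L) ^ 2) ^ (a + s) / 2 ^ s
      + (2 - ((Fintype.card L' : ℝ) / Fintype.card L) ^ 3) ^ (b + s') / 2 ^ s' := by
  have h1 : (0 : ℝ) < Fintype.card L := by exact_mod_cast Fintype.card_pos
  set κ : ℝ := (Fintype.card L' : ℝ) / Fintype.card L with hκ
  have h0 : 0 ≤ κ := by positivity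
  have hκ1 : κ ≤ 1 := by rw [hκ, div_le_one h1]; exact hs.card_le
  have m2 := (mk_U 2 v').lz (pow_nonneg h0 2) (pow_le_one₀ h0 hκ1)
  have m3 := (mk_U 3 v').lz (pow_nonneg h0 3) (pow_le_one₀ h0 hκ1)
  have h2 := (((hs.upper 2).pow (pos_U 2 v) m2.pos (a + s)).mul
    ((hs.upper 3).pow (pos_U 3 v) m3.pos (b + s')) ((pos_U 2 v).pow _) (m3.pos.pow _))
    phi cl_phi 0
  rw [← hκ] at h2
  have h3 := tail_geo (m2.pow (a + s)) (mk_U 3 v') (dom_U_one 3 v') cl_phi phi_le_one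
    (pow_nonneg h0 3) (pow_le_one₀ h0 hκ1) b s' 0
  have h4 := tail_geo ((mk_U 3 v').pow b) (mk_U 2 v') (dom_U_one 2 v') cl_phi phi_le_one
    (pow_nonneg h0 2) (pow_le_one₀ h0 hκ1) a s 0
  rw [mul_comm (U 3 v' ^ b), mul_comm (U 3 v' ^ b)] at h4
  have e1 : Gv v' 0 a b = rep (U 2 v' ^ a * U 3 v' ^ b) phi 0 := by simp [Gv, Op]
  have e2 : Gv v 0 (a + s) (b + s') = rep (U 2 v ^ (a + s) * U 3 v ^ (b + s')) phi 0 := by
    simp [Gv, Op]
  rw [e1, e2]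
  linarith

end Sub

section Split

variable {L L1 L2 : Type} [Fintype L] [Fintype L1] [Fintype L2] [Nonempty L] [Nonempty L1]
  [Nonempty L2]

/-- The first family is the disjoint union of the other two. -/
def Split (v : L → Ω → ℕ) (v1 : L1 → Ω → ℕ) (v2 : L2 → Ω → ℕ) : Prop :=
  ∀ h : (Ω → ℕ) → ℝ, ∑ l, h (v l) = ∑ l, h (v1 l) + ∑ l, h (v2 l)

theorem Split.sub {v : L → Ω → ℕ} {v1 : L1 → Ω → ℕ} {v2 : L2 → Ω → ℕ} (hs : Split v v1 v2) :
    Sub v1 v := fun h hh => by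
  rw [hs h]
  exact le_add_of_nonneg_right (Finset.sum_nonneg fun l _ => hh _)

theorem Split.step {v : L → Ω → ℕ} {v1 : L1 → Ω → ℕ} {v2 : L2 → Ω → ℕ} (hs : Split v v1 v2)
    (k : ℕ) : rep (((Fintype.card L1 : ℝ) / Fintype.card L) • U k v1 +
      (1 - (Fintype.card L1 : ℝ) / Fintype.card L) • U k v2) phi ≤ rep (U k v) phi := by
  intro H
  have h1 : (0 : ℝ) < Fintype.card L := by exact_mod_cast Fintype.card_pos
  have h2 : (0 : ℝ) < Fintype.card L1 := by exact_mod_cast Fintype.card_pos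
  have h3 : (0 : ℝ) < Fintype.card L2 := by exact_mod_cast Fintype.card_pos
  have hc : (Fintype.card L : ℝ) = Fintype.card L1 + Fintype.card L2 := by
    simpa using hs fun _ => 1
  set q : ℝ := (Fintype.card L1 : ℝ) / Fintype.card L with hq
  have hq0 : 0 ≤ q := by positivity
  have hq1 : 1 - q = (Fintype.card L2 : ℝ) / Fintype.card L := by
    rw [hq]; field_simp; linarith
  have hq2 : 0 ≤ 1 - q := by rw [hq1]; positivity
  have hb : bet v H = q * bet v1 H + (1 - q) * bet v2 H := by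
    rw [bet, bet, bet, hs fun z => ind (∀ σ, H σ = 0 → z σ ≠ 0), hq1, hq]
    field_simp
  have hcv := (convexOn_pow (𝕜 := ℝ) k).2 (bet_nonneg v1 H) (bet_nonneg v2 H) hq0 hq2 (by ring)
  simp only [smul_eq_mul] at hcv
  rw [rep_add, rep_smul, rep_smul, rep_U_phi, rep_U_phi, rep_U_phi, hb]
  have h4 := mul_le_mul_of_nonneg_left hcv (cl_phi.nonneg H)
  nlinarith

theorem hybrid {μ ν : Alg Ω} (hμ : Pos μ) (hν : Pos ν) {ψ : (Ω → ℕ) → ℝ}
    (h : rep μ ψ ≤ rep ν ψ) (N : ℕ) {T : Alg Ω} (hT : Pos T) :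
    rep (T * μ ^ N) ψ ≤ rep (T * ν ^ N) ψ := by
  induction N generalizing T with
  | zero => simp
  | succ N ih =>
    have h1 := ih (hT.mul hμ)
    rw [show T * μ ^ (N + 1) = T * μ * μ ^ N by ring,
      show T * ν ^ (N + 1) = T * ν ^ N * ν by ring]
    refine h1.trans ?_
    rw [show T * μ * ν ^ N = T * ν ^ N * μ by ring, rep_mul _ μ, rep_mul _ ν]
    exact (hT.mul (hν.pow N)).mono h

theorem prod_lower {Ω1 Ω2 : Type} (ε1 : Ω → Ω1) (ε2 : Ω → Ω2)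
    (hε : ∀ σ1 σ2, ∃ σ, ε1 σ = σ1 ∧ ε2 σ = σ2) {μ1 : Alg Ω1} {μ2 : Alg Ω2} (h1 : Pos μ1)
    (h2 : Pos μ2) : rep μ1 phi 0 * rep μ2 phi 0 ≤ rep (mp ε1 μ1 * mp ε2 μ2) phi 0 := by
  rw [rep_mul]
  refine le_trans ?_ (rep_mp ε1 μ1 _ 0).le
  have h3 : (rep μ2 phi 0) • (phi : (Ω1 → ℕ) → ℝ) ≤
      fun y => rep (mp ε2 μ2) phi (y ∘ ε1) := by
    intro y
    show _ ≤ rep (mp ε2 μ2) phi (y ∘ ε1)
    rw [rep_zero_shift _ _ (y ∘ ε1)]
    refine le_trans ?_ (rep_mp ε2 μ2 _ 0).le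
    have h4 : (phi y) • (phi : (Ω2 → ℕ) → ℝ) ≤ fun x => phi (x ∘ ε2 + y ∘ ε1) := by
      intro x
      simp only [Pi.smul_apply, smul_eq_mul]
      by_cases hy : ∃ σ, y σ = 0
      · by_cases hx : ∃ σ, x σ = 0
        · obtain ⟨σ1, hy⟩ := hy
          obtain ⟨σ2, hx⟩ := hx
          obtain ⟨σ, rfl, rfl⟩ := hε σ1 σ2
          rw [phi, phi, phi, ind_pos ⟨_, hy⟩, ind_pos ⟨_, hx⟩, ind_pos ⟨σ, by simp [hx, hy]⟩]
          simp
        · rw [show phi x = 0 from ind_neg hx, mul_zero]; exact ind_nonneg _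
      · rw [show phi y = 0 from ind_neg hy, zero_mul]; exact ind_nonneg _
    have h5 := h2.mono h4 0
    rw [map_smul] at h5
    simpa [mul_comm] using h5
  have h6 := h1.mono h3 0
  rw [map_smul] at h6
  simpa [mul_comm] using h6

theorem Split.interp {Ω1 Ω2 : Type} (ε1 : Ω → Ω1) (ε2 : Ω → Ω2)
    (hε : ∀ σ1 σ2, ∃ σ, ε1 σ = σ1 ∧ ε2 σ = σ2) {v : L → Ω → ℕ} {w1 : L1 → Ω1 → ℕ}
    {w2 : L2 → Ω2 → ℕ} (hs : Split v (fun l => w1 l ∘ ε1) (fun l => w2 l ∘ ε2)) {q D : ℝ}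
    (hq : q = (Fintype.card L1 : ℝ) / Fintype.card L) (hD : 0 < D) {A B a1 b1 a2 b2 : ℕ}
    (ha1 : q * A + D ≤ a1) (ha2 : (1 - q) * A + D ≤ a2) (hb1 : q * B + D ≤ b1)
    (hb2 : (1 - q) * B + D ≤ b2) :
    Gv w1 0 a1 b1 * Gv w2 0 a2 b2 - (A + B) / (2 * D ^ 2) ≤ Gv v 0 A B := by
  have h1 : (0 : ℝ) < Fintype.card L := by exact_mod_cast Fintype.card_pos
  have h0 : 0 ≤ q := by rw [hq]; positivity
  have hq1 : q ≤ 1 := by rw [hq, div_le_one h1]; exact hs.sub.card_le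
  set v1 : L1 → Ω → ℕ := fun l => w1 l ∘ ε1 with hv1
  set v2 : L2 → Ω → ℕ := fun l => w2 l ∘ ε2 with hv2
  have m2 := (mk_U 2 v1).mix (mk_U 2 v2) h0 hq1
  have m3 := (mk_U 3 v1).mix (mk_U 3 v2) h0 hq1
  have s2 := hs.step 2
  have s3 := hs.step 3
  rw [← hq] at s2 s3
  have e1 := hybrid m3.pos (pos_U 3 v) s3 B ((pos_U 2 v).pow A) 0
  have e2 := hybrid m2.pos (pos_U 2 v) s2 A (m3.pos.pow B) 0
  have e3 := tail_quad (m3.pow B) (mk_U 2 v1) (mk_U 2 v2) (dom_U_one _ _) (dom_U_one _ _) cl_phi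
    phi_le_one h0 hq1 hD ha1 ha2 0
  have e4 := tail_quad (((mk_U 2 v1).pow a1).mul ((mk_U 2 v2).pow a2)) (mk_U 3 v1) (mk_U 3 v2)
    (dom_U_one _ _) (dom_U_one _ _) cl_phi phi_le_one h0 hq1 hD hb1 hb2 0
  have e5 := prod_lower ε1 ε2 hε (mk_Op w1 0 a1 b1).pos (mk_Op w2 0 a2 b2).pos
  rw [mp_Op, mp_Op, ← hv1, ← hv2] at e5
  have f1 : Op v1 0 a1 b1 * Op v2 0 a2 b2 =
      U 2 v1 ^ a1 * U 2 v2 ^ a2 * U 3 v1 ^ b1 * U 3 v2 ^ b2 := by simp only [Op]; ring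
  have f2 : Gv v 0 A B = rep (U 2 v ^ A * U 3 v ^ B) phi 0 := by simp [Gv, Op]
  rw [f1] at e5
  rw [mul_comm _ (U 2 v ^ A)] at e2
  rw [mul_assoc, mul_comm _ (U 2 v1 ^ a1 * U 2 v2 ^ a2)] at e3
  rw [f2, Gv, Gv, add_div]
  linarith

end Split

/-- The indicator that a literal is false. -/
def sv (n : ℕ) (l : Fin n × Bool) (σ : Fin n → Bool) : ℕ := if σ l.1 = l.2 then 0 else 1

/-- Satisfiability probability in the model with independent uniform literals. -/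
noncomputable def G (n j a b : ℕ) : ℝ := Gv (sv n) j a b

theorem split_sv (n1 n2 : ℕ) [NeZero n1] [NeZero n2] : Split (sv (n1 + n2))
    (fun l => sv n1 l ∘ fun σ i => σ (Fin.castAdd n2 i))
    (fun l => sv n2 l ∘ fun σ i => σ (Fin.natAdd n1 i)) := by
  intro h
  rw [Fintype.sum_prod_type, Fintype.sum_prod_type, Fintype.sum_prod_type, Fin.sum_univ_add]
  rfl

theorem sub_sv (n d : ℕ) : Sub (fun l => sv n l ∘ fun σ i => σ (Fin.castAdd d i)) (sv (n + d)) := by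
  intro h hh
  rw [Fintype.sum_prod_type, Fintype.sum_prod_type, Fin.sum_univ_add]
  exact le_add_of_nonneg_right (Finset.sum_nonneg fun _ _ => Finset.sum_nonneg fun _ _ => hh _)

theorem restrict_surj (n d : ℕ) :
    Function.Surjective fun (σ : Fin (n + d) → Bool) (i : Fin n) => σ (Fin.castAdd d i) :=
  fun τ => ⟨Fin.append τ fun _ => true, by ext i; simp⟩

theorem G_interp {n1 n2 : ℕ} (h1 : 0 < n1) (h2 : 0 < n2) {q D : ℝ} (hq : q = n1 / (n1 + n2))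
    (hD : 0 < D) {A B a1 b1 a2 b2 : ℕ}
    (ha1 : q * A + D ≤ a1) (ha2 : (1 - q) * A + D ≤ a2) (hb1 : q * B + D ≤ b1)
    (hb2 : (1 - q) * B + D ≤ b2) :
    G n1 0 a1 b1 * G n2 0 a2 b2 - (A + B) / (2 * D ^ 2) ≤ G (n1 + n2) 0 A B := by
  have : NeZero n1 := ⟨h1.ne'⟩
  have : NeZero n2 := ⟨h2.ne'⟩
  refine Split.interp _ _ (fun σ1 σ2 => ⟨Fin.append σ1 σ2, ?_, ?_⟩) (split_sv n1 n2) ?_ hD ha1 ha2
    hb1 hb2
  · ext i; simp
  · ext i; simp
  · rw [hq]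
    simp only [Fintype.card_prod, Fintype.card_fin, Fintype.card_bool]
    push_cast
    field_simp

theorem G_lower {n0 n : ℕ} (h0 : 0 < n0) (h : n0 ≤ n) (a b : ℕ) :
    ((n0 : ℝ) / n) ^ (3 * (a + b)) * G n0 0 a b ≤ G n 0 a b := by
  obtain ⟨d, rfl⟩ := Nat.exists_eq_add_of_le h
  have : NeZero n0 := ⟨h0.ne'⟩
  have h1 := (sub_sv n0 d).Gv_lower a b
  rw [Gv_comp (restrict_surj n0 d)] at h1
  simp only [Fintype.card_prod, Fintype.card_fin, Fintype.card_bool] at h1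
  rw [show ((n0 * 2 : ℕ) : ℝ) / (((n0 + d) * 2 : ℕ) : ℝ) = (n0 : ℝ) / (n0 + d : ℕ) by
    push_cast; field_simp] at h1
  exact h1

theorem G_upper {n0 n : ℕ} (h0 : 0 < n0) (h : n0 ≤ n) (a b s s' : ℕ) :
    G n 0 (a + s) (b + s') ≤ G n0 0 a b + (2 - ((n0 : ℝ) / n) ^ 2) ^ (a + s) / 2 ^ s
      + (2 - ((n0 : ℝ) / n) ^ 3) ^ (b + s') / 2 ^ s' := by
  obtain ⟨d, rfl⟩ := Nat.exists_eq_add_of_le h
  have : NeZero n0 := ⟨h0.ne'⟩
  have h1 := (sub_sv n0 d).Gv_upper a b s s'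
  rw [Gv_comp (restrict_surj n0 d)] at h1
  simp only [Fintype.card_prod, Fintype.card_fin, Fintype.card_bool] at h1
  rw [show ((n0 * 2 : ℕ) : ℝ) / (((n0 + d) * 2 : ℕ) : ℝ) = (n0 : ℝ) / (n0 + d : ℕ) by
    push_cast; field_simp] at h1
  exact h1

theorem G_nonneg {n : ℕ} (h : 0 < n) (j a b : ℕ) : 0 ≤ G n j a b := by
  have : NeZero n := ⟨h.ne'⟩
  exact Gv_nonneg _ _ _ _

theorem G_le_one {n : ℕ} (h : 0 < n) (j a b : ℕ) : G n j a b ≤ 1 := by
  have : NeZero n := ⟨h.ne'⟩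
  exact Gv_le_one _ _ _ _

theorem G_anti {n : ℕ} (h : 0 < n) {j a b j' a' b' : ℕ} (hj : j ≤ j') (ha : a ≤ a')
    (hb : b ≤ b') : G n j' a' b' ≤ G n j a b := by
  have : NeZero n := ⟨h.ne'⟩
  exact Gv_anti _ hj ha hb

end Pool.Agent.Lib.MP_4fe7bc_pr.Thr
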