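import Pool.Agent.Lib.MP_4fe7bc_pr.T2

set_option autoImplicit false
set_option linter.unusedSectionVars false
set_option linter.unusedVariables false

open Finset

namespace Pool.Agent.Lib.MP_4fe7bc_pr.Thr

variable {Ω : Type}

section Ext

variable {L L0 : Type} [Fintype L] [Fintype L0] [Nonempty L] [Nonempty L0]

/-- The first family is the second one together with one true and one false literal. -/
def Ext (w : L → Ω → ℕ) (v : L0 → Ω → ℕ) : Prop :=
  ∀ h : (Ω → ℕ) → ℝ, ∑ l, h (w l) = ∑ l, h (v l) + h 0 + h 1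

theorem Ext.card {w : L → Ω → ℕ} {v : L0 → Ω → ℕ} (he : Ext w v) :
    (Fintype.card L : ℝ) = Fintype.card L0 + 2 := by
  have := he fun _ => 1
  simp only [sum_const, card_univ, nsmul_eq_mul, mul_one] at this
  linarith

theorem sum_eq_U (k : ℕ) (v : L0 → Ω → ℕ) (g : (Ω → ℕ) → ℝ) (H : Ω → ℕ) :
    ∑ x : Fin k → L0, g (H + ∏ i, v (x i)) = (Fintype.card L0 : ℝ) ^ k * rep (U k v) g H := by
  have : (0 : ℝ) < Fintype.card L0 := by exact_mod_cast Fintype.card_pos
  rw [rep_U]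
  field_simp

theorem Ext.sum_two {w : L → Ω → ℕ} {v : L0 → Ω → ℕ} (he : Ext w v) (h : (Ω → ℕ) → ℝ) :
    ∑ a, ∑ b, h (w a * w b) = ∑ a, ∑ b, h (v a * v b) + 2 * ∑ a, h (v a)
      + (2 * Fintype.card L0 + 3) * h 0 + h 1 := by
  have e : ∀ z, ∑ b, h (z * w b) = ∑ b, h (z * v b) + h 0 + h z := fun z => by
    have := he fun y => h (z * y)
    simpa using this
  simp only [e]
  rw [he fun z => ∑ b, h (z * v b) + h 0 + h z]
  simp only [Finset.sum_add_distrib, zero_mul, one_mul, sum_const, card_univ, nsmul_eq_mul]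
  ring

theorem Ext.sum_three {w : L → Ω → ℕ} {v : L0 → Ω → ℕ} (he : Ext w v) (h : (Ω → ℕ) → ℝ) :
    ∑ a, ∑ b, ∑ c, h (w a * (w b * w c)) = ∑ a, ∑ b, ∑ c, h (v a * (v b * v c))
      + 3 * ∑ a, ∑ b, h (v a * v b) + 3 * ∑ a, h (v a)
      + (3 * (Fintype.card L0 : ℝ) ^ 2 + 9 * Fintype.card L0 + 7) * h 0 + h 1 := by
  have e : ∀ z, ∑ b, ∑ c, h (z * (w b * w c)) = ∑ b, ∑ c, h (z * (v b * v c))
      + 2 * ∑ b, h (z * v b) + (2 * Fintype.card L0 + 3) * h 0 + h z := fun z => by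
    have := he.sum_two fun y => h (z * y)
    simpa using this
  simp only [e]
  rw [he fun z => ∑ b, ∑ c, h (z * (v b * v c))
      + 2 * ∑ b, h (z * v b) + (2 * Fintype.card L0 + 3) * h 0 + h z]
  simp only [Finset.sum_add_distrib, zero_mul, one_mul, sum_const, card_univ, nsmul_eq_mul,
    ← Finset.mul_sum]
  ring

theorem Ext.dom_one {w : L → Ω → ℕ} {v : L0 → Ω → ℕ} (he : Ext w v) {f : ℝ}
    (hf : f = 1 / Fintype.card L) : Dom ((1 - f) • U 1 v) (U 1 w) := by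
  intro g hg H
  have h0 : (0 : ℝ) < Fintype.card L0 := by exact_mod_cast Fintype.card_pos
  have h1 := dom_U_one 1 v g hg H
  have h2 := hg.nonneg (H + 1)
  have h3 := sum_eq_U 1 v g H
  rw [sum_tuple_one v fun y => g (H + y)] at h3
  rw [rep_one] at h1
  rw [rep_smul, rep_U 1 w, sum_tuple_one w fun y => g (H + y), he fun y => g (H + y), h3, hf,
    he.card, add_zero, le_div_iff₀ (by positivity)]
  simp only [Pi.zero_apply] at h2
  have : (1 - 1 / ((Fintype.card L0 : ℝ) + 2)) * rep (U 1 v) g H * (Fintype.card L0 + 2) ^ 1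
      = (Fintype.card L0 + 1) * rep (U 1 v) g H := by field_simp; ring
  rw [this]
  nlinarith

theorem Ext.dom_two {w : L → Ω → ℕ} {v : L0 → Ω → ℕ} (he : Ext w v) {f : ℝ}
    (hf : f = 1 / Fintype.card L) :
    Dom (U 2 v * ((1 - 2 * f - f ^ 2) • 1 + (2 * f) • U 1 v)) (U 2 w) := by
  intro g hg H
  have h0 : (0 : ℝ) < Fintype.card L0 := by exact_mod_cast Fintype.card_pos
  have h1 := dom_U_one 2 v g hg H
  have h2 := hg.nonneg (H + 1)
  have h3 := sum_eq_U 1 v g H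
  have h4 := sum_eq_U 2 v g H
  have h5 := dom_U_one 2 v _ (hg.map (pos_U 1 v)) H
  have h6 := (pos_U 2 v).mono (dom_U_one 1 v g hg) H
  have h7 := hg.nonneg H
  rw [sum_tuple_one v fun y => g (H + y)] at h3
  rw [sum_tuple_two v fun y => g (H + y)] at h4
  rw [rep_one] at h1 h5 h6
  rw [mul_add, mul_smul_comm, mul_smul_comm, mul_one, rep_add, rep_smul, rep_smul, rep_mul,
    rep_U 2 w, sum_tuple_two w fun y => g (H + y), he.sum_two fun y => g (H + y), h3, h4, hf,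
    he.card, add_zero, le_div_iff₀ (by positivity)]
  simp only [Pi.zero_apply] at h2 h7
  set N : ℝ := (Fintype.card L0 : ℝ)
  set y := rep (U 2 v) (rep (U 1 v) g) H
  set x2 := rep (U 2 v) g H
  set x1 := rep (U 1 v) g H
  have : ((1 - 2 * (1 / (N + 2)) - (1 / (N + 2)) ^ 2) * x2 + 2 * (1 / (N + 2)) * y) * (N + 2) ^ 2
      = (N ^ 2 + 2 * N - 1) * x2 + (2 * N + 4) * y := by field_simp; ring
  rw [this]
  nlinarith [mul_le_mul_of_nonneg_left h5 h0.le, mul_le_mul_of_nonneg_left h1 h0.le]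

theorem Ext.dom_three {w : L → Ω → ℕ} {v : L0 → Ω → ℕ} (he : Ext w v) {f : ℝ}
    (hf : f = 1 / Fintype.card L) :
    Dom (U 3 v * ((1 - 3 * f - 3 * f ^ 2) • 1 + (3 * f) • U 2 v)) (U 3 w) := by
  intro g hg H
  have h0 : (0 : ℝ) < Fintype.card L0 := by exact_mod_cast Fintype.card_pos
  have h1 := dom_U_one 3 v g hg H
  have h2 := hg.nonneg (H + 1)
  have h3 := sum_eq_U 1 v g H
  have h4 := sum_eq_U 2 v g H
  have h4' := sum_eq_U 3 v g H
  have h5 := dom_U_one 3 v _ (hg.map (pos_U 2 v)) H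
  have h6 := (pos_U 3 v).mono (dom_U_one 2 v g hg) H
  have h7 := hg.nonneg H
  have h8 := pos_U 1 v g hg.nonneg H
  rw [sum_tuple_one v fun y => g (H + y)] at h3
  rw [sum_tuple_two v fun y => g (H + y)] at h4
  rw [sum_tuple_three v fun y => g (H + y)] at h4'
  rw [rep_one] at h1 h5 h6
  rw [mul_add, mul_smul_comm, mul_smul_comm, mul_one, rep_add, rep_smul, rep_smul, rep_mul,
    rep_U 3 w, sum_tuple_three w fun y => g (H + y), he.sum_three fun y => g (H + y), h3, h4, h4',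
    hf, he.card, add_zero, le_div_iff₀ (by positivity)]
  simp only [Pi.zero_apply] at h2 h7 h8
  set N : ℝ := (Fintype.card L0 : ℝ)
  set y := rep (U 3 v) (rep (U 2 v) g) H
  set x3 := rep (U 3 v) g H
  set x2 := rep (U 2 v) g H
  set x1 := rep (U 1 v) g H
  have : ((1 - 3 * (1 / (N + 2)) - 3 * (1 / (N + 2)) ^ 2) * x3 + 3 * (1 / (N + 2)) * y)
      * (N + 2) ^ 3 = (N ^ 3 + 3 * N ^ 2 - 3 * N - 10) * x3 + (3 * N ^ 2 + 12 * N + 12) * y := by
    field_simp; ring
  rw [this]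
  nlinarith [mul_le_mul_of_nonneg_left h5 (sq_nonneg N), mul_le_mul_of_nonneg_left h1 h0.le,
    mul_le_mul_of_nonneg_left h1 (sq_nonneg N), mul_le_mul_of_nonneg_left h6 h0.le,
    mul_nonneg h0.le h8]

theorem one_sub_pow_ge {x : ℝ} (h1 : x ≤ 1) (m : ℕ) : 1 - m * x ≤ (1 - x) ^ m := by
  have := one_add_mul_le_pow (a := -x) (by linarith) m
  simpa [sub_eq_add_neg] using this

theorem pow_le_exp {y x : ℝ} (h0 : 0 ≤ y) (h : y ≤ 1 + x) (m : ℕ) : y ^ m ≤ Real.exp (x * m) := by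
  rw [mul_comm, Real.exp_nat_mul]
  exact pow_le_pow_left₀ h0 (h.trans (by linarith [Real.add_one_le_exp x])) m

theorem Ext.step {w : L → Ω → ℕ} {v : L0 → Ω → ℕ} (he : Ext w v) {f : ℝ}
    (hf : f = 1 / Fintype.card L) (hf4 : f ≤ 1 / 4) {Γ A B z : ℝ} (hΓ : Γ ≤ 1) (hA : 0 ≤ A)
    (hB : 0 ≤ B) (hz : 1 ≤ z) (j a b : ℕ)
    (h : ∀ x y : ℕ, Γ - A * z ^ x - B * 2 ^ y ≤ Gv v (j + x) (a + y) b) :
    Γ - (j * f + a * f ^ 2 + b * (3 * f ^ 2)) - A * Real.exp (2 * f * (z - 1) * a)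
      - B * Real.exp (3 * f * b) ≤ Gv w j a b := by
  have hf0 : 0 ≤ f := by rw [hf]; positivity
  have a1 : 0 ≤ 1 - f := by linarith
  have a2 : 0 ≤ 1 - 2 * f - f ^ 2 := by nlinarith
  have a3 : 0 ≤ 1 - 3 * f - 3 * f ^ 2 := by nlinarith
  have q2 : 0 ≤ 2 * f := by linarith
  have q3 : 0 ≤ 3 * f := by linarith
  set W2 : Alg Ω := (1 - 2 * f - f ^ 2) • 1 + (2 * f) • U 1 v with hW2
  set W3 : Alg Ω := (1 - 3 * f - 3 * f ^ 2) • 1 + (3 * f) • U 2 v with hW3
  have p1 : Pos ((1 - f) • U 1 v) := (pos_U 1 v).smul a1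
  have p2 : Pos (U 2 v * W2) := (pos_U 2 v).mul ((pos_one.smul a2).add ((pos_U 1 v).smul q2))
  have p3 : Pos (U 3 v * W3) := (pos_U 3 v).mul ((pos_one.smul a3).add ((pos_U 2 v).smul q3))
  have h1 := ((((he.dom_one hf).pow p1 (pos_U 1 w) j).mul ((he.dom_two hf).pow p2 (pos_U 2 w) a)
    (p1.pow j) ((pos_U 2 w).pow a)).mul ((he.dom_three hf).pow p3 (pos_U 3 w) b)
    ((p1.pow j).mul (p2.pow a)) ((pos_U 3 w).pow b)) phi cl_phi 0
  have e1 : ((1 - f) • U 1 v) ^ j * (U 2 v * W2) ^ a * (U 3 v * W3) ^ b =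
      ((1 - f) ^ j) • (Op v j a b * W3 ^ b * W2 ^ a) := by
    rw [smul_pow, smul_mul_assoc, smul_mul_assoc, Op]
    congr 1
    ring
  rw [e1, rep_smul] at h1
  refine le_trans ?_ h1
  have h2 : ∀ x : ℕ, ((1 - 3 * f ^ 2) ^ b * Γ - B * (1 - 3 * f - 3 * f ^ 2 + 3 * f * 2) ^ b)
      - ((1 - 3 * f ^ 2) ^ b * A) * z ^ x ≤ ev phi 0 (Op v j a b * W3 ^ b * U 1 v ^ x) := by
    intro x
    have h3 := geo (ev phi 0) (U 2 v) a3 q3 (Γ - A * z ^ x) 2 b (Op v j a b * U 1 v ^ x) B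
      fun y => by
        have e : Op v j a b * U 1 v ^ x * U 2 v ^ y = Op v (j + x) (a + y) b := by
          simp only [Op]; ring
        rw [e]
        exact h x y
    rw [show Op v j a b * W3 ^ b * U 1 v ^ x = Op v j a b * U 1 v ^ x * W3 ^ b by ring]
    rw [show 1 - 3 * f - 3 * f ^ 2 + 3 * f = 1 - 3 * f ^ 2 by ring] at h3
    refine le_trans (le_of_eq ?_) h3
    ring
  have h4 := geo (ev phi 0) (U 1 v) a2 q2 _ z a _ _ h2
  rw [show 1 - 2 * f - f ^ 2 + 2 * f = 1 - f ^ 2 by ring, ev_apply] at h4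
  have h5 := mul_le_mul_of_nonneg_left h4 (pow_nonneg a1 j)
  refine le_trans ?_ h5
  have b1 : (1 - f) ^ j ≤ 1 := pow_le_one₀ a1 (by linarith)
  have b1' := pow_nonneg a1 j
  have c2 : 0 ≤ 1 - f ^ 2 := by nlinarith
  have c3 : 0 ≤ 1 - 3 * f ^ 2 := by nlinarith
  have b2 : (1 - f ^ 2) ^ a ≤ 1 := pow_le_one₀ c2 (by nlinarith)
  have b2' := pow_nonneg c2 a
  have b3 : (1 - 3 * f ^ 2) ^ b ≤ 1 := pow_le_one₀ c3 (by nlinarith)
  have b3' := pow_nonneg c3 b
  have d1 := one_sub_pow_ge (x := f) (by linarith) j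
  have d2 := one_sub_pow_ge (x := f ^ 2) (by linarith) a
  have d3 := one_sub_pow_ge (x := 3 * f ^ 2) (by linarith) b
  have g2 : (1 - 2 * f - f ^ 2 + 2 * f * z) ^ a ≤ Real.exp (2 * f * (z - 1) * a) :=
    pow_le_exp (by nlinarith) (by nlinarith) a
  have g2' : 0 ≤ (1 - 2 * f - f ^ 2 + 2 * f * z) ^ a := pow_nonneg (by nlinarith) a
  have g3 : (1 - 3 * f - 3 * f ^ 2 + 3 * f * 2) ^ b ≤ Real.exp (3 * f * b) :=
    pow_le_exp (by nlinarith) (by nlinarith) b
  have g3' : 0 ≤ (1 - 3 * f - 3 * f ^ 2 + 3 * f * 2) ^ b := pow_nonneg (by nlinarith) b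
  generalize (1 - f) ^ j = r1 at *
  generalize (1 - f ^ 2) ^ a = r2 at *
  generalize (1 - 3 * f ^ 2) ^ b = r3 at *
  generalize (1 - 2 * f - f ^ 2 + 2 * f * z) ^ a = t2 at *
  generalize (1 - 3 * f - 3 * f ^ 2 + 3 * f * 2) ^ b = t3 at *
  generalize Real.exp (2 * f * (z - 1) * a) = E2 at *
  generalize Real.exp (3 * f * b) = E3 at *
  have k1 : r1 * r2 ≤ 1 := mul_le_one₀ b1 b2' b2
  have k1' : 0 ≤ r1 * r2 := mul_nonneg b1' b2'
  have k2 : r1 * r3 ≤ 1 := mul_le_one₀ b1 b3' b3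
  have k2' : 0 ≤ r1 * r3 := mul_nonneg b1' b3'
  have k3 : r1 * r2 * r3 ≤ 1 := mul_le_one₀ k1 b3' b3
  have k4 : 1 - (r1 * r2 * r3) ≤ (1 - r1) + (1 - r2) + (1 - r3) := by
    have : r1 + r2 - 1 ≤ r1 * r2 := by nlinarith
    have : r1 * r2 + r3 - 1 ≤ r1 * r2 * r3 := by nlinarith
    linarith
  have k5 : Γ - (1 - r1 * r2 * r3) ≤ r1 * r2 * r3 * Γ := by nlinarith
  have k6 : r1 * r2 * (B * t3) ≤ B * E3 := by
    calc _ ≤ 1 * (B * t3) := mul_le_mul_of_nonneg_right k1 (mul_nonneg hB g3')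
      _ ≤ _ := by rw [one_mul]; exact mul_le_mul_of_nonneg_left g3 hB
  have k7 : r1 * r3 * (A * t2) ≤ A * E2 := by
    calc _ ≤ 1 * (A * t2) := mul_le_mul_of_nonneg_right k2 (mul_nonneg hA g2')
      _ ≤ _ := by rw [one_mul]; exact mul_le_mul_of_nonneg_left g2 hA
  have : r1 * (r2 * (r3 * Γ - B * t3) - r3 * A * t2) =
      r1 * r2 * r3 * Γ - r1 * r2 * (B * t3) - r1 * r3 * (A * t2) := by ring
  rw [this]
  linarith

end Ext

theorem ext_sv (m : ℕ) (l : Fin (m + 1) × Bool) :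
    Ext (fun l' => sv (m + 1) l' ∘ fun τ : Fin m → Bool => l.1.insertNth l.2 τ) (sv m) := by
  intro h
  obtain ⟨i, β⟩ := l
  rw [Fintype.sum_prod_type, Fintype.sum_prod_type, Fin.sum_univ_succAbove _ i]
  have e1 : ∀ (j : Fin m) (γ : Bool),
      (sv (m + 1) (i.succAbove j, γ) ∘ fun τ : Fin m → Bool => i.insertNth β τ) = sv m (j, γ) := by
    intro j γ
    ext τ
    simp [sv]
  have e2 : (sv (m + 1) (i, β) ∘ fun τ : Fin m → Bool => i.insertNth β τ) = 0 := by
    ext τ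
    simp [sv]
  have e3 : (sv (m + 1) (i, !β) ∘ fun τ : Fin m → Bool => i.insertNth β τ) = 1 := by
    ext τ
    simp [sv]
  simp only [e1]
  cases β
  · rw [Fintype.sum_bool, e2]
    rw [Bool.not_false] at e3
    rw [e3]
    ring
  · rw [Fintype.sum_bool, e2]
    rw [Bool.not_true] at e3
    rw [e3]
    ring

theorem G_unit (m j a b : ℕ) (c : ℝ) (h : ∀ l : Fin (m + 1) × Bool,
    c ≤ Gv (fun l' => sv (m + 1) l' ∘ fun τ : Fin m → Bool => l.1.insertNth l.2 τ) j a b) :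
    c ≤ G (m + 1) (j + 1) a b := by
  have e : Op (sv (m + 1)) (j + 1) a b = U 1 (sv (m + 1)) * Op (sv (m + 1)) j a b := by
    simp only [Op]; ring
  have h0 : (0 : ℝ) < Fintype.card (Fin (m + 1) × Bool) := by exact_mod_cast Fintype.card_pos
  rw [G, Gv, e, rep_mul, rep_U, sum_tuple_one _ fun y => rep (Op (sv (m + 1)) j a b) phi (0 + y),
    pow_one, le_div_iff₀ h0]
  calc c * Fintype.card (Fin (m + 1) × Bool) = ∑ _l : Fin (m + 1) × Bool, c := by
        simp [mul_comm]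
    _ ≤ _ := Finset.sum_le_sum fun l _ => ?_
  refine (h l).trans ?_
  rw [Gv, ← mp_Op, zero_add]
  have e2 : (sv (m + 1) l ∘ fun τ : Fin m → Bool => l.1.insertNth l.2 τ) = 0 := by
    ext τ
    simp [sv]
  rw [← e2, ← rep_mp]
  exact (mk_Op _ j a b).pos.mono (phi_comp_le _) _

theorem unit_ind {lam c Γ : ℝ} (h0 : 0 < lam) (h1 : lam < 1) (hc : 0 ≤ c) (hΓ : Γ ≤ 1)
    {n0 K s a b : ℕ} (hn0 : 0 < n0) (ha : (a : ℝ) + s ≤ lam * n0) (hb : (b : ℝ) ≤ c * n0)
    (hbase : ∀ d ≤ K, Γ ≤ G (n0 + d) 0 (a + s) b) {ρ c2 : ℝ} (hρ : ρ = lam * Real.exp (1 - lam))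
    (hc2 : c2 = (1 / (1 / lam - 1) + 3 * c) / (1 - ρ)) (d : ℕ) (hd : d ≤ K) (j l : ℕ) :
    Γ - (ρ ^ d + c2 / n0) * (1 / lam) ^ j - (Real.exp (2 * c) ^ d / 2 ^ s) * 2 ^ l
      ≤ G (n0 + d) j (a + l) b := by
  have hn : (0 : ℝ) < n0 := by exact_mod_cast hn0
  have hn1 : (1 : ℝ) ≤ n0 := by exact_mod_cast hn0
  set z : ℝ := 1 / lam with hz
  have hz1 : 1 < z := by rw [hz, lt_div_iff₀ h0]; linarith
  have hρ0 : 0 < ρ := by rw [hρ]; positivity
  have hρ1 : ρ < 1 := by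
    have h2 := Real.add_one_lt_exp (x := lam - 1) (by linarith)
    have h3 : Real.exp (lam - 1) * Real.exp (1 - lam) = 1 := by rw [← Real.exp_add]; simp
    rw [hρ]
    nlinarith [Real.exp_pos (1 - lam)]
  have hc20 : 0 ≤ c2 := by
    rw [hc2]
    exact div_nonneg (add_nonneg (div_nonneg zero_le_one (by linarith)) (by linarith))
      (by linarith)
  have hw : 1 ≤ Real.exp (2 * c) := Real.one_le_exp (by linarith)
  have triv0 : ∀ d ≤ K, ∀ l, Γ - (Real.exp (2 * c) ^ d / 2 ^ s) * 2 ^ l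
      ≤ G (n0 + d) 0 (a + l) b := by
    intro d hd l
    rcases le_total l s with hl | hl
    · have h2 := G_anti (n := n0 + d) (by omega) (le_refl 0) (show a + l ≤ a + s by omega)
        (le_refl b)
      have h3 := hbase d hd
      have : 0 ≤ (Real.exp (2 * c) ^ d / 2 ^ s) * 2 ^ l := by positivity
      linarith
    · have h2 := G_nonneg (n := n0 + d) (by omega) 0 (a + l) b
      have h3 : (2 : ℝ) ^ s ≤ 2 ^ l := pow_le_pow_right₀ (by norm_num) hl
      have h4 : 1 ≤ Real.exp (2 * c) ^ d := one_le_pow₀ hw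
      have : 1 ≤ (Real.exp (2 * c) ^ d / 2 ^ s) * 2 ^ l := by
        rw [div_mul_eq_mul_div, le_div_iff₀ (by positivity)]
        nlinarith [pow_pos (show (0 : ℝ) < 2 by norm_num) s]
      linarith
  induction d generalizing j l with
  | zero =>
    have h2 := G_nonneg (n := n0 + 0) (by omega) j (a + l) b
    have h3 : 1 ≤ z ^ j := one_le_pow₀ hz1.le
    have h4 : 0 ≤ c2 / n0 := by positivity
    have h5 : 0 ≤ (Real.exp (2 * c) ^ 0 / 2 ^ s) * 2 ^ l := by positivity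
    have : 1 ≤ (ρ ^ 0 + c2 / n0) * z ^ j := by rw [pow_zero]; nlinarith
    linarith
  | succ d ih =>
    have hA : 0 ≤ ρ ^ d + c2 / n0 := by positivity
    cases j with
    | zero =>
      have h2 := triv0 (d + 1) hd l
      have : 0 ≤ (ρ ^ (d + 1) + c2 / n0) * z ^ 0 := by positivity
      linarith
    | succ j =>
      rcases le_total s l with hl | hl
      · have h2 := G_nonneg (n := n0 + (d + 1)) (by omega) (j + 1) (a + l) b
        have h3 : (2 : ℝ) ^ s ≤ 2 ^ l := pow_le_pow_right₀ (by norm_num) hl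
        have h4 : 1 ≤ Real.exp (2 * c) ^ (d + 1) := one_le_pow₀ hw
        have h5 : 1 ≤ (Real.exp (2 * c) ^ (d + 1) / 2 ^ s) * 2 ^ l := by
          rw [div_mul_eq_mul_div, le_div_iff₀ (by positivity)]
          nlinarith [pow_pos (show (0 : ℝ) < 2 by norm_num) s]
        have : 0 ≤ (ρ ^ (d + 1) + c2 / n0) * z ^ (j + 1) := by positivity
        linarith
      · rw [← add_assoc]
        apply G_unit
        intro lit
        have : NeZero (n0 + d) := ⟨by omega⟩
        set f : ℝ := 1 / (2 * (n0 + d + 1)) with hf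
        have hd0 : (0 : ℝ) ≤ d := Nat.cast_nonneg _
        have hf0 : 0 ≤ f := by positivity
        have hfn : f * n0 ≤ 1 / 2 := by
          rw [hf, div_mul_eq_mul_div, div_le_div_iff₀ (by positivity) (by norm_num)]
          nlinarith
        have hf4 : f ≤ 1 / 4 := by
          rw [hf, div_le_div_iff₀ (by positivity) (by norm_num)]
          nlinarith
        have h2 := (ext_sv (n0 + d) lit).step (f := f) (by
          rw [hf]; simp only [Fintype.card_prod, Fintype.card_fin, Fintype.card_bool]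
          push_cast; ring) hf4 hΓ (A := (ρ ^ d + c2 / n0) * z ^ j)
          (B := (Real.exp (2 * c) ^ d / 2 ^ s) * 2 ^ l) (by positivity) (by positivity) hz1.le
          j (a + l) b fun x y => by
            have := ih (by omega) (j + x) (l + y)
            rw [pow_add, pow_add, ← add_assoc, ← mul_assoc, ← mul_assoc] at this
            exact this
        refine le_trans ?_ h2
        have hal : ((a + l : ℕ) : ℝ) ≤ lam * n0 := by
          have : (l : ℝ) ≤ s := by exact_mod_cast hl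
          push_cast
          linarith
        have e1 : Real.exp (2 * f * (z - 1) * ((a + l : ℕ) : ℝ)) ≤ ρ * z := by
          have h3 : ρ * z = Real.exp (1 - lam) := by rw [hρ, hz]; field_simp
          rw [h3, Real.exp_le_exp]
          have h4 : 2 * f * ((a + l : ℕ) : ℝ) ≤ lam := by
            calc _ ≤ 2 * f * (lam * n0) := by gcongr
              _ = 2 * lam * (f * n0) := by ring
              _ ≤ 2 * lam * (1 / 2) := by gcongr
              _ = lam := by ring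
          have h5 : lam * (z - 1) = 1 - lam := by rw [hz]; field_simp
          calc _ = (2 * f * ((a + l : ℕ) : ℝ)) * (z - 1) := by ring
            _ ≤ lam * (z - 1) := mul_le_mul_of_nonneg_right h4 (by linarith)
            _ = _ := h5
        have hbf : (b : ℝ) * f ≤ c / 2 := by
          calc _ ≤ c * n0 * f := by gcongr
            _ = c * (f * n0) := by ring
            _ ≤ c * (1 / 2) := by gcongr
            _ = _ := by ring
        have e2 : Real.exp (3 * f * b) ≤ Real.exp (2 * c) := by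
          rw [Real.exp_le_exp]; nlinarith
        have e3 : j * f + ((a + l : ℕ) : ℝ) * f ^ 2 + b * (3 * f ^ 2)
            ≤ (1 - ρ) * (c2 / n0) * z ^ (j + 1) := by
          have h3 : (1 - ρ) * c2 = 1 / (z - 1) + 3 * c := by
            rw [hc2]; field_simp [show 1 - ρ ≠ 0 by linarith]
          have h4 : (j : ℝ) + 1 ≤ z ^ (j + 1) / (z - 1) := by
            rw [le_div_iff₀ (by linarith)]
            have := one_add_mul_le_pow (a := z - 1) (by linarith) (j + 1)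
            push_cast at this
            rw [add_sub_cancel] at this
            linarith
          have h5 : 1 ≤ z ^ (j + 1) := one_le_pow₀ hz1.le
          have h6 : ((a + l : ℕ) : ℝ) * f ≤ 1 := by
            calc _ ≤ lam * n0 * f := by gcongr
              _ = lam * (f * n0) := by ring
              _ ≤ 1 * (1 / 2) := by gcongr
              _ ≤ 1 := by norm_num
          have h7 : f ≤ 1 / n0 := by rw [le_div_iff₀ hn]; linarith
          have h8 : j * f + ((a + l : ℕ) : ℝ) * f ^ 2 + b * (3 * f ^ 2)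
              ≤ (j + 1 + 3 * c) * f := by
            have := mul_le_mul_of_nonneg_right h6 hf0
            have := mul_le_mul_of_nonneg_right hbf hf0
            have := mul_nonneg hc hf0
            nlinarith
          calc _ ≤ (j + 1 + 3 * c) * f := h8
            _ ≤ (z ^ (j + 1) / (z - 1) + 3 * c * z ^ (j + 1)) * (1 / n0) := by
                have h9 : 3 * c ≤ 3 * c * z ^ (j + 1) := le_mul_of_one_le_right (by linarith) h5
                have h10 : (0 : ℝ) ≤ j := Nat.cast_nonneg _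
                exact mul_le_mul (by linarith) h7 hf0 (by linarith)
            _ = (1 / (z - 1) + 3 * c) / n0 * z ^ (j + 1) := by ring
            _ = _ := by rw [← h3]; ring
        have e4 : (ρ ^ d + c2 / n0) * z ^ j * Real.exp (2 * f * (z - 1) * ((a + l : ℕ) : ℝ))
            ≤ (ρ ^ d + c2 / n0) * z ^ j * (ρ * z) := by gcongr
        have e5 : (Real.exp (2 * c) ^ d / 2 ^ s) * 2 ^ l * Real.exp (3 * f * b)
            ≤ (Real.exp (2 * c) ^ d / 2 ^ s) * 2 ^ l * Real.exp (2 * c) := by gcongr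
        have e6 : (Real.exp (2 * c) ^ d / 2 ^ s) * 2 ^ l * Real.exp (2 * c) =
            (Real.exp (2 * c) ^ (d + 1) / 2 ^ s) * 2 ^ l := by ring
        have e7 : (ρ ^ (d + 1) + c2 / n0) * z ^ (j + 1) = (ρ ^ d + c2 / n0) * z ^ j * (ρ * z)
            + (1 - ρ) * (c2 / n0) * z ^ (j + 1) := by ring
        linarith

theorem drop_tail {κ y E : ℝ} (h0 : 0 ≤ κ) (h1 : κ ≤ 1) (hy : 1 - κ ≤ y) (k m : ℕ)
    (hE : k * y * m ≤ E) : (2 - κ ^ k) ^ m ≤ Real.exp E := by
  have h2 := one_sub_pow_ge (x := 1 - κ) (by linarith) k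
  rw [sub_sub_cancel] at h2
  have h3 : κ ^ k ≤ 1 := pow_le_one₀ h0 h1
  have h4 : (k : ℝ) * (1 - κ) ≤ k * y := by gcongr
  exact (pow_le_exp (x := k * y) (by linarith) (by linarith) m).trans (Real.exp_le_exp.2 hE)

/-- A random unit clause costs at most a slowly growing number of longer clauses. -/
theorem unit_cost {lam c : ℝ} (h0 : 0 < lam) (h1 : lam < 1) (hc : 0 ≤ c) :
    ∃ Cs : ℕ, ∃ C ρ : ℝ, 0 ≤ C ∧ 0 < ρ ∧ ρ < 1 ∧ ∀ n K a b : ℕ, 0 < n → 2 * K ≤ n →
      (a : ℝ) + Cs * K ≤ lam * (n - K) → (b : ℝ) ≤ c * (n - K) →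
      G n 0 (a + 2 * (Cs * K)) (b + 2 * (Cs * K)) - C * (ρ ^ K + 1 / n) ≤ G n 1 a b := by
  obtain ⟨Cs, hCs⟩ : ∃ Cs : ℕ, Real.exp (3 * c + 5) ≤ 2 ^ Cs := by
    obtain ⟨m, hm⟩ := pow_unbounded_of_one_lt (Real.exp (3 * c + 5)) (show (1 : ℝ) < 2 by norm_num)
    exact ⟨m, hm.le⟩
  set ρ0 := lam * Real.exp (1 - lam) with hρ
  have hρ0 : 0 < ρ0 := by positivity
  have hρ1 : ρ0 < 1 := by
    have h2 := Real.add_one_lt_exp (x := lam - 1) (by linarith)
    have h3 : Real.exp (lam - 1) * Real.exp (1 - lam) = 1 := by rw [← Real.exp_add]; simp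
    rw [hρ]
    nlinarith [Real.exp_pos (1 - lam)]
  set c2 := (1 / (1 / lam - 1) + 3 * c) / (1 - ρ0) with hc2
  have hz1 : 1 < 1 / lam := by rw [lt_div_iff₀ h0]; linarith
  have hc20 : 0 ≤ c2 :=
    div_nonneg (add_nonneg (div_nonneg zero_le_one (by linarith)) (by linarith)) (by linarith)
  refine ⟨Cs, (1 + 2 * c2) * (1 / lam) + 3, max ρ0 (Real.exp (-1)), by positivity,
    lt_max_of_lt_left hρ0, max_lt hρ1 (Real.exp_lt_one_iff.2 (by norm_num)), ?_⟩
  intro n K a b hn hK ha hb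
  obtain ⟨n0, rfl⟩ : ∃ n0, n = n0 + K := ⟨n - K, by omega⟩
  have hn0 : 0 < n0 := by omega
  have hKn : K ≤ n0 := by omega
  have hn0' : (0 : ℝ) < n0 := by exact_mod_cast hn0
  have hKn' : (K : ℝ) ≤ n0 := by exact_mod_cast hKn
  have hK0 : (0 : ℝ) ≤ K := Nat.cast_nonneg _
  set s := Cs * K with hs
  have ha' : (a : ℝ) + s ≤ lam * n0 := by rw [hs]; push_cast at ha ⊢; simpa using ha
  have hb' : (b : ℝ) ≤ c * n0 := by push_cast at hb; simpa using hb
  have hs0 : (0 : ℝ) ≤ s := Nat.cast_nonneg _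
  have ha0 : (0 : ℝ) ≤ a := Nat.cast_nonneg _
  have hlam : lam * n0 ≤ n0 := by nlinarith
  have hpow : ∀ E : ℝ, E ≤ (3 * c + 4) * K → Real.exp E / 2 ^ s ≤ Real.exp (-1) ^ K := by
    intro E hE
    have h2 : Real.exp (3 * c + 5) ^ K ≤ 2 ^ s := by
      rw [hs, pow_mul]; exact pow_le_pow_left₀ (Real.exp_pos _).le hCs K
    rw [div_le_iff₀ (by positivity)]
    calc Real.exp E ≤ Real.exp (-1) ^ K * Real.exp (3 * c + 5) ^ K := by
          rw [← mul_pow, ← Real.exp_add, ← Real.exp_nat_mul, Real.exp_le_exp]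
          linarith
      _ ≤ _ := by gcongr
  set Γ := G (n0 + K) 0 (a + s + s) (b + s) - 2 * Real.exp (-1) ^ K with hΓ
  have hΓ1 : Γ ≤ 1 := by
    have := G_le_one hn 0 (a + s + s) (b + s)
    have : 0 ≤ Real.exp (-1) ^ K := by positivity
    linarith
  have key := unit_ind h0 h1 hc hΓ1 (K := K) hn0 ha' hb' (fun d hd => by
    have h2 := G_upper (n0 := n0 + d) (n := n0 + K) (by omega) (by omega) (a + s) b s s
    have hN : (0 : ℝ) < ((n0 + K : ℕ) : ℝ) := by exact_mod_cast hn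
    have k0 : 0 ≤ ((n0 + d : ℕ) : ℝ) / ((n0 + K : ℕ) : ℝ) := by positivity
    have k1 : ((n0 + d : ℕ) : ℝ) / ((n0 + K : ℕ) : ℝ) ≤ 1 := by
      rw [div_le_one hN]; exact_mod_cast (show n0 + d ≤ n0 + K by omega)
    have k2 : 1 - ((n0 + d : ℕ) : ℝ) / ((n0 + K : ℕ) : ℝ) ≤ K / n0 := by
      have hd0 : (0 : ℝ) ≤ d := Nat.cast_nonneg _
      rw [one_sub_div hN.ne', div_le_div_iff₀ hN hn0']
      push_cast
      nlinarith
    have h3 := drop_tail k0 k1 k2 2 (a + s + s) (E := 4 * K) (by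
      push_cast
      calc 2 * ((K : ℝ) / n0) * (a + s + s) ≤ 2 * (K / n0) * (2 * n0) := by gcongr; linarith
        _ = _ := by field_simp; ring)
    have h4 := drop_tail k0 k1 k2 3 (b + s) (E := 3 * (c + 1) * K) (by
      push_cast
      calc 3 * ((K : ℝ) / n0) * (b + s) ≤ 3 * (K / n0) * ((c + 1) * n0) := by gcongr; linarith
        _ = _ := by field_simp)
    have h5 := hpow (4 * K) (by nlinarith)
    have h6 := hpow (3 * (c + 1) * K) (by nlinarith)
    have h7 := div_le_div_of_nonneg_right h3 (show (0 : ℝ) ≤ 2 ^ s by positivity)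
    have h8 := div_le_div_of_nonneg_right h4 (show (0 : ℝ) ≤ 2 ^ s by positivity)
    linarith) hρ hc2 K le_rfl 1 0
  have h2 := G_anti hn (le_refl 0) (show a + s + s ≤ a + 2 * s by omega)
    (show b + s ≤ b + 2 * s by omega)
  have h3 := hpow (2 * c * K) (by nlinarith)
  rw [mul_comm (2 * c), Real.exp_nat_mul] at h3
  have h4 : ρ0 ^ K ≤ max ρ0 (Real.exp (-1)) ^ K := pow_le_pow_left₀ hρ0.le (le_max_left _ _) K
  have h5 : Real.exp (-1) ^ K ≤ max ρ0 (Real.exp (-1)) ^ K :=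
    pow_le_pow_left₀ (Real.exp_pos _).le (le_max_right _ _) K
  have h6 : c2 / n0 ≤ 2 * c2 * (1 / ((n0 + K : ℕ) : ℝ)) := by
    push_cast
    rw [mul_one_div, div_le_div_iff₀ hn0' (by positivity)]
    nlinarith
  rw [add_zero, pow_one, pow_zero, mul_one] at key
  have h7 : 0 ≤ 1 / ((n0 + K : ℕ) : ℝ) := by positivity
  have h8 : 0 ≤ max ρ0 (Real.exp (-1)) ^ K := le_trans (by positivity) h4
  generalize max ρ0 (Real.exp (-1)) ^ K = R at *
  generalize 1 / ((n0 + K : ℕ) : ℝ) = I at *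
  generalize 1 / lam = z at *
  have h9 : (ρ0 ^ K + c2 / n0) * z ≤ (R + 2 * c2 * I) * z := by gcongr
  have h10 : (R + 2 * c2 * I) * z ≤ (1 + 2 * c2) * z * (R + I) := by
    have : 0 ≤ z * I := by positivity
    have : 0 ≤ c2 * z * R := by positivity
    nlinarith
  nlinarith

end Pool.Agent.Lib.MP_4fe7bc_pr.Thr
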