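import Pool.Agent.Lib.MP_4fe7bc_pr.T2

set_option autoImplicit false
set_option linter.unusedSectionVars false
set_option linter.unusedVariables false

open Finset

namespace Pool.Agent.Lib.MP_4fe7bc_pr.Thr

variable {Ω : Type}

theorem telescope {F : ℕ → ℝ} (h0 : ∀ t, 0 ≤ F t) (h1 : ∀ t, F t ≤ 1) (m h : ℕ) :
    ∑ d ∈ range m, (F d - F (d + h)) ≤ h := by
  have e1 := Finset.sum_range_add F m h
  have e2 := Finset.sum_range_add F h m
  rw [add_comm h m, e1] at e2
  have e3 : ∑ d ∈ range h, F d ≤ h := by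
    calc _ ≤ ∑ _d ∈ range h, (1 : ℝ) := Finset.sum_le_sum fun d _ => h1 d
      _ = h := by simp
  have e4 : 0 ≤ ∑ d ∈ range h, F (m + d) := Finset.sum_nonneg fun d _ => h0 _
  rw [Finset.sum_sub_distrib]
  simp only [add_comm _ h]
  linarith

theorem abel_nonneg {f : ℕ → ℝ} (hf : Antitone f) (h0 : ∀ t, 0 ≤ f t) (h1 : f 0 ≤ 1)
    {h : ℕ → ℝ} (hh : ∀ t, 0 ≤ h t) (r : ℕ) :
    0 ≤ h 0 + ∑ u ∈ range r, (h (u + 1) - h u) * f u := by
  have key : ∀ r, h (r + 1) * f r ≤ h 0 + ∑ u ∈ range (r + 1), (h (u + 1) - h u) * f u := by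
    intro r
    induction r with
    | zero =>
      have := mul_le_mul_of_nonneg_left h1 (hh 0)
      simp only [zero_add, range_one, sum_singleton]
      linarith
    | succ r ih =>
      rw [Finset.sum_range_succ _ (r + 1)]
      have := mul_le_mul_of_nonneg_left (hf (Nat.le_succ r)) (hh (r + 1))
      linarith
  cases r with
  | zero => simpa using hh 0
  | succ r => exact le_trans (mul_nonneg (hh _) (h0 _)) (key r)

theorem cheb {f : ℕ → ℝ} (hf : Antitone f) (h0 : ∀ t, 0 ≤ f t) (h1 : f 0 ≤ 1) {r : ℕ} {B : ℝ}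
    (hB : ∑ u ∈ range r, (2 * u + 1) * f u - (∑ u ∈ range r, f u) ^ 2 ≤ B) {u u' : ℕ}
    (hu : u ≤ u') (hr : u' < r) :
    (1 - f u) * ((u' : ℝ) - u) ^ 2 ≤ 4 * B ∨ f u' * ((u' : ℝ) - u) ^ 2 ≤ 4 * B := by
  set m := ∑ u ∈ range r, f u with hm
  have hu' : (u : ℝ) ≤ u' := by exact_mod_cast hu
  set d : ℝ := ((u' : ℝ) - u) / 2 with hd
  have hd0 : 0 ≤ d := by linarith
  have e0 : ∑ t ∈ range r, ((((t + 1 : ℕ) : ℝ) - m) ^ 2 - ((t : ℝ) - m) ^ 2) * f t =
      ∑ t ∈ range r, (2 * t + 1) * f t - 2 * m * m := by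
    rw [hm, Finset.mul_sum, ← Finset.sum_sub_distrib]
    refine Finset.sum_congr rfl fun t _ => ?_
    push_cast
    ring
  rcases le_total m (u + d) with h | h
  · right
    have h2 := abel_nonneg hf h0 h1
      (h := fun t => ((t : ℝ) - m) ^ 2 - d ^ 2 * (if u' < t then 1 else 0)) (fun t => by
        split_ifs with ht
        · have : (u' : ℝ) ≤ t := by exact_mod_cast ht.le
          have : d ^ 2 ≤ ((t : ℝ) - m) ^ 2 := pow_le_pow_left₀ hd0 (by linarith) 2
          linarith
        · simpa using sq_nonneg _) r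
    have e1 : ∑ t ∈ range r, ((if u' < t + 1 then (1 : ℝ) else 0) - (if u' < t then 1 else 0))
        * f t = f u' := by
      rw [Finset.sum_eq_single u']
      · simp
      · intro t _ ht
        rcases lt_or_gt_of_ne ht with h3 | h3
        · rw [if_neg (by omega), if_neg (by omega)]; simp
        · rw [if_pos (by omega), if_pos h3]; simp
      · intro h3; exact absurd (mem_range.2 hr) h3
    have e2 : ∑ t ∈ range r, (((((t + 1 : ℕ) : ℝ) - m) ^ 2
        - d ^ 2 * (if u' < t + 1 then 1 else 0)) -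
        (((t : ℝ) - m) ^ 2 - d ^ 2 * (if u' < t then 1 else 0))) * f t =
        ∑ t ∈ range r, (2 * t + 1) * f t - 2 * m * m - d ^ 2 * f u' := by
      rw [← e0, ← e1, Finset.mul_sum, ← Finset.sum_sub_distrib]
      exact Finset.sum_congr rfl fun t _ => by ring
    rw [e2] at h2
    simp only [Nat.cast_zero, Nat.not_lt_zero, if_false] at h2
    have : ((u' : ℝ) - u) ^ 2 = 4 * d ^ 2 := by rw [hd]; ring
    rw [this]
    nlinarith
  · left
    have h2 := abel_nonneg hf h0 h1
      (h := fun t => ((t : ℝ) - m) ^ 2 - d ^ 2 * (if t ≤ u then 1 else 0)) (fun t => by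
        split_ifs with ht
        · have : (t : ℝ) ≤ u := by exact_mod_cast ht
          have : d ^ 2 ≤ (m - (t : ℝ)) ^ 2 := pow_le_pow_left₀ hd0 (by linarith) 2
          nlinarith
        · simpa using sq_nonneg _) r
    have e1 : ∑ t ∈ range r, ((if t + 1 ≤ u then (1 : ℝ) else 0) - (if t ≤ u then 1 else 0))
        * f t = -f u := by
      rw [Finset.sum_eq_single u]
      · simp
      · intro t _ ht
        rcases lt_or_gt_of_ne ht with h3 | h3
        · rw [if_pos (by omega), if_pos (by omega)]; simp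
        · rw [if_neg (by omega), if_neg (by omega)]; simp
      · intro h3; exact absurd (mem_range.2 (by omega)) h3
    have e2 : ∑ t ∈ range r, (((((t + 1 : ℕ) : ℝ) - m) ^ 2
        - d ^ 2 * (if t + 1 ≤ u then 1 else 0)) -
        (((t : ℝ) - m) ^ 2 - d ^ 2 * (if t ≤ u then 1 else 0))) * f t =
        ∑ t ∈ range r, (2 * t + 1) * f t - 2 * m * m - d ^ 2 * (-f u) := by
      rw [← e0, ← e1, Finset.mul_sum, ← Finset.sum_sub_distrib]
      exact Finset.sum_congr rfl fun t _ => by ring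
    rw [e2] at h2
    simp only [Nat.cast_zero, Nat.zero_le, if_true] at h2
    have : ((u' : ℝ) - u) ^ 2 = 4 * d ^ 2 := by rw [hd]; ring
    rw [this]
    nlinarith

/-- A monotone lattice path that advances in both coordinates within every g steps. -/
structure Path (a b : ℕ → ℕ) (g : ℕ) : Prop where
  a0 : a 0 = 0
  b0 : b 0 = 0
  step : ∀ t, (a (t + 1) = a t + 1 ∧ b (t + 1) = b t) ∨ (a (t + 1) = a t ∧ b (t + 1) = b t + 1)
  gap : ∀ t, a t + 1 ≤ a (t + g) ∧ b t + 1 ≤ b (t + g)

theorem Path.mono_a {a b : ℕ → ℕ} {g : ℕ} (h : Path a b g) : Monotone a :=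
  monotone_nat_of_le_succ fun t => by have := h.step t; omega

theorem Path.mono_b {a b : ℕ → ℕ} {g : ℕ} (h : Path a b g) : Monotone b :=
  monotone_nat_of_le_succ fun t => by have := h.step t; omega

theorem Path.gap_mul {a b : ℕ → ℕ} {g : ℕ} (h : Path a b g) (t s : ℕ) :
    a t + s ≤ a (t + g * s) ∧ b t + s ≤ b (t + g * s) := by
  induction s with
  | zero => simp
  | succ s ih =>
    have := h.gap (t + g * s)
    rw [mul_add, mul_one, ← add_assoc t]
    omega

theorem Path.sum {a b : ℕ → ℕ} {g : ℕ} (h : Path a b g) (t : ℕ) : a t + b t = t := by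
  induction t with
  | zero => rw [h.a0, h.b0]
  | succ t ih => have := h.step t; omega

section Var

variable {L : Type} [Fintype L] [Nonempty L]

theorem dom_U_two (v : L → Ω → ℕ) (j : ℕ) : Dom (U 2 v) (U (j + 2) v) := by
  induction j with
  | zero => exact Dom.refl _
  | succ j ih => exact ih.trans (dom_U_succ (j + 2) v)

theorem var_step (v : L → Ω → ℕ) (j : ℕ) {V : (Ω → ℕ) → ℝ} (hV : Cl V) (H : Ω → ℕ) {r g Y : ℝ}
    (hr : V H ≤ r) (hg : V H - rep (U 2 v) V H ≤ g) (hY0 : 0 ≤ Y) (hY : r * g ≤ Y ^ 2) :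
    rep (U (j + 2) v) (fun x => V x ^ 2) H - (rep (U (j + 2) v) V H) ^ 2 ≤
      Y * (V H - rep (U 1 v) V H) := by
  have hN : (0 : ℝ) < Fintype.card L := by exact_mod_cast Fintype.card_pos
  have hM := mk_U (j + 2) v
  set c := V H with hc
  have hc0 : 0 ≤ c := hV.nonneg H
  have e1 : rep (U (j + 2) v) (fun x => (c - V x) ^ 2) H =
      rep (U (j + 2) v) (fun x => V x ^ 2) H - 2 * c * rep (U (j + 2) v) V H + c ^ 2 := by
    have : (fun x => (c - V x) ^ 2) =
        fun x => ((fun x => V x ^ 2) - (2 * c) • V : (Ω → ℕ) → ℝ) x + c ^ 2 := by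
      ext x; simp only [Pi.sub_apply, Pi.smul_apply, smul_eq_mul]; ring
    rw [this, hM.add_const, map_sub, map_smul]
    rfl
  set A := c - rep (U 1 v) V H with hA
  have hA0 : 0 ≤ A := sub_nonneg.2 (by simpa [rep_one] using dom_U_one 1 v V hV H)
  have e2 : rep (U (j + 2) v) (fun x => (c - V x) ^ 2) H ≤ A ^ 2 := by
    have h1 : ∑ l, (c - V (H + v l)) = Fintype.card L * A := by
      rw [hA, rep_U, sum_tuple_one v fun y => V (H + y), Finset.sum_sub_distrib]
      simp only [sum_const, card_univ, nsmul_eq_mul]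
      field_simp
    rw [rep_U, sum_tuple_succ (j + 1) v fun y => (c - V (H + y)) ^ 2,
      div_le_iff₀ (by positivity)]
    calc _ ≤ ∑ a, ∑ b, (Fintype.card L : ℝ) ^ j * ((c - V (H + v a)) * (c - V (H + v b))) := by
          refine Finset.sum_le_sum fun a _ => ?_
          rw [sum_tuple_succ j v fun y => (c - V (H + v a * y)) ^ 2]
          refine Finset.sum_le_sum fun b _ => ?_
          calc _ ≤ ∑ _y : Fin j → L, (c - V (H + v a)) * (c - V (H + v b)) := by
                refine Finset.sum_le_sum fun y _ => ?_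
                have h2 := hV.add_le_self H (v a * (v b * ∏ i, v (y i)))
                have h3 : V (H + v a) ≤ V (H + v a * (v b * ∏ i, v (y i))) :=
                  hV.add_le H fun σ hσ => by simp [hσ]
                have h4 : V (H + v b) ≤ V (H + v a * (v b * ∏ i, v (y i))) :=
                  hV.add_le H fun σ hσ => by simp [hσ]
                rw [sq]
                exact mul_le_mul (by linarith) (by linarith) (by linarith) (by linarith)
            _ = _ := by simp
      _ = A ^ 2 * (Fintype.card L : ℝ) ^ (j + 2) := by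
          simp only [← Finset.mul_sum]
          rw [← Finset.sum_mul, h1]
          ring
  have e3 : rep (U (j + 2) v) (fun x => (c - V x) ^ 2) H ≤ Y ^ 2 := by
    have h1 : rep (U (j + 2) v) (fun x => (c - V x) ^ 2) H ≤
        r * (c - rep (U (j + 2) v) V H) := by
      rw [rep_U, rep_U, div_le_iff₀ (by positivity)]
      calc _ ≤ ∑ x : Fin (j + 2) → L, r * (c - V (H + ∏ i, v (x i))) := by
            refine Finset.sum_le_sum fun x _ => ?_
            have h2 := hV.add_le_self H (∏ i, v (x i))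
            have h3 := hV.nonneg (H + ∏ i, v (x i))
            simp only [Pi.zero_apply] at h3
            rw [sq]
            exact mul_le_mul_of_nonneg_right (by linarith) (by linarith)
        _ = _ := by
            rw [← Finset.mul_sum, Finset.sum_sub_distrib]
            simp only [sum_const, card_univ, nsmul_eq_mul, Fintype.card_fun, Fintype.card_fin]
            push_cast
            field_simp
    have h2 := dom_U_two v j V hV H
    have h3 : r * (c - rep (U (j + 2) v) V H) ≤ r * g :=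
      mul_le_mul_of_nonneg_left (by linarith) (by linarith)
    linarith
  have e4 : rep (U (j + 2) v) (fun x => (c - V x) ^ 2) H ≤ Y * A := by
    rcases le_total A Y with h | h
    · nlinarith
    · nlinarith
  nlinarith [sq_nonneg (c - rep (U (j + 2) v) V H)]

variable (v : L → Ω → ℕ) (a b : ℕ → ℕ)

/-- The clauses added along the path between the times i and i + d. -/
noncomputable def Wp (i d : ℕ) : Alg Ω := Op v 0 (a (i + d) - a i) (b (i + d) - b i)

/-- Expected truncated remaining lifetime. -/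
noncomputable def Vp (i m : ℕ) : (Ω → ℕ) → ℝ := ∑ d ∈ range m, rep (Wp v a b i d) phi

/-- Second moment of the truncated remaining lifetime. -/
noncomputable def Qp (i m : ℕ) : (Ω → ℕ) → ℝ :=
  ∑ d ∈ range m, (2 * (d : ℝ) + 1) • rep (Wp v a b i d) phi

variable {a b} {g : ℕ}

theorem mk_Wp (i d : ℕ) : Mk (Wp v a b i d) := mk_Op _ _ _ _

theorem Wp_zero (i : ℕ) : Wp v a b i 0 = 1 := by simp [Wp, Op]

theorem Wp_add (h : Path a b g) (i d e : ℕ) :
    Wp v a b i (d + e) = Wp v a b i d * Wp v a b (i + d) e := by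
  have h1 := h.mono_a (Nat.le_add_right i d)
  have h2 := h.mono_a (Nat.le_add_right (i + d) e)
  have h3 := h.mono_b (Nat.le_add_right i d)
  have h4 := h.mono_b (Nat.le_add_right (i + d) e)
  rw [Wp, Wp, Wp, Op_mul, ← add_assoc]
  congr 1 <;> omega

theorem Wp_one (h : Path a b g) (i : ℕ) : ∃ j, Wp v a b i 1 = U (j + 2) v := by
  rcases h.step i with ⟨h1, h2⟩ | ⟨h1, h2⟩
  · exact ⟨0, by simp [Wp, Op, h1, h2]⟩
  · exact ⟨1, by simp [Wp, Op, h1, h2]⟩

theorem cl_Vp (i m : ℕ) : Cl (Vp v a b i m) :=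
  Cl.sum _ fun d _ => cl_phi.map (mk_Wp v i d).pos

theorem Vp_le (i m : ℕ) (H : Ω → ℕ) : Vp v a b i m H ≤ m * phi H := by
  rw [Vp, Finset.sum_apply]
  calc _ ≤ ∑ _d ∈ range m, phi H := Finset.sum_le_sum fun d _ => by
        have := dom_Op v (le_refl 0) (Nat.zero_le (a (i + d) - a i))
          (Nat.zero_le (b (i + d) - b i)) phi cl_phi H
        rwa [show Op v 0 0 0 = 1 by simp [Op], rep_one] at this
    _ = _ := by simp

theorem Vp_succ (h : Path a b g) (i m : ℕ) :
    Vp v a b i (m + 1) = phi + rep (Wp v a b i 1) (Vp v a b (i + 1) m) := by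
  rw [Vp, Vp, Finset.sum_range_succ', Wp_zero, rep_one, add_comm, map_sum]
  congr 1
  refine Finset.sum_congr rfl fun d _ => ?_
  rw [add_comm d 1, Wp_add v h, rep_mul]

theorem Qp_succ (h : Path a b g) (i m : ℕ) :
    Qp v a b i (m + 1) = phi + rep (Wp v a b i 1) (Qp v a b (i + 1) m)
      + (2 : ℝ) • rep (Wp v a b i 1) (Vp v a b (i + 1) m) := by
  rw [Qp, Qp, Vp, Finset.sum_range_succ', Wp_zero, rep_one, add_comm, map_sum, map_sum,
    Finset.smul_sum, add_assoc, ← Finset.sum_add_distrib]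
  congr 1
  · simp
  refine Finset.sum_congr rfl fun d _ => ?_
  rw [add_comm d 1, Wp_add v h, rep_mul, map_smul, ← add_smul]
  congr 1
  push_cast
  ring

theorem Vp_two (h : Path a b g) (i m : ℕ) (H : Ω → ℕ) :
    Vp v a b i m H - rep (U 2 v) (Vp v a b i m) H ≤ g := by
  have h1 := telescope (F := fun d => rep (Wp v a b i d) phi H)
    (fun d => (mk_Wp v i d).pos _ cl_phi.nonneg H) (fun d => (mk_Wp v i d).le_one phi_le_one H) m g
  refine le_trans ?_ h1
  rw [Vp, map_sum, Finset.sum_apply, Finset.sum_apply, ← Finset.sum_sub_distrib]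
  refine Finset.sum_le_sum fun d _ => sub_le_sub_left ?_ _
  have e : U 2 v * Wp v a b i d = Op v 0 (a (i + d) - a i + 1) (b (i + d) - b i) := by
    simp only [Wp, Op]; ring
  rw [← rep_mul, e]
  have h2 := h.gap (i + d)
  have h3 := h.mono_a (Nat.le_add_right i d)
  have h4 := h.mono_b (Nat.le_add_right i d)
  refine dom_Op v (le_refl 0) ?_ ?_ phi cl_phi H
  · rw [← add_assoc]; omega
  · rw [← add_assoc]; omega

theorem unit_sum (h : Path a b g) {r s : ℕ} {η : ℝ} (hη : 0 ≤ η)
    (hU : ∀ x ≤ a r, ∀ y ≤ b r, Gv v 0 (x + s) (y + s) - η ≤ Gv v 1 x y) {i m : ℕ}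
    (him : i + 1 + m ≤ r) :
    rep (Wp v a b 0 i) (Vp v a b (i + 1) m - rep (U 1 v) (Vp v a b (i + 1) m)) 0 ≤
      g * (s + 1) + r * η := by
  have h1 := telescope (F := fun d => Gv v 0 (a (i + 1 + d) - 1) (b (i + 1 + d) - 1))
    (fun d => Gv_nonneg _ _ _ _) (fun d => Gv_le_one _ _ _ _) m (g * (s + 1))
  rw [Vp, map_sum, ← Finset.sum_sub_distrib, map_sum, Finset.sum_apply]
  have h2 : ∀ d ∈ range m, rep (Wp v a b 0 i) (rep (Wp v a b (i + 1) d) phi -
      rep (U 1 v) (rep (Wp v a b (i + 1) d) phi)) 0 ≤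
      (Gv v 0 (a (i + 1 + d) - 1) (b (i + 1 + d) - 1) -
        Gv v 0 (a (i + 1 + (d + g * (s + 1))) - 1) (b (i + 1 + (d + g * (s + 1))) - 1)) + η := by
    intro d hd
    have hd' := mem_range.1 hd
    have k1 := h.mono_a (Nat.le_add_right (i + 1) d)
    have k2 := h.mono_b (Nat.le_add_right (i + 1) d)
    have k3 := h.mono_a (show i + 1 + d ≤ r by omega)
    have k4 := h.mono_b (show i + 1 + d ≤ r by omega)
    have k5 := h.step i
    have k6 := h.gap_mul (i + 1 + d) (s + 1)
    set x := a i + (a (i + 1 + d) - a (i + 1)) with hx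
    set y := b i + (b (i + 1 + d) - b (i + 1)) with hy
    have e0 : Wp v a b 0 i * Wp v a b (i + 1) d = Op v 0 x y := by
      rw [Wp, Wp, Op_mul, h.a0, h.b0, zero_add i]; rfl
    have e1 : Wp v a b 0 i * (U 1 v * Wp v a b (i + 1) d) = Op v 1 x y := by
      rw [mul_left_comm, e0]; simp only [Op]; ring
    rw [map_sub, Pi.sub_apply, ← rep_mul, ← rep_mul, ← rep_mul, e0, mul_assoc, e1]
    have k7 := hU x (by omega) y (by omega)
    have k8 := Gv_anti v (le_refl 0) (show a (i + 1 + d) - 1 ≤ x by omega)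
      (show b (i + 1 + d) - 1 ≤ y by omega)
    have k9 := Gv_anti v (le_refl 0) (show x + s ≤ a (i + 1 + d + g * (s + 1)) - 1 by omega)
      (show y + s ≤ b (i + 1 + d + g * (s + 1)) - 1 by omega)
    rw [← add_assoc (i + 1) d]
    show Gv v 0 x y - Gv v 1 x y ≤ _
    linarith
  refine (Finset.sum_le_sum h2).trans ?_
  rw [Finset.sum_add_distrib]
  have h3 : (m : ℝ) ≤ r := by exact_mod_cast (show m ≤ r by omega)
  have h4 := mul_le_mul_of_nonneg_right h3 hη
  simp only [sum_const, card_range, nsmul_eq_mul]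
  push_cast at h1
  linarith

theorem var_ind (h : Path a b g) {r s : ℕ} {η Y : ℝ} (hη : 0 ≤ η) (hY0 : 0 ≤ Y)
    (hY : (r : ℝ) * g ≤ Y ^ 2)
    (hU : ∀ x ≤ a r, ∀ y ≤ b r, Gv v 0 (x + s) (y + s) - η ≤ Gv v 1 x y) (m i : ℕ)
    (him : i + m ≤ r) :
    rep (Wp v a b 0 i) (fun H => Qp v a b i m H - Vp v a b i m H ^ 2) 0 ≤
      m * (Y * (g * (s + 1) + r * η)) := by
  induction m generalizing i with
  | zero =>
    have : (fun H => Qp v a b i 0 H - Vp v a b i 0 H ^ 2) = 0 := by ext H; simp [Qp, Vp]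
    rw [this, map_zero]
    simp
  | succ m ih =>
    have h1 := ih (i + 1) (by omega)
    have h2 := unit_sum v h hη hU (i := i) (m := m) (by omega)
    have h3 : (fun H => Qp v a b i (m + 1) H - Vp v a b i (m + 1) H ^ 2) ≤
        rep (Wp v a b i 1) (fun H => Qp v a b (i + 1) m H - Vp v a b (i + 1) m H ^ 2)
          + Y • (Vp v a b (i + 1) m - rep (U 1 v) (Vp v a b (i + 1) m)) := by
      intro H
      obtain ⟨j, hj⟩ := Wp_one v h i
      have hV := cl_Vp v (a := a) (b := b) (i + 1) m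
      have k0 := Vp_le v (a := a) (b := b) (i + 1) m H
      have k1 : Vp v a b (i + 1) m H ≤ r := by
        have k2 : (m : ℝ) ≤ r := by exact_mod_cast (show m ≤ r by omega)
        have k3 := mul_le_mul_of_nonneg_left (phi_le_one H) (Nat.cast_nonneg (α := ℝ) m)
        simp only [Pi.one_apply, mul_one] at k3
        linarith
      have k2 := var_step v j hV H k1 (Vp_two v h (i + 1) m H) hY0 hY
      have k3 : (fun H => Qp v a b (i + 1) m H - Vp v a b (i + 1) m H ^ 2) =
          Qp v a b (i + 1) m - fun H => Vp v a b (i + 1) m H ^ 2 := rfl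
      rw [Qp_succ v h, Vp_succ v h, k3, map_sub, hj]
      simp only [Pi.add_apply, Pi.sub_apply, Pi.smul_apply, smul_eq_mul]
      have k4 := dom_U_one (j + 2) v _ hV H
      have k5 := pos_U (j + 2) v _ hV.nonneg H
      rw [rep_one] at k4
      simp only [Pi.zero_apply] at k5
      by_cases hφ : ∃ σ, H σ = 0
      · rw [show phi H = 1 from ind_pos hφ]
        nlinarith
      · rw [show phi H = 0 from ind_neg hφ] at k0 ⊢
        have k6 : rep (U (j + 2) v) (Vp v a b (i + 1) m) H = 0 := by linarith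
        rw [k6] at k2 ⊢
        linarith
    have h4 := (mk_Wp v (a := a) (b := b) 0 i).pos.mono h3 0
    have e := Wp_add v h 0 i 1
    rw [zero_add] at e
    rw [map_add, map_smul, ← rep_mul, ← e] at h4
    simp only [Pi.add_apply, Pi.smul_apply, smul_eq_mul] at h4
    have h5 := mul_le_mul_of_nonneg_left h2 hY0
    push_cast
    linarith

theorem window (h : Path a b g) {r s : ℕ} {η Y : ℝ} (hη : 0 ≤ η) (hY0 : 0 ≤ Y)
    (hY : (r : ℝ) * g ≤ Y ^ 2)
    (hU : ∀ x ≤ a r, ∀ y ≤ b r, Gv v 0 (x + s) (y + s) - η ≤ Gv v 1 x y) {u u' : ℕ}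
    (hu : u ≤ u') (hr : u' < r) :
    (1 - Gv v 0 (a u) (b u)) * ((u' : ℝ) - u) ^ 2 ≤ 4 * (r * (Y * (g * (s + 1) + r * η))) ∨
      Gv v 0 (a u') (b u') * ((u' : ℝ) - u) ^ 2 ≤ 4 * (r * (Y * (g * (s + 1) + r * η))) := by
  refine cheb (f := fun t => Gv v 0 (a t) (b t))
    (fun t t' ht => Gv_anti v (le_refl 0) (h.mono_a ht) (h.mono_b ht))
    (fun t => Gv_nonneg _ _ _ _) (Gv_le_one _ _ _ _) ?_ hu hr
  have h1 := var_ind v h hη hY0 hY hU r 0 (by omega)
  rw [Wp_zero, rep_one] at h1
  simpa [Qp, Vp, Wp, h.a0, h.b0, Gv, Finset.sum_apply] using h1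

end Var

section Loc

variable {n : ℕ}

/-- The state depends on at most d variables. -/
def Dep (d : ℕ) (H : (Fin n → Bool) → ℕ) : Prop :=
  ∃ S : Finset (Fin n), S.card ≤ d ∧ ∀ σ τ : Fin n → Bool, (∀ i ∈ S, σ i = τ i) → H σ = H τ

/-- The measure involves at most e new variables. -/
def Loc (μ : Alg (Fin n → Bool)) (e : ℕ) : Prop :=
  ∀ (d : ℕ) (g1 g2 : ((Fin n → Bool) → ℕ) → ℝ), (∀ H, Dep (d + e) H → g1 H ≤ g2 H) →
    ∀ H, Dep d H → rep μ g1 H ≤ rep μ g2 H

theorem Loc.mul {μ ν : Alg (Fin n → Bool)} {e e' : ℕ} (h : Loc μ e) (h' : Loc ν e') :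
    Loc (μ * ν) (e + e') := fun d g1 g2 hg H hH => by
  rw [rep_mul, rep_mul]
  exact h d _ _ (h' (d + e) g1 g2 (by rwa [add_assoc])) H hH

theorem Loc.pow {μ : Alg (Fin n → Bool)} {e : ℕ} (h : Loc μ e) (m : ℕ) :
    Loc (μ ^ m) (e * m) := by
  induction m with
  | zero => intro d g1 g2 hg H hH; simpa [rep_one] using hg H hH
  | succ m ih => rw [pow_succ, mul_add, mul_one]; exact ih.mul h

theorem loc_U (k : ℕ) : Loc (U k (sv n)) k := by
  intro d g1 g2 hg H hH
  rw [rep_U, rep_U]
  refine div_le_div_of_nonneg_right (Finset.sum_le_sum fun x _ => hg _ ?_) (by positivity)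
  obtain ⟨S, hS, hd⟩ := hH
  refine ⟨S ∪ univ.image fun i => (x i).1, ?_, fun σ τ hστ => ?_⟩
  · refine (Finset.card_union_le _ _).trans (add_le_add hS ?_)
    simpa using Finset.card_image_le (s := (univ : Finset (Fin k))) (f := fun i => (x i).1)
  · rw [Pi.add_apply, Pi.add_apply, hd σ τ fun i hi => hστ i (mem_union_left _ hi),
      Finset.prod_apply, Finset.prod_apply]
    congr 1
    refine Finset.prod_congr rfl fun i _ => ?_
    rw [sv, sv, hστ _ (mem_union_right _ (mem_image_of_mem _ (mem_univ i)))]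

theorem bet_le [NeZero n] {d : ℕ} {H : (Fin n → Bool) → ℕ} (hH : Dep d H) (hφ : ∃ σ, H σ = 0) :
    bet (sv n) H ≤ d / n := by
  classical
  obtain ⟨S, hS, hd⟩ := hH
  obtain ⟨σ, hσ⟩ := hφ
  have hn : (0 : ℝ) < n := by exact_mod_cast NeZero.pos n
  have h1 : ∑ l : Fin n × Bool, ind (∀ σ, H σ = 0 → sv n l σ ≠ 0) ≤ 2 * d := by
    rw [sum_ind]
    have h2 : (univ.filter fun l : Fin n × Bool => ∀ σ, H σ = 0 → sv n l σ ≠ 0) ⊆ S ×ˢ univ := by
      intro l hl
      rw [mem_product]
      refine ⟨?_, mem_univ _⟩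
      by_contra hc
      refine (mem_filter.1 hl).2 (Function.update σ l.1 l.2) ?_ (by simp [sv])
      rw [← hσ]
      refine hd _ _ fun i hi => Function.update_of_ne ?_ _ _
      rintro rfl
      exact hc hi
    have h3 := Finset.card_le_card h2
    rw [card_product, card_univ, Fintype.card_bool] at h3
    have h4 := h3.trans (show S.card * 2 ≤ 2 * d by omega)
    exact_mod_cast h4
  rw [bet, div_le_div_iff₀ (by exact_mod_cast Fintype.card_pos) hn]
  simp only [Fintype.card_prod, Fintype.card_fin, Fintype.card_bool]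
  push_cast
  nlinarith

theorem early [NeZero n] {a b : ℕ → ℕ} {g : ℕ} (h : Path a b g) {t s : ℕ} {η : ℝ} (hη : 0 ≤ η)
    (hU : ∀ x ≤ a t, ∀ y ≤ b t, G n 0 (x + s) (y + s) - η ≤ G n 1 x y) :
    1 - G n 0 (a t) (b t) ≤ 3 * t / n * (g * s + t * η) := by
  have hn : (0 : ℝ) < n := by exact_mod_cast NeZero.pos n
  have h0 : G n 0 (a 0) (b 0) = 1 := by
    rw [h.a0, h.b0, G, Gv]
    simp only [Op, pow_zero, mul_one, rep_one]
    exact ind_pos ⟨fun _ => true, rfl⟩
  have h1 : ∀ u ∈ range t, G n 0 (a u) (b u) - G n 0 (a (u + 1)) (b (u + 1)) ≤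
      3 * t / n * ((G n 0 (a u) (b u) - G n 0 (a (u + g * s)) (b (u + g * s))) + η) := by
    intro u hu
    have hu' := mem_range.1 hu
    obtain ⟨j, hj⟩ := Wp_one (sv n) h u
    have e1 : Op (sv n) 0 (a (u + 1)) (b (u + 1)) = Op (sv n) 0 (a u) (b u) * U (j + 2) (sv n) := by
      have := Wp_add (sv n) h 0 u 1
      rw [zero_add, hj] at this
      simpa [Wp, h.a0, h.b0] using this
    have e2 : Op (sv n) 1 (a u) (b u) = Op (sv n) 0 (a u) (b u) * U 1 (sv n) := by
      simp only [Op]; ring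
    have k1 : Loc (Op (sv n) 0 (a u) (b u)) (1 * 0 + 2 * a u + 3 * b u) :=
      (((loc_U 1).pow 0).mul ((loc_U 2).pow _)).mul ((loc_U 3).pow _)
    have k2 := k1 0 (phi - rep (U (j + 2) (sv n)) phi)
      ((3 * t / n : ℝ) • (phi - rep (U 1 (sv n)) phi)) (fun H hH => by
        simp only [Pi.sub_apply, Pi.smul_apply, smul_eq_mul, rep_U_phi, sub_sub_cancel, pow_one]
        by_cases hφ : ∃ σ, H σ = 0
        · have k3 := bet_le hH hφ
          have k4 := h.sum u
          have k5 : ((0 + (1 * 0 + 2 * a u + 3 * b u) : ℕ) : ℝ) ≤ 3 * t := by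
            exact_mod_cast (by omega : 0 + (1 * 0 + 2 * a u + 3 * b u) ≤ 3 * t)
          have k6 : bet (sv n) H ≤ 3 * t / n := k3.trans (by gcongr)
          have k7 := bet_nonneg (sv n) H
          have k8 : bet (sv n) H ^ (j + 2) ≤ bet (sv n) H ^ 2 :=
            pow_le_pow_of_le_one k7 (bet_le_one _ _) (by omega)
          rw [show phi H = 1 from ind_pos hφ]
          nlinarith
        · rw [show phi H = 0 from ind_neg hφ]; simp) 0 ⟨∅, by simp, fun _ _ _ => rfl⟩
    rw [map_smul, map_sub, map_sub, ← rep_mul, ← rep_mul, ← e1, ← e2] at k2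
    have k3 := hU (a u) (h.mono_a hu'.le) (b u) (h.mono_b hu'.le)
    have k4 := G_anti (NeZero.pos n) (le_refl 0) (h.gap_mul u s).1 (h.gap_mul u s).2
    refine le_trans k2 ?_
    show 3 * t / n * (G n 0 (a u) (b u) - G n 1 (a u) (b u)) ≤ _
    exact mul_le_mul_of_nonneg_left (by linarith) (by positivity)
  have h2 := Finset.sum_le_sum h1
  rw [Finset.sum_range_sub' (fun u => G n 0 (a u) (b u)), h0, ← Finset.mul_sum,
    Finset.sum_add_distrib] at h2
  have h3 := telescope (F := fun u => G n 0 (a u) (b u)) (fun u => G_nonneg (NeZero.pos n) _ _ _)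
    (fun u => G_le_one (NeZero.pos n) _ _ _) t (g * s)
  refine h2.trans (mul_le_mul_of_nonneg_left ?_ (by positivity))
  simp only [sum_const, card_range, nsmul_eq_mul]
  push_cast at h3
  linarith

end Loc

end Pool.Agent.Lib.MP_4fe7bc_pr.Thr
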