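import Mathlib

set_option autoImplicit false
set_option linter.unusedSectionVars false
set_option linter.unusedVariables false

open Filter Topology

namespace Pool.Agent.Lib.MP_4fe7bc_pr.Thr

/-- The relative width of the window. -/
noncomputable def om (x : ℝ) : ℝ := x ^ (-(1 / 8) : ℝ)

theorem om_pos {x : ℝ} (h : 0 < x) : 0 < om x := Real.rpow_pos_of_pos h _

theorem om_anti {x y : ℝ} (h : 0 < x) (hxy : x ≤ y) : om y ≤ om x :=
  Real.rpow_le_rpow_of_nonpos h hxy (by norm_num)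

theorem mul_om {x : ℝ} (h : 0 < x) : x * om x = x ^ (7 / 8 : ℝ) := by
  rw [om, show (7 / 8 : ℝ) = 1 + -(1 / 8) by norm_num, Real.rpow_add h, Real.rpow_one]

theorem tendsto_om : Tendsto (fun n : ℕ => om n) atTop (𝓝 0) :=
  (tendsto_rpow_neg_atTop (by norm_num)).comp tendsto_natCast_atTop_atTop

theorem om_two_thirds {x : ℝ} (h : 0 < x) :
    om (2 / 3 * x) = (3 / 2 : ℝ) ^ (1 / 8 : ℝ) * om x := by
  rw [om, om, Real.mul_rpow (by norm_num) h.le, Real.rpow_neg (by norm_num),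
    ← Real.inv_rpow (by norm_num)]
  norm_num

theorem ev_small {δ : ℝ} (hδ : 0 < δ) (M : ℝ) :
    ∀ᶠ n : ℕ in atTop, (n : ℝ) ^ (7 / 8 : ℝ) + M ≤ δ * n := by
  have h1 := tendsto_om.eventually (gt_mem_nhds (show 0 < δ / 2 by linarith))
  have h2 := (tendsto_natCast_atTop_atTop (R := ℝ)).eventually (eventually_ge_atTop (2 * M / δ))
  filter_upwards [h1, h2, eventually_gt_atTop 0] with n h1 h2 h3
  have hn : (0 : ℝ) < n := by exact_mod_cast h3
  rw [← mul_om hn]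
  rw [div_le_iff₀ hδ] at h2
  nlinarith

theorem exp_le_one_sub {y : ℝ} (h0 : 0 ≤ y) (h1 : y ≤ 1 / 2) : Real.exp (-(2 * y)) ≤ 1 - y := by
  rw [Real.exp_neg, inv_le_comm₀ (Real.exp_pos _) (by linarith)]
  refine le_trans ?_ (Real.add_one_le_exp _)
  rw [inv_le_iff_one_le_mul₀ (by linarith)]
  nlinarith

/-- At density at most θ the probability is at least one half. -/
def Good (f : ℕ → ℕ → ℝ) (n : ℕ) (θ : ℝ) : Prop := ∀ t : ℕ, (t : ℝ) ≤ θ * n → 1 / 2 ≤ f n t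

theorem Good.mono {f : ℕ → ℕ → ℝ} {n : ℕ} {θ θ' : ℝ} (h : Good f n θ) (hθ : θ' ≤ θ) :
    Good f n θ' := fun t ht => h t (ht.trans (by gcongr))

/-- The properties of the satisfiability probabilities that force a sharp threshold. -/
structure Hyp (f : ℕ → ℕ → ℝ) (c0 g : ℝ) : Prop where
  c0_pos : 0 < c0
  g_nonneg : 0 ≤ g
  nonneg : ∀ n t, 0 < n → 0 ≤ f n t
  le_one : ∀ n t, 0 < n → f n t ≤ 1
  anti : ∀ n, 0 < n → Antitone (f n)
  win : ∀ c, 0 < c → c < c0 → ∀ ε, 0 < ε → ∀ᶠ n : ℕ in atTop, ∀ u u' : ℕ,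
    u + (n : ℝ) ^ (7 / 8 : ℝ) ≤ u' → (u' : ℝ) ≤ c * n → 1 - ε ≤ f n u ∨ f n u' ≤ ε
  early : ∀ M : ℝ, ∀ᶠ n : ℕ in atTop, ∀ t : ℕ, (t : ℝ) ≤ M * (n : ℝ) ^ (7 / 8 : ℝ) →
    1 / 2 ≤ f n t
  interp : ∀ (n1 n2 t t1 t2 : ℕ) (D : ℝ), 0 < n1 → 0 < n2 → 1 ≤ D →
    (t : ℝ) * n1 / (n1 + n2) + g * D ≤ t1 → (t : ℝ) * n2 / (n1 + n2) + g * D ≤ t2 →
    f n1 t1 * f n2 t2 - t / D ^ 2 ≤ f (n1 + n2) t
  rest : ∀ n0 n t : ℕ, 0 < n0 → n0 ≤ n → ((n0 : ℝ) / n) ^ (3 * t) * f n0 t ≤ f n t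

variable {f : ℕ → ℕ → ℝ} {c0 g : ℝ}

theorem Hyp.merge (h : Hyp f c0 g) {c : ℝ} (hc : 0 < c) (hc0 : c < c0) :
    ∃ N0 : ℕ, 0 < N0 ∧ ∀ n1 n2 : ℕ, N0 ≤ n1 → N0 ≤ n2 → n1 + n2 ≤ 3 * n1 → n1 + n2 ≤ 3 * n2 →
      ∀ θ, θ ≤ c → Good f n1 θ → Good f n2 θ →
      Good f (n1 + n2) (θ - 3 * (g + 3) * om ((n1 + n2 : ℕ) : ℝ)) := by
  have hg := h.g_nonneg
  have e1 := h.win c hc hc0 (1 / 8) (by norm_num)
  have e2 : ∀ᶠ n : ℕ in atTop, 8 * c ≤ (n : ℝ) ^ (3 / 4 : ℝ) :=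
    ((tendsto_rpow_atTop (by norm_num)).comp tendsto_natCast_atTop_atTop).eventually
      (eventually_ge_atTop _)
  obtain ⟨N0, hN0⟩ := eventually_atTop.1 (e1.and (e2.and (eventually_gt_atTop 0)))
  refine ⟨N0, (hN0 N0 le_rfl).2.2, fun n1 n2 h1 h2 h3 h4 θ hθ g1 g2 t ht => ?_⟩
  have p1 := (hN0 n1 h1).2.2
  have p2 := (hN0 n2 h2).2.2
  set n : ℝ := ((n1 + n2 : ℕ) : ℝ) with hn
  have hn1 : 1 ≤ n := by rw [hn]; exact_mod_cast (show 1 ≤ n1 + n2 by omega)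
  have hn0 : 0 < n := by linarith
  set w : ℝ := n ^ (7 / 8 : ℝ) with hw
  have hw1 : 1 ≤ w := Real.one_le_rpow hn1 (by norm_num)
  have ht' : (t : ℝ) ≤ θ * n - 3 * (g + 3) * w := by
    rw [hw, ← mul_om hn0]; linarith
  have side : ∀ m : ℕ, N0 ≤ m → (m : ℝ) ≤ n → n ≤ 3 * m → Good f m θ →
      7 / 8 ≤ f m ⌈(t : ℝ) * m / n + g * w⌉₊ := by
    intro m k1 k2 k3 k4
    have hm0 : (0 : ℝ) < m := by exact_mod_cast (hN0 m k1).2.2
    have k5 : (m : ℝ) ^ (7 / 8 : ℝ) ≤ w := Real.rpow_le_rpow hm0.le k2 (by norm_num)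
    have k6 := Nat.ceil_lt_add_one (show 0 ≤ (t : ℝ) * m / n + g * w by positivity)
    have k7 := Nat.ceil_lt_add_one (show 0 ≤ (m : ℝ) ^ (7 / 8 : ℝ) by positivity)
    have k8 : (t : ℝ) * m / n ≤ θ * m - (g + 3) * w := by
      rw [div_le_iff₀ hn0]
      have k9 := mul_le_mul_of_nonneg_right ht' hm0.le
      have k10 : (g + 3) * w * n ≤ (g + 3) * w * (3 * m) := by gcongr
      nlinarith
    have k9 : ((⌈(t : ℝ) * m / n + g * w⌉₊ + ⌈(m : ℝ) ^ (7 / 8 : ℝ)⌉₊ : ℕ) : ℝ) ≤ θ * m := by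
      push_cast; linarith
    have k10 := k4 _ k9
    rcases (hN0 m k1).1 ⌈(t : ℝ) * m / n + g * w⌉₊ _
      (by push_cast; gcongr; exact Nat.le_ceil _) (k9.trans (by gcongr)) with k11 | k11
    · linarith
    · linarith
  have s1 := side n1 h1 (by rw [hn]; exact_mod_cast (by omega)) (by rw [hn]; exact_mod_cast h3) g1
  have s2 := side n2 h2 (by rw [hn]; exact_mod_cast (by omega)) (by rw [hn]; exact_mod_cast h4) g2
  have hnn : n = n1 + n2 := by rw [hn]; push_cast; rfl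
  have s3 := h.interp n1 n2 t _ _ w p1 p2 hw1 (by rw [← hnn]; exact Nat.le_ceil _)
    (by rw [← hnn]; exact Nat.le_ceil _)
  have s4 : (t : ℝ) / w ^ 2 ≤ 1 / 8 := by
    have k1 := (hN0 (n1 + n2) (by omega)).2.1
    rw [← hn] at k1
    have k2 : w ^ 2 = n * n ^ (3 / 4 : ℝ) := by
      rw [hw, sq, ← Real.rpow_add hn0, ← Real.rpow_one_add' hn0.le (by norm_num)]
      norm_num
    have k3 : (t : ℝ) ≤ c * n := by
      have : θ * n ≤ c * n := by gcongr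
      have : 0 ≤ 3 * (g + 3) * w := by positivity
      linarith
    rw [div_le_iff₀ (by positivity), k2]
    nlinarith
  have s5 : 7 / 8 * (7 / 8) ≤ f n1 ⌈(t : ℝ) * n1 / n + g * w⌉₊ * f n2 ⌈(t : ℝ) * n2 / n + g * w⌉₊ :=
    mul_le_mul s1 s2 (by norm_num) (by linarith)
  linarith

theorem Hyp.chain (h : Hyp f c0 g) : ∃ C : ℝ, 0 ≤ C ∧ ∀ c, 0 < c → c < c0 →
    ∃ N0 : ℕ, 0 < N0 ∧ ∀ n0, N0 ≤ n0 → ∀ θ, θ ≤ c → Good f n0 θ → ∀ k, 1 ≤ k →
      Good f (k * n0) (θ - C * om n0) := by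
  have hg := h.g_nonneg
  set γ : ℝ := (3 / 2 : ℝ) ^ (1 / 8 : ℝ) - 1 with hγ
  have hγ0 : 0 < γ := sub_pos.2 (Real.one_lt_rpow (by norm_num) (by norm_num))
  set C : ℝ := 3 * (g + 3) / γ with hC
  have hC0 : 0 ≤ C := by positivity
  refine ⟨C, hC0, fun c hc hc0 => ?_⟩
  obtain ⟨N0, hN0, hm⟩ := h.merge hc hc0
  refine ⟨N0, hN0, fun n0 hn0 θ hθ hG => ?_⟩
  have hn : (0 : ℝ) < n0 := by exact_mod_cast (show 0 < n0 by omega)
  have key : ∀ k, 1 ≤ k → Good f (k * n0) (θ - C * (om n0 - om ((k * n0 : ℕ) : ℝ))) := by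
    intro k
    induction k using Nat.strong_induction_on with
    | _ k ih =>
      intro hk
      rcases eq_or_lt_of_le hk with rfl | hk2
      · simpa using hG
      obtain ⟨k1, k2, rfl, q1, q2, q3, q4⟩ : ∃ k1 k2, k = k1 + k2 ∧ 1 ≤ k1 ∧ k1 ≤ k2 ∧
          k1 + k2 ≤ 3 * k1 ∧ 3 * k2 ≤ 2 * (k1 + k2) := ⟨k / 2, k - k / 2, by omega⟩
      have i1 := ih k1 (by omega) q1
      have i2 := ih k2 (by omega) (by omega)
      have a1 : n0 ≤ k1 * n0 := Nat.le_mul_of_pos_left _ q1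
      have a2 : k1 * n0 ≤ k2 * n0 := Nat.mul_le_mul_right _ q2
      have b1 : (n0 : ℝ) ≤ ((k1 * n0 : ℕ) : ℝ) := by exact_mod_cast a1
      have b2 : ((k1 * n0 : ℕ) : ℝ) ≤ ((k2 * n0 : ℕ) : ℝ) := by exact_mod_cast a2
      have c1 := om_anti (hn.trans_le b1) b2
      have c2 := om_anti hn (b1.trans b2)
      have j1 : Good f (k1 * n0) (θ - C * (om n0 - om ((k2 * n0 : ℕ) : ℝ))) :=
        i1.mono (by gcongr)
      have j2 := hm (k1 * n0) (k2 * n0) (by omega) (by omega) (by nlinarith) (by nlinarith) _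
        (by nlinarith) j1 i2
      rw [← add_mul] at j2
      refine j2.mono ?_
      have d0 : (0 : ℝ) < (((k1 + k2) * n0 : ℕ) : ℝ) := by
        exact_mod_cast (show 0 < (k1 + k2) * n0 by rw [add_mul]; omega)
      have d1 : ((k2 * n0 : ℕ) : ℝ) ≤ 2 / 3 * (((k1 + k2) * n0 : ℕ) : ℝ) := by
        have : (3 * k2 : ℝ) ≤ 2 * (k1 + k2) := by exact_mod_cast q4
        push_cast
        nlinarith
      have d2 := om_anti (hn.trans_le (b1.trans b2)) d1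
      rw [om_two_thirds d0, show (3 / 2 : ℝ) ^ (1 / 8 : ℝ) = γ + 1 by rw [hγ]; ring] at d2
      have d3 : C * γ = 3 * (g + 3) := by rw [hC]; field_simp
      have d4 := mul_le_mul_of_nonneg_left d2 hC0
      rw [← d3]
      nlinarith
  intro k hk
  refine (key k hk).mono ?_
  have : 0 < om ((k * n0 : ℕ) : ℝ) :=
    om_pos (by exact_mod_cast Nat.mul_pos hk (show 0 < n0 by omega))
  nlinarith

theorem Hyp.to_one (h : Hyp f c0 g) {n0 : ℕ} (hn0 : 0 < n0) {θ α : ℝ} (hθ : θ < c0)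
    (hα0 : 0 ≤ α) (hα : α < θ) (hG : ∀ k, 1 ≤ k → Good f (k * n0) θ) :
    Tendsto (fun n : ℕ => f n ⌊α * n⌋₊) atTop (𝓝 1) := by
  have hθ0 : 0 < θ := by linarith
  refine tendsto_order.2 ⟨fun y hy => ?_, fun y hy => ?_⟩
  swap
  · filter_upwards [eventually_gt_atTop 0] with n hn
    exact (h.le_one n _ hn).trans_lt hy
  set δ := Real.exp (-(6 * θ * n0)) / 2 with hδ
  have hδ0 : 0 < δ := by positivity
  set ε := min (δ / 2) ((1 - y) / 2) with hε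
  have hε0 : 0 < ε := lt_min (by linarith) (by linarith)
  have hε1 : ε ≤ δ / 2 := min_le_left _ _
  have hε2 : ε ≤ (1 - y) / 2 := min_le_right _ _
  filter_upwards [h.win θ hθ0 hθ ε hε0, ev_small (sub_pos.2 hα) (1 + θ * n0),
    eventually_ge_atTop (2 * n0)] with n e1 e2 e3
  have hn : (0 : ℝ) < n := by exact_mod_cast (show 0 < n by omega)
  have hn0' : (0 : ℝ) < n0 := by exact_mod_cast hn0
  have e3' : (2 * n0 : ℝ) ≤ n := by exact_mod_cast e3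
  have k1 : 1 ≤ n / n0 := (Nat.one_le_div_iff hn0).2 (by omega)
  have k2 : n / n0 * n0 ≤ n := Nat.div_mul_le_self n n0
  have k3 : n ≤ n / n0 * n0 + n0 := (Nat.lt_div_mul_add hn0).le
  set m := n / n0 * n0 with hm
  have k3' : (n : ℝ) ≤ m + n0 := by exact_mod_cast k3
  have k2' : (m : ℝ) ≤ n := by exact_mod_cast k2
  have k4 := Nat.floor_le (show 0 ≤ α * n by positivity)
  have k5 := Nat.ceil_lt_add_one (show 0 ≤ (n : ℝ) ^ (7 / 8 : ℝ) by positivity)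
  set u := ⌊α * n⌋₊ + ⌈(n : ℝ) ^ (7 / 8 : ℝ)⌉₊ with hu
  have k6 : (u : ℝ) ≤ θ * m := by
    have : θ * n ≤ θ * (m + n0) := by gcongr
    rw [hu]; push_cast; linarith
  have k7 : (u : ℝ) ≤ θ * n := k6.trans (by gcongr)
  have k8 := hG _ k1 u k6
  have k9 := h.rest m n u (by omega) k2
  have k10 : Real.exp (-(6 * θ * n0)) ≤ ((m : ℝ) / n) ^ (3 * u) := by
    have l1 := exp_le_one_sub (y := n0 / n) (by positivity) (by
      rw [div_le_iff₀ hn]; linarith)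
    have l2 : 1 - (n0 : ℝ) / n ≤ m / n := by
      rw [one_sub_div hn.ne']; gcongr; linarith
    refine le_trans ?_ (pow_le_pow_left₀ (Real.exp_pos _).le (l1.trans l2) _)
    rw [← Real.exp_nat_mul, Real.exp_le_exp]
    have l3 : (u : ℝ) * (n0 / n) ≤ θ * n0 := by
      calc _ ≤ θ * n * (n0 / n) := by gcongr
        _ = _ := by field_simp
    push_cast
    linarith
  have k11 : δ ≤ f n u := by
    refine le_trans ?_ k9
    rw [hδ, div_eq_mul_one_div]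
    exact mul_le_mul k10 k8 (by norm_num) (by positivity)
  rcases e1 ⌊α * n⌋₊ u (by rw [hu]; push_cast; gcongr; exact Nat.le_ceil _) k7 with k | k
  · linarith
  · linarith

theorem Hyp.threshold (h : Hyp f c0 g) : ∃ a, 0 < a ∧ a ≤ c0 ∧
    (∀ α, 0 ≤ α → α < a → Tendsto (fun n : ℕ => f n ⌊α * n⌋₊) atTop (𝓝 1)) ∧
    (∀ α, a < α → α < c0 → Tendsto (fun n : ℕ => f n ⌊α * n⌋₊) atTop (𝓝 0)) := by
  obtain ⟨C, hC, hch⟩ := h.chain
  have hc0 := h.c0_pos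
  set S : Set ℝ := {α | α < c0 ∧ ∃ᶠ n : ℕ in atTop, Good f n α} with hS
  have hbdd : BddAbove S := ⟨c0, fun α hα => hα.1.le⟩
  obtain ⟨θ0, hθ0, hθS⟩ : ∃ θ0, 0 < θ0 ∧ θ0 ∈ S := by
    obtain ⟨N0, hN0, hN⟩ := hch (c0 / 2) (by linarith) (by linarith)
    have e1 : ∀ᶠ n : ℕ in atTop, (C + 1) * om n < c0 / 2 := by
      have := tendsto_om.const_mul (C + 1)
      rw [mul_zero] at this
      exact this.eventually (gt_mem_nhds (by linarith))
    obtain ⟨n0, e2, e3, e4⟩ := ((h.early (C + 1)).and (e1.and (eventually_ge_atTop N0))).exists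
    have hn : (0 : ℝ) < n0 := by exact_mod_cast (show 0 < n0 by omega)
    have e5 := hN n0 e4 _ e3.le fun t ht => e2 t (by rw [← mul_om hn]; linarith)
    have e6 := om_pos hn
    refine ⟨om n0, e6, by nlinarith, frequently_atTop.2 fun N => ⟨(N + 1) * n0, ?_, ?_⟩⟩
    · exact le_trans (Nat.le_succ N) (Nat.le_mul_of_pos_right _ (by omega))
    · exact (e5 (N + 1) (by omega)).mono (le_of_eq (by ring))
  have hle : θ0 ≤ sSup S := le_csSup hbdd hθS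
  refine ⟨sSup S, by linarith, csSup_le ⟨θ0, hθS⟩ fun α hα => hα.1.le, fun α hα0 hα => ?_,
    fun α hα hα1 => ?_⟩
  · obtain ⟨θ, hθ, hαθ⟩ := exists_lt_of_lt_csSup ⟨θ0, hθS⟩ hα
    obtain ⟨N0, hN0, hN⟩ := hch θ (by linarith) hθ.1
    have e1 : ∀ᶠ n : ℕ in atTop, C * om n < θ - α := by
      have := tendsto_om.const_mul C
      rw [mul_zero] at this
      exact this.eventually (gt_mem_nhds (by linarith))
    obtain ⟨n0, e2, e3, e4⟩ := (hθ.2.and_eventually (e1.and (eventually_ge_atTop N0))).exists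
    have hn : (0 : ℝ) < n0 := by exact_mod_cast (show 0 < n0 by omega)
    have e5 : 0 ≤ C * om n0 := mul_nonneg hC (om_pos hn).le
    exact h.to_one (n0 := n0) (by omega) (θ := θ - C * om n0) (by linarith [hθ.1]) hα0
      (by linarith) (hN n0 e4 θ le_rfl e2)
  · obtain ⟨β, hβ1, hβ2⟩ := exists_between hα
    have hβ : ∀ᶠ n : ℕ in atTop, ¬ Good f n β := by
      rw [← not_frequently]
      intro hf
      exact absurd (le_csSup hbdd ⟨by linarith, hf⟩) (not_le.2 hβ1)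
    have hα0 : 0 < α := by linarith
    refine tendsto_order.2 ⟨fun y hy => ?_, fun y hy => ?_⟩
    · filter_upwards [eventually_gt_atTop 0] with n hn
      exact hy.trans_le (h.nonneg n _ hn)
    set ε := min (1 / 4) (y / 2) with hε
    have hε0 : 0 < ε := lt_min (by norm_num) (by linarith)
    have hε1 : ε ≤ 1 / 4 := min_le_left _ _
    have hε2 : ε ≤ y / 2 := min_le_right _ _
    filter_upwards [hβ, h.win α hα0 hα1 ε hε0, ev_small (sub_pos.2 hβ2) 1] with n e1 e2 e3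
    simp only [Good, not_forall, not_le] at e1
    obtain ⟨t, e4, e5⟩ := e1
    have k1 := Nat.lt_floor_add_one (α * n)
    rcases e2 t ⌊α * n⌋₊ (by linarith) (Nat.floor_le (by positivity)) with k | k
    · linarith
    · linarith

end Pool.Agent.Lib.MP_4fe7bc_pr.Thr
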