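import Pool.Agent.Lib.MP_4fe7bc_pr.T2
import Pool.Agent.Lib.MP_4fe7bc_pr.T5

set_option autoImplicit false
set_option linter.unusedSectionVars false
set_option linter.unusedVariables false

open Finset Filter Topology

namespace Pool.Agent.Lib.MP_4fe7bc_pr.Thr

variable {n : ℕ}

/-- Adding a uniformly random clause on distinct variables. -/
noncomputable def dist (n k : ℕ) : Alg (Fin n → Bool) := un (clE 1 : Clause n k → _)

theorem rep_dist (n k : ℕ) : rep (dist n k) = clOp n k 1 := by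
  ext g H
  rw [dist, rep_un, clOp, avg_apply, Finset.sum_div]
  exact Finset.sum_congr rfl fun C _ => by ring

theorem satProb_eq (hn : 3 ≤ n) (m2 m3 : ℕ) :
    satProb n m2 m3 = rep (dist n 2 ^ m2 * dist n 3 ^ m3) phi 0 := by
  classical
  have := clause_nonempty (show 2 ≤ n by omega)
  have := clause_nonempty hn
  have hp2 : (0 : ℝ) < Fintype.card (Clause n 2) := by exact_mod_cast Fintype.card_pos
  have hp3 : (0 : ℝ) < Fintype.card (Clause n 3) := by exact_mod_cast Fintype.card_pos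
  rw [map_mul, map_pow, map_pow, rep_dist, rep_dist, Module.End.mul_apply, clOp, avg_pow_uniform]
  simp only [clOp, avg_pow_uniform]
  rw [← Finset.mul_sum, satProb, Nat.card_eq_fintype_card, Nat.card_eq_fintype_card,
    Fintype.card_subtype, ← sum_ind, Fintype.sum_prod_type, Fintype.card_prod, Fintype.card_fun,
    Fintype.card_fun, Fintype.card_fin, Fintype.card_fin]
  have h1 : ∑ c : Fin m2 → Clause n 2, ∑ d : Fin m3 → Clause n 3,
      ind (∃ σ : Fin n → Bool, (∀ i, Sat σ (c i)) ∧ ∀ j, Sat σ (d j)) =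
      ∑ c : Fin m2 → Clause n 2, ∑ d : Fin m3 → Clause n 3,
        phi (0 + ∑ i, clE 1 (c i) + ∑ j, clE 1 (d j)) := by
    refine Finset.sum_congr rfl fun c _ => Finset.sum_congr rfl fun d _ => ?_
    rw [phi]
    congr 1
    apply propext
    refine exists_congr fun σ => ?_
    simp [Finset.sum_apply, clE, pen]
  push_cast
  rw [h1, one_div_pow, one_div_pow]
  field_simp

/-- Orderings of a clause. -/
abbrev Fib {k : ℕ} (C : Clause n k) : Type := {x : Fin k → Fin n × Bool // univ.image x = C.1}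

theorem fib_mem {k : ℕ} {C : Clause n k} (x : Fib C) (i : Fin k) : x.1 i ∈ C.1 := by
  have := mem_image_of_mem x.1 (mem_univ i)
  rwa [x.2] at this

theorem card_fib {k : ℕ} (C : Clause n k) : Fintype.card (Fib C) = k.factorial := by
  classical
  have e : Fib C ≃ (Fin k ↪ C.1) :=
    { toFun := fun x => ⟨fun i => ⟨x.1 i, fib_mem x i⟩, fun i j hij => by
        have h1 : (univ.image x.1).card = (univ : Finset (Fin k)).card := by
          rw [x.2, C.2.1]; simp
        exact Finset.card_image_iff.1 h1 (mem_coe.2 (mem_univ i)) (mem_coe.2 (mem_univ j))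
          (congrArg Subtype.val hij)⟩
      invFun := fun e => ⟨fun i => (e i).1, by
        apply Finset.eq_of_subset_of_card_le
        · intro l hl
          obtain ⟨i, _, rfl⟩ := mem_image.1 hl
          exact (e i).2
        · rw [Finset.card_image_of_injective _ fun i j hij => e.injective (Subtype.ext hij),
            C.2.1]
          simp⟩
      left_inv := fun x => rfl
      right_inv := fun e => rfl }
  rw [Fintype.card_congr e, Fintype.card_embedding_eq, Fintype.card_coe, C.2.1, Fintype.card_fin,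
    Nat.descFactorial_self]

theorem prod_sv_eq {k : ℕ} (C : Clause n k) (x : Fib C) : ∏ i, sv n (x.1 i) = clE 1 C := by
  ext σ
  rw [Finset.prod_apply, clE, pen]
  split_ifs with h
  · obtain ⟨l, hl, h2⟩ := h
    rw [← x.2] at hl
    obtain ⟨i, _, rfl⟩ := mem_image.1 hl
    exact Finset.prod_eq_zero (mem_univ i) (by simp [sv, h2])
  · refine Finset.prod_eq_one fun i _ => ?_
    rw [sv, if_neg]
    intro h2
    exact h ⟨x.1 i, fib_mem x i, h2⟩

theorem sum_clause_le (k : ℕ) (h : ((Fin n → Bool) → ℕ) → ℝ) (hh : 0 ≤ h) :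
    k.factorial * ∑ C : Clause n k, h (clE 1 C) ≤
      ∑ x : Fin k → Fin n × Bool, h (∏ i, sv n (x i)) := by
  classical
  have e1 : k.factorial * ∑ C : Clause n k, h (clE 1 C) =
      ∑ p : Σ C : Clause n k, Fib C, h (∏ i, sv n (p.2.1 i)) := by
    rw [Fintype.sum_sigma, Finset.mul_sum]
    refine Finset.sum_congr rfl fun C _ => ?_
    simp only [prod_sv_eq]
    rw [sum_const, card_univ, card_fib, nsmul_eq_mul]
  have hinj : Function.Injective fun p : Σ C : Clause n k, Fib C => p.2.1 := by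
    rintro ⟨C, x, hx⟩ ⟨C', x', hx'⟩ hp
    simp only at hp
    subst hp
    have : C = C' := Subtype.ext (hx.symm.trans hx')
    subst this
    rfl
  rw [e1]
  exact (Finset.sum_map univ ⟨_, hinj⟩ fun x => h (∏ i, sv n (x i))).symm.le.trans
    (Finset.sum_le_univ_sum_of_nonneg fun x => hh _)

theorem card_clause_ge (k : ℕ) :
    n.descFactorial k * 2 ^ k ≤ k.factorial * Fintype.card (Clause n k) := by
  classical
  have e1 : Fintype.card (Σ C : Clause n k, Fib C) = k.factorial * Fintype.card (Clause n k) := by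
    rw [Fintype.card_sigma]
    simp only [card_fib]
    rw [sum_const, card_univ, smul_eq_mul, mul_comm]
  have e2 : Fintype.card ((Fin k ↪ Fin n) × (Fin k → Bool)) = n.descFactorial k * 2 ^ k := by
    simp
  rw [← e1, ← e2]
  refine Fintype.card_le_of_injective
    (fun p => ⟨⟨univ.image fun i => (p.1 i, p.2 i), ?_, ?_⟩, ⟨fun i => (p.1 i, p.2 i), rfl⟩⟩) ?_
  · rw [Finset.card_image_of_injective _ fun i j hij => p.1.injective (congrArg Prod.fst hij)]
    simp
  · intro l hl l' hl' h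
    obtain ⟨i, _, rfl⟩ := mem_image.1 hl
    obtain ⟨j, _, rfl⟩ := mem_image.1 hl'
    rw [p.1.injective h]
  · intro p q hpq
    have h1 := congrArg (fun r : Σ C : Clause n k, Fib C => r.2.1) hpq
    simp only at h1
    refine Prod.ext ?_ ?_
    · ext i : 1
      exact congrArg Prod.fst (congrFun h1 i)
    · ext i : 1
      exact congrArg Prod.snd (congrFun h1 i)

theorem domP_dist (hn : 3 ≤ n) {k : ℕ} (hk : k ≤ n) {κ : ℝ}
    (hκ : κ * (n : ℝ) ^ k ≤ n.descFactorial k) : DomP (κ • dist n k) (U k (sv n)) := by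
  intro g hg H
  have := clause_nonempty hk
  have hp : (0 : ℝ) < Fintype.card (Clause n k) := by exact_mod_cast Fintype.card_pos
  have hn0 : (0 : ℝ) < n := by exact_mod_cast (show 0 < n by omega)
  have h1 := sum_clause_le k (fun y => g (H + y)) fun y => hg (H + y)
  have h2 : (n.descFactorial k : ℝ) * 2 ^ k ≤ k.factorial * Fintype.card (Clause n k) := by
    exact_mod_cast card_clause_ge k
  have h3 : 0 ≤ ∑ C : Clause n k, g (H + clE 1 C) := Finset.sum_nonneg fun C _ => hg _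
  rw [rep_smul, dist, rep_un, rep_U]
  simp only [Fintype.card_prod, Fintype.card_fin, Fintype.card_bool]
  push_cast
  rw [le_div_iff₀ (by positivity)]
  refine le_trans ?_ h1
  have h4 : κ * (n * 2) ^ k ≤ k.factorial * Fintype.card (Clause n k) := by
    refine le_trans ?_ h2
    rw [mul_pow, ← mul_assoc]
    gcongr
  calc _ = κ * (n * 2) ^ k * ((∑ C : Clause n k, g (H + clE 1 C)) / Fintype.card (Clause n k)) := by
        ring
    _ ≤ k.factorial * Fintype.card (Clause n k) *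
        ((∑ C : Clause n k, g (H + clE 1 C)) / Fintype.card (Clause n k)) := by gcongr
    _ = _ := by field_simp

theorem transfer (hn : 6 ≤ n) (a b : ℕ) :
    Real.exp (-(6 * (a + b) / n)) * satProb n a b ≤ G n 0 a b ∧
      Real.exp (-(6 * (a + b) / n)) * (1 - satProb n a b) ≤ 1 - G n 0 a b := by
  have hn6 : (6 : ℝ) ≤ n := by exact_mod_cast hn
  have hn0 : (0 : ℝ) < n := by linarith
  have : NeZero n := ⟨by omega⟩
  have := clause_nonempty (show 2 ≤ n by omega)
  have := clause_nonempty (show 3 ≤ n by omega)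
  set κ := Real.exp (-(2 * (3 / n))) with hκ
  have hκ0 : 0 ≤ κ := (Real.exp_pos _).le
  have hκ1 : κ ≤ 1 - 3 / n := exp_le_one_sub (by positivity) (by
    rw [div_le_iff₀ hn0]; linarith)
  obtain ⟨m, rfl⟩ : ∃ m, n = m + 2 := ⟨n - 2, by omega⟩
  have hm : (4 : ℝ) ≤ m := by exact_mod_cast (show 4 ≤ m by omega)
  have d2 := domP_dist (n := m + 2) (by omega) (k := 2) (by omega) (κ := κ) (by
    refine (mul_le_mul_of_nonneg_right hκ1 (by positivity)).trans ?_
    simp only [Nat.descFactorial_succ, Nat.descFactorial_zero]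
    push_cast
    have : (1 - 3 / ((m : ℝ) + 2)) * (m + 2) ^ 2 = (m - 1) * (m + 2) := by field_simp; ring
    rw [this]
    nlinarith)
  have d3 := domP_dist (n := m + 2) (by omega) (k := 3) (by omega) (κ := κ) (by
    refine (mul_le_mul_of_nonneg_right hκ1 (by positivity)).trans ?_
    simp only [Nat.descFactorial_succ, Nat.descFactorial_zero]
    push_cast
    have : (1 - 3 / ((m : ℝ) + 2)) * (m + 2) ^ 3 = (m - 1) * (m + 2) ^ 2 := by field_simp; ring
    rw [this]
    nlinarith)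
  have m2 : Mk (dist (m + 2) 2) := mk_un _
  have m3 : Mk (dist (m + 2) 3) := mk_un _
  have p2 := m2.pos.smul hκ0
  have p3 := m3.pos.smul hκ0
  have key := (d2.pow p2 (pos_U 2 _) a).mul (d3.pow p3 (pos_U 3 _) b) (p2.pow a)
    ((pos_U 3 _).pow b)
  have e0 : κ ^ a * κ ^ b = Real.exp (-(6 * (a + b) / ((m + 2 : ℕ) : ℝ))) := by
    rw [← pow_add, hκ, ← Real.exp_nat_mul]
    congr 1
    push_cast
    ring
  rw [smul_pow, smul_pow, smul_mul_smul_comm, e0] at key
  have e1 : G (m + 2) 0 a b = rep (U 2 (sv (m + 2)) ^ a * U 3 (sv (m + 2)) ^ b) phi 0 := by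
    simp [G, Gv, Op]
  have k1 := key phi cl_phi.nonneg 0
  have k2 := key (1 - phi) (sub_nonneg.2 phi_le_one) 0
  rw [rep_smul] at k1 k2
  rw [map_sub, map_sub, ((m2.pow a).mul (m3.pow b)).one,
    (((mk_U 2 _).pow a).mul ((mk_U 3 _).pow b)).one] at k2
  rw [satProb_eq (by omega), e1]
  exact ⟨k1, k2⟩

theorem satProb_le_one (hn : 3 ≤ n) (a b : ℕ) : satProb n a b ≤ 1 := by
  have := clause_nonempty (show 2 ≤ n by omega)
  have := clause_nonempty hn
  rw [satProb_eq hn]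
  exact (((mk_un _).pow a).mul ((mk_un _).pow b)).le_one phi_le_one 0

theorem two_sat {α2 α3 : ℝ} (h2 : 1 < α2) (h3 : 0 ≤ α3) :
    Tendsto (fun n : ℕ => satProb n ⌊α2 * n⌋₊ ⌊α3 * n⌋₊) atTop (𝓝 0) := by
  set S2 := ∑ t ∈ range 1, sa t ^ 2 with hS2
  set Sp := ∑ t ∈ range 1, sa t * (2 * sa t - sb t) with hSp
  set S3 := ∑ t ∈ range 1, sa t ^ 3 with hS3
  have v2 : S2 = 1 := by simp [hS2, sa]
  obtain ⟨ρ, hρ, hρ0, hρ1⟩ : ∃ ρ : ℝ, 0 < (1 - 2 * α2 * ρ) * (α2 ^ 2 + α2 ^ 3 * ρ * Sp) - α2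
      ∧ 0 < ρ ∧ ρ < 1 := by
    have hc : Continuous fun ρ : ℝ => (1 - 2 * α2 * ρ) * (α2 ^ 2 + α2 ^ 3 * ρ * Sp) - α2 := by
      fun_prop
    have h1 := (hc.tendsto 0).eventually (lt_mem_nhds (show 0 < (1 - 2 * α2 * 0) *
      (α2 ^ 2 + α2 ^ 3 * 0 * Sp) - α2 by nlinarith))
    have h2 : ∀ᶠ ρ : ℝ in 𝓝[>] 0, 0 < ρ ∧ ρ < 1 := Ioo_mem_nhdsGT (show (0 : ℝ) < 1 by norm_num)
    exact ((h1.filter_mono nhdsWithin_le_nhds).and h2).exists
  set g0 := ρ ^ 2 * ((1 - 2 * α2 * ρ) * (α2 ^ 2 + α2 ^ 3 * ρ * Sp) - α2) with hg0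
  have hg : 0 < g0 := by positivity
  set η : ℝ := g0 / 4 with hη
  have hη0 : 0 < η := by positivity
  have hlim : Tendsto (fun n : ℕ => lowG S2 Sp S3 (1 : ℕ) ρ η ((⌊α2 * n⌋₊ : ℝ) / n)
      (((0 : ℕ) : ℝ) / n) (1 / n)) atTop (𝓝 (lowG S2 Sp S3 (1 : ℕ) ρ η α2 0 0)) := by
    refine tendsto_lowG (tendsto_floor_div (by linarith)) ?_ tendsto_one_div_atTop_nhds_zero_nat
    simp
  have hval : lowG S2 Sp S3 (1 : ℕ) ρ η α2 0 0 = g0 / 2 := by
    have : lowG S2 Sp S3 (1 : ℕ) ρ η α2 0 0 = g0 - 2 * η := by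
      simp only [lowG, hg0, v2]; push_cast; ring
    rw [this, hη]
    ring
  have hev := hlim.eventually (lt_mem_nhds (show η < lowG S2 Sp S3 (1 : ℕ) ρ η α2 0 0 by
    rw [hval, hη]; linarith))
  have hup : Tendsto (fun n : ℕ => ((α2 + α3) / η ^ 2) / (n : ℝ)) atTop (𝓝 0) :=
    tendsto_const_div_atTop_nhds_zero_nat _
  apply squeeze_zero' (Eventually.of_forall fun n => satProb_nonneg _ _ _) _ hup
  filter_upwards [hev, eventually_ge_atTop 3] with n hn1 hn
  have hn0 : (0 : ℝ) < n := by exact_mod_cast (show 0 < n by omega)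
  have e1 := mean_ge_lowG hn (le_refl 1) hρ0.le hρ1.le ⌊α2 * n⌋₊ 0 hη0
  have e2 : mean n 1 ⌊α2 * n⌋₊ 0 ≤ mean n 1 ⌊α2 * n⌋₊ ⌊α3 * n⌋₊ :=
    mean_mono hn 1 le_rfl (Nat.zero_le _)
  have e3 : n * η ≤ mean n 1 ⌊α2 * n⌋₊ ⌊α3 * n⌋₊ :=
    le_trans (mul_le_mul_of_nonneg_left hn1.le hn0.le) (e1.trans e2)
  have e4 := chebyshev hn 1 ⌊α2 * n⌋₊ ⌊α3 * n⌋₊
  have f2 : (⌊α2 * n⌋₊ : ℝ) ≤ α2 * n := Nat.floor_le (mul_nonneg (by linarith) hn0.le)
  have f3 : (⌊α3 * n⌋₊ : ℝ) ≤ α3 * n := Nat.floor_le (mul_nonneg h3 hn0.le)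
  have e5 : satProb n ⌊α2 * n⌋₊ ⌊α3 * n⌋₊ * (n * η) ^ 2 ≤ α2 * n + α3 * n := by
    calc _ ≤ satProb n ⌊α2 * n⌋₊ ⌊α3 * n⌋₊ * mean n 1 ⌊α2 * n⌋₊ ⌊α3 * n⌋₊ ^ 2 :=
          mul_le_mul_of_nonneg_left (pow_le_pow_left₀ (by positivity) e3 2) (satProb_nonneg _ _ _)
      _ ≤ _ := e4
      _ ≤ _ := by simp only [Nat.cast_one, one_pow, mul_one]; linarith
  rw [← le_div_iff₀ (by positivity)] at e5
  refine e5.trans (le_of_eq ?_)
  field_simp

end Pool.Agent.Lib.MP_4fe7bc_pr.Thr
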