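import Pool.Agent.Lib.MP_4fe7bc_pr.T3
import Pool.Agent.Lib.MP_4fe7bc_pr.T4
import Pool.Agent.Lib.MP_4fe7bc_pr.T6

set_option autoImplicit false
set_option linter.unusedSectionVars false
set_option linter.unusedVariables false

open Filter Topology

namespace Pool.Agent.Lib.MP_4fe7bc_pr.Thr

/-- Number of clauses of length two among the first t clauses. -/
noncomputable def pa (p : ℝ) (t : ℕ) : ℕ := ⌊(1 - p) * t⌋₊

/-- Number of clauses of length three among the first t clauses. -/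
noncomputable def pc (p : ℝ) (t : ℕ) : ℕ := t - pa p t

variable {p : ℝ}

theorem pa_le (h1 : p < 1) (t : ℕ) : (pa p t : ℝ) ≤ (1 - p) * t :=
  Nat.floor_le (mul_nonneg (by linarith) (Nat.cast_nonneg t))

theorem lt_pa (t : ℕ) : (1 - p) * t < pa p t + 1 := Nat.lt_floor_add_one _

theorem pa_le_self (h0 : 0 < p) (h1 : p < 1) (t : ℕ) : pa p t ≤ t := by
  have := pa_le h1 t
  have h2 : 0 ≤ p * t := by positivity
  exact_mod_cast (by linarith : (pa p t : ℝ) ≤ t)

theorem pc_eq (h0 : 0 < p) (h1 : p < 1) (t : ℕ) : (pc p t : ℝ) = t - pa p t := by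
  rw [pc, Nat.cast_sub (pa_le_self h0 h1 t)]

theorem path_p (h0 : 0 < p) (h1 : p < 1) {g : ℕ} (hg1 : 2 ≤ p * g) (hg2 : 2 ≤ (1 - p) * g) :
    Path (pa p) (pc p) g := by
  refine ⟨by simp [pa], by simp [pc], fun t => ?_, fun t => ?_⟩
  · have k1 := pa_le h1 t
    have k2 := lt_pa (p := p) t
    have k3 := pa_le h1 (t + 1)
    have k4 := lt_pa (p := p) (t + 1)
    have k5 := pa_le_self h0 h1 t
    push_cast at k3 k4
    have k6 : pa p t < pa p (t + 1) + 1 := by
      exact_mod_cast (by linarith : (pa p t : ℝ) < pa p (t + 1) + 1)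
    have k7 : pa p (t + 1) < pa p t + 2 := by
      exact_mod_cast (by linarith : (pa p (t + 1) : ℝ) < pa p t + 2)
    simp only [pc]
    omega
  · have k1 := pa_le h1 t
    have k2 := lt_pa (p := p) t
    have k3 := pa_le h1 (t + g)
    have k4 := lt_pa (p := p) (t + g)
    have k5 := pa_le_self h0 h1 t
    push_cast at k3 k4
    have k6 : pa p t + 1 < pa p (t + g) + 1 := by
      exact_mod_cast (by linarith : (pa p t : ℝ) + 1 < pa p (t + g) + 1)
    have k7 : pa p (t + g) + 1 < pa p t + g := by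
      exact_mod_cast (by linarith : (pa p (t + g) : ℝ) + 1 < pa p t + g)
    simp only [pc]
    omega

theorem root_facts {n : ℕ} (hn : 0 < n) : 1 ≤ (n : ℝ) ^ (1 / 16 : ℝ) ∧
    ((n : ℝ) ^ (1 / 16 : ℝ)) ^ 16 = n ∧ ((n : ℝ) ^ (1 / 16 : ℝ)) ^ 14 = (n : ℝ) ^ (7 / 8 : ℝ) := by
  have h1 : (1 : ℝ) ≤ n := by exact_mod_cast hn
  refine ⟨Real.one_le_rpow h1 (by norm_num), ?_, ?_⟩
  · rw [← Real.rpow_natCast, ← Real.rpow_mul (by linarith)]; norm_num
  · rw [← Real.rpow_natCast, ← Real.rpow_mul (by linarith)]; norm_num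

theorem tendsto_root : Tendsto (fun n : ℕ => (n : ℝ) ^ (1 / 16 : ℝ)) atTop atTop :=
  (tendsto_rpow_atTop (by norm_num)).comp tendsto_natCast_atTop_atTop

theorem unit_ev (h1 : p < 1) {c : ℝ} (hc : 0 < c) (hc1 : (1 - p) * c < 1) (h0 : 0 < p) :
    ∃ C : ℝ, 0 ≤ C ∧ ∀ᶠ n : ℕ in atTop, ∃ s : ℕ, (s : ℝ) ≤ C * (n : ℝ) ^ (1 / 16 : ℝ) ∧
      ∀ x y : ℕ, (x : ℝ) ≤ (1 - p) * (c * n + 1) → (y : ℝ) ≤ c * n + 1 →
        G n 0 (x + s) (y + s) - C / n ≤ G n 1 x y := by
  have hq : 0 < (1 - p) * c := mul_pos (by linarith) hc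
  set lam := ((1 - p) * c + 1) / 2 with hlam
  obtain ⟨Cs, C, ρ, hC, hρ0, hρ1, hU⟩ := unit_cost (lam := lam) (c := 2 * (c + 1))
    (by linarith) (by linarith) (by linarith)
  refine ⟨4 * Cs + 2 * C, by positivity, ?_⟩
  have hK : Tendsto (fun n : ℕ => ⌈(n : ℝ) ^ (1 / 16 : ℝ)⌉₊) atTop atTop :=
    tendsto_nat_ceil_atTop.comp tendsto_root
  have e1 := ((tendsto_pow_const_mul_const_pow_of_abs_lt_one 16
    (show |ρ| < 1 from abs_lt.2 ⟨by linarith, hρ1⟩)).comp hK).eventually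
    (gt_mem_nhds (show (0 : ℝ) < 1 by norm_num))
  have hδ : 0 < (lam - (1 - p) * c) / (Cs + 2) := div_pos (by linarith) (by positivity)
  filter_upwards [e1, ev_small hδ 1, ev_small (show (0 : ℝ) < 1 / 2 by norm_num) 1,
    eventually_gt_atTop 0] with n e1 e2 e3 hn
  obtain ⟨r1, r2, r3⟩ := root_facts hn
  simp only [Function.comp] at e1
  set x0 := (n : ℝ) ^ (1 / 16 : ℝ) with hx0
  set K := ⌈x0⌉₊ with hKdef
  have hn1 : (1 : ℝ) ≤ n := by exact_mod_cast hn
  have k1 : x0 ≤ K := Nat.le_ceil _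
  have k2 : (K : ℝ) < x0 + 1 := Nat.ceil_lt_add_one (by linarith)
  have k3 : x0 ≤ x0 ^ 14 := le_self_pow₀ r1 (by norm_num)
  have k4 : (K : ℝ) ≤ (lam - (1 - p) * c) / (Cs + 2) * n := by linarith
  have k5 : (K : ℝ) ≤ 1 / 2 * n := by linarith
  have k6 : (1 : ℝ) ≤ K := by linarith
  have hCs : (0 : ℝ) ≤ Cs := Nat.cast_nonneg _
  refine ⟨2 * (Cs * K), ?_, fun x y hx hy => ?_⟩
  · push_cast
    have : (Cs : ℝ) * K ≤ Cs * (2 * x0) := by gcongr; linarith
    have : 0 ≤ C * x0 := by positivity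
    linarith
  have k7 := hU n K x y hn (by exact_mod_cast (by linarith : (2 * K : ℝ) ≤ n)) (by
    rw [div_mul_eq_mul_div, le_div_iff₀ (by positivity)] at k4
    have : lam * K ≤ 1 * K := by gcongr; linarith
    nlinarith) (by nlinarith)
  refine le_trans ?_ k7
  have k8 : ρ ^ K ≤ 1 / n := by
    rw [le_div_iff₀ (by linarith), ← r2]
    have : x0 ^ 16 ≤ (K : ℝ) ^ 16 := pow_le_pow_left₀ (by linarith) k1 16
    have : ρ ^ K * x0 ^ 16 ≤ ρ ^ K * (K : ℝ) ^ 16 := by gcongr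
    linarith
  have k9 : C * (ρ ^ K + 1 / n) ≤ (4 * Cs + 2 * C) / n := by
    calc _ ≤ C * (1 / n + 1 / n) := by gcongr
      _ = 2 * C / n := by ring
      _ ≤ _ := by gcongr; linarith
  linarith

theorem hyp_G (h0 : 0 < p) (h1 : p < 1) {g : ℕ} (hg1 : 2 ≤ p * g) (hg2 : 2 ≤ (1 - p) * g) :
    Hyp (fun n t => G n 0 (pa p t) (pc p t)) (1 / (1 - p)) g := by
  have hP := path_p h0 h1 hg1 hg2
  have hq : 0 < 1 - p := by linarith
  have hg0 : (0 : ℝ) ≤ g := Nat.cast_nonneg _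
  refine ⟨by positivity, hg0, fun n t hn => G_nonneg hn _ _ _, fun n t hn => G_le_one hn _ _ _,
    fun n hn t t' ht => G_anti hn le_rfl (hP.mono_a ht) (hP.mono_b ht), ?_, ?_, ?_, ?_⟩
  · intro c hc hc0 ε hε
    rw [lt_div_iff₀ hq, mul_comm] at hc0
    obtain ⟨C, hC, hev⟩ := unit_ev h1 hc hc0 h0
    set B := 4 * ((c + 1) * (((c + 1) * g + 1) * (g * (C + 1) + (c + 1) * C))) with hB
    filter_upwards [hev, tendsto_root.eventually (eventually_ge_atTop (B / ε)),
      eventually_gt_atTop 0] with n e1 e2 hn u u' hu hu'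
    obtain ⟨s, hs, hU⟩ := e1
    obtain ⟨r1, r2, r3⟩ := root_facts hn
    set x := (n : ℝ) ^ (1 / 16 : ℝ) with hx
    have : NeZero n := ⟨hn.ne'⟩
    have hn1 : (1 : ℝ) ≤ n := by exact_mod_cast hn
    set r := ⌊c * n⌋₊ + 1 with hr
    have k1 : (r : ℝ) ≤ c * n + 1 := by
      rw [hr]; push_cast; gcongr; exact Nat.floor_le (by positivity)
    have k2 : (r : ℝ) ≤ (c + 1) * x ^ 16 := by rw [r2]; linarith
    have k3 : u' < r := Nat.lt_succ_of_le (Nat.le_floor hu')
    have hx14 : 0 < x ^ 14 := by positivity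
    have k4 : x ^ 14 ≤ (u' : ℝ) - u := by linarith
    have k5 : u ≤ u' := by exact_mod_cast (by linarith : (u : ℝ) ≤ u')
    have k6 := window (sv n) hP (r := r) (s := s) (η := C / n) (Y := ((c + 1) * g + 1) * x ^ 8)
      (by positivity) (by positivity) (by
        have l1 : (r : ℝ) * g ≤ (c + 1) * x ^ 16 * g := by gcongr
        have l2 : (c + 1) * g ≤ ((c + 1) * g + 1) ^ 2 := by nlinarith [sq_nonneg ((c + 1) * g)]
        calc _ ≤ (c + 1) * g * x ^ 16 := by linarith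
          _ ≤ ((c + 1) * g + 1) ^ 2 * x ^ 16 := by gcongr
          _ = _ := by ring)
      (fun a ha b hb => hU a b (by
        have l1 : (a : ℝ) ≤ pa p r := by exact_mod_cast ha
        exact l1.trans ((pa_le h1 r).trans (by gcongr))) (by
        have l1 : (b : ℝ) ≤ r := by exact_mod_cast hb.trans (Nat.sub_le _ _)
        exact l1.trans k1)) k5 k3
    have k7 : 4 * (r * ((((c + 1) * g + 1) * x ^ 8) * (g * (s + 1) + r * (C / n))))
        ≤ ε * ((u' : ℝ) - u) ^ 2 := by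
      have l1 : (g : ℝ) * (s + 1) ≤ g * (C + 1) * x := by
        rw [mul_assoc]; gcongr; linarith
      have l2 : (r : ℝ) * (C / n) ≤ (c + 1) * C * x := by
        calc _ ≤ (c + 1) * n * (C / n) := by gcongr; linarith
          _ = (c + 1) * C * 1 := by field_simp
          _ ≤ _ := by gcongr
      have l3 : B ≤ ε * x := by rwa [div_le_iff₀' hε] at e2
      calc _ ≤ 4 * (((c + 1) * x ^ 16) * ((((c + 1) * g + 1) * x ^ 8) *
              (g * (C + 1) * x + (c + 1) * C * x))) := by gcongr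
        _ = B * x ^ 25 := by rw [hB]; ring
        _ ≤ ε * x * x ^ 25 := by gcongr
        _ = ε * x ^ 26 := by ring
        _ ≤ ε * x ^ 28 := by gcongr; norm_num
        _ = ε * (x ^ 14) ^ 2 := by ring
        _ ≤ _ := by gcongr
    have k8 : 0 < ((u' : ℝ) - u) ^ 2 := pow_pos (by linarith) 2
    rcases k6 with k | k
    · left
      have := le_of_mul_le_mul_right (k.trans k7) k8
      show 1 - ε ≤ Gv _ _ _ _
      linarith
    · right
      exact le_of_mul_le_mul_right (k.trans k7) k8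
  · intro M
    obtain ⟨C, hC, hev⟩ := unit_ev h1 (c := 1) one_pos (by linarith) h0
    set M' := max M 1 with hM'
    have hM1 : 1 ≤ M' := le_max_right _ _
    filter_upwards [hev, tendsto_root.eventually (eventually_ge_atTop (6 * M' * (g * C + C))),
      tendsto_root.eventually (eventually_ge_atTop M'), eventually_gt_atTop 0]
      with n e1 e2 e3 hn t ht
    obtain ⟨s, hs, hU⟩ := e1
    obtain ⟨r1, r2, r3⟩ := root_facts hn
    set x := (n : ℝ) ^ (1 / 16 : ℝ) with hx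
    have : NeZero n := ⟨hn.ne'⟩
    have hn1 : (1 : ℝ) ≤ n := by exact_mod_cast hn
    have k1 : (t : ℝ) ≤ M' * x ^ 14 := by
      rw [r3]; exact ht.trans (by gcongr; exact le_max_left _ _)
    have k2 : (t : ℝ) ≤ n := by
      calc _ ≤ x * x ^ 14 := k1.trans (by gcongr)
        _ = x ^ 15 := by ring
        _ ≤ x ^ 16 := by gcongr; norm_num
        _ = n := r2
    have k3 := early (n := n) hP (t := t) (s := s) (η := C / n) (by positivity)
      (fun a ha b hb => hU a b (by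
        have l1 : (a : ℝ) ≤ pa p t := by exact_mod_cast ha
        exact l1.trans ((pa_le h1 t).trans (by gcongr; linarith))) (by
        have l1 : (b : ℝ) ≤ t := by exact_mod_cast hb.trans (Nat.sub_le _ _)
        linarith))
    have k4 : 3 * (t : ℝ) / n * (g * s + t * (C / n)) ≤ 1 / 2 := by
      have l1 : (t : ℝ) * (C / n) ≤ C * x := by
        calc _ ≤ n * (C / n) := by gcongr
          _ = C * 1 := by field_simp
          _ ≤ _ := by gcongr
      calc _ ≤ 3 * (M' * x ^ 14) / x ^ 16 * (g * (C * x) + C * x) := by rw [r2]; gcongr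
        _ = (6 * M' * (g * C + C)) / (2 * x) := by field_simp; ring
        _ ≤ x / (2 * x) := by gcongr
        _ = 1 / 2 := by field_simp
    show 1 / 2 ≤ G n 0 (pa p t) (pc p t)
    linarith
  · intro n1 n2 t t1 t2 D p1 p2 hD e1 e2
    have q1 : (0 : ℝ) < n1 := by exact_mod_cast p1
    have q2 : (0 : ℝ) < n2 := by exact_mod_cast p2
    have side : ∀ (q : ℝ) (u : ℕ), 0 ≤ q → q ≤ 1 → t * q + g * D ≤ u →
        q * pa p t + D ≤ pa p u ∧ q * pc p t + D ≤ pc p u := by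
      intro q u l0 l1 l2
      have k1 := pa_le h1 t
      have k2 := lt_pa (p := p) t
      have k3 := pa_le h1 u
      have k4 := lt_pa (p := p) u
      have k5 := mul_le_mul_of_nonneg_left l2 hq.le
      have k6 := mul_le_mul_of_nonneg_left l2 h0.le
      have k7 := mul_le_mul_of_nonneg_right hg1 (show 0 ≤ D by linarith)
      have k8 := mul_le_mul_of_nonneg_right hg2 (show 0 ≤ D by linarith)
      have k9 := mul_le_mul_of_nonneg_left k1 l0
      have k10 := mul_le_mul_of_nonneg_left k2.le l0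
      rw [pc_eq h0 h1, pc_eq h0 h1]
      constructor <;> linarith
    have s1 := side (n1 / (n1 + n2)) t1 (by positivity) (by rw [div_le_one (by positivity)]; linarith)
      (by rwa [← mul_div_assoc])
    have s2 := side (1 - n1 / (n1 + n2)) t2
      (by rw [sub_nonneg, div_le_one (by positivity)]; linarith)
      (by have : 0 ≤ (n1 : ℝ) / (n1 + n2) := by positivity
          linarith)
      (by rw [show 1 - (n1 : ℝ) / (n1 + n2) = n2 / (n1 + n2) by field_simp; ring]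
          rwa [← mul_div_assoc])
    have s3 := G_interp p1 p2 rfl (show 0 < D by linarith) s1.1 s2.1 s1.2 s2.2
    refine le_trans ?_ s3
    rw [pc_eq h0 h1, add_sub_cancel]
    have : (t : ℝ) / (2 * D ^ 2) ≤ t / D ^ 2 := by
      gcongr
      nlinarith
    linarith
  · intro n0 n t k1 k2
    have := G_lower k1 k2 (pa p t) (pc p t)
    rwa [hP.sum] at this

theorem exp_bound {α2 α3 : ℝ} (h2 : 0 < α2) (h3 : 0 < α3) {n : ℕ} (hn : 0 < n) :
    Real.exp (-(6 * (α2 + α3))) ≤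
      Real.exp (-(6 * ((⌊α2 * n⌋₊ : ℝ) + (⌊α3 * n⌋₊ : ℝ)) / n)) := by
  have hn0 : (0 : ℝ) < n := by exact_mod_cast hn
  have f2 : (⌊α2 * n⌋₊ : ℝ) ≤ α2 * n := Nat.floor_le (by positivity)
  have f3 : (⌊α3 * n⌋₊ : ℝ) ≤ α3 * n := Nat.floor_le (by positivity)
  rw [Real.exp_le_exp, neg_le_neg_iff, div_le_iff₀ hn0]
  linarith

theorem threshold_exists (h0 : 0 < p) (h1 : p < 1) :
    ∃ a : ℝ, 0 < a ∧ ∀ α2 α3 : ℝ, 0 < α2 → 0 < α3 → α3 / (α2 + α3) = p →
      (α2 + α3 < a → Tendsto (fun n : ℕ => satProb n ⌊α2 * n⌋₊ ⌊α3 * n⌋₊) atTop (𝓝 1)) ∧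
      (a < α2 + α3 → Tendsto (fun n : ℕ => satProb n ⌊α2 * n⌋₊ ⌊α3 * n⌋₊) atTop (𝓝 0)) := by
  have hq : 0 < 1 - p := by linarith
  obtain ⟨g, hg⟩ := exists_nat_ge (2 / p + 2 / (1 - p))
  have hg1 : 2 ≤ p * g := by
    have : 0 < 2 / (1 - p) := by positivity
    rw [← div_le_iff₀' h0]; linarith
  have hg2 : 2 ≤ (1 - p) * g := by
    have : 0 < 2 / p := by positivity
    rw [← div_le_iff₀' hq]; linarith
  obtain ⟨a, ha0, ha1, hlo, hhi⟩ := (hyp_G h0 h1 hg1 hg2).threshold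
  refine ⟨a, ha0, fun α2 α3 h2 h3 hp => ?_⟩
  have hs : 0 < α2 + α3 := by linarith
  rw [div_eq_iff hs.ne'] at hp
  have e2 : α2 = (1 - p) * (α2 + α3) := by linarith
  have hE := Real.exp_pos (-(6 * (α2 + α3)))
  constructor
  · intro hα
    obtain ⟨β, hβ1, hβ2⟩ := exists_between hα
    have k1 := hlo β (by linarith) hβ2
    have k2 : Tendsto (fun n : ℕ => (1 - G n 0 (pa p ⌊β * n⌋₊) (pc p ⌊β * n⌋₊)) /
        Real.exp (-(6 * (α2 + α3)))) atTop (𝓝 0) := by
      have := (k1.const_sub 1).div_const (Real.exp (-(6 * (α2 + α3))))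
      simpa using this
    have k3 : Tendsto (fun n : ℕ => 1 - satProb n ⌊α2 * n⌋₊ ⌊α3 * n⌋₊) atTop (𝓝 0) := by
      refine squeeze_zero' ?_ ?_ k2
      · filter_upwards [eventually_ge_atTop 3] with n hn
        exact sub_nonneg.2 (satProb_le_one hn _ _)
      · filter_upwards [eventually_ge_atTop 6,
          ev_small (mul_pos hq (sub_pos.2 hβ1)) 2, ev_small (mul_pos h0 (sub_pos.2 hβ1)) 2]
          with n hn l1 l2
        have l3 : (0 : ℝ) ≤ (n : ℝ) ^ (7 / 8 : ℝ) := by positivity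
        have l4 := Nat.lt_floor_add_one (β * n)
        have l5 := lt_pa (p := p) ⌊β * n⌋₊
        have l6 := pa_le h1 ⌊β * n⌋₊
        have l7 := mul_le_mul_of_nonneg_left l4.le hq.le
        have l8 := mul_le_mul_of_nonneg_left l4.le h0.le
        have m2 : ⌊α2 * n⌋₊ ≤ pa p ⌊β * n⌋₊ := Nat.floor_le_of_le (by rw [e2]; linarith)
        have m3 : ⌊α3 * n⌋₊ ≤ pc p ⌊β * n⌋₊ := Nat.floor_le_of_le (by
          rw [pc_eq h0 h1, hp]; linarith)
        have m4 := G_anti (show 0 < n by omega) (le_refl 0) m2 m3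
        have m5 := (transfer hn ⌊α2 * n⌋₊ ⌊α3 * n⌋₊).2
        have m6 := mul_le_mul_of_nonneg_right (exp_bound h2 h3 (show 0 < n by omega))
          (sub_nonneg.2 (satProb_le_one (show 3 ≤ n by omega) ⌊α2 * n⌋₊ ⌊α3 * n⌋₊))
        rw [le_div_iff₀' hE]
        linarith
    have := k3.const_sub 1
    simpa using this
  · intro hα
    rcases eq_or_lt_of_le ha1 with hc | hc
    · refine two_sat ?_ h3.le
      rw [hc, div_lt_iff₀' hq] at hα
      linarith
    obtain ⟨β, hβ1, hβ2⟩ := exists_between (lt_min hα hc)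
    have hβ3 := hβ2.trans_le (min_le_left _ _)
    have k1 := hhi β hβ1 (hβ2.trans_le (min_le_right _ _))
    have k2 : Tendsto (fun n : ℕ => G n 0 (pa p ⌊β * n⌋₊) (pc p ⌊β * n⌋₊) /
        Real.exp (-(6 * (α2 + α3)))) atTop (𝓝 0) := by
      have := k1.div_const (Real.exp (-(6 * (α2 + α3))))
      simpa using this
    refine squeeze_zero' (Eventually.of_forall fun n => satProb_nonneg _ _ _) ?_ k2
    filter_upwards [eventually_ge_atTop 6, ev_small (mul_pos h0 (sub_pos.2 hβ3)) 2]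
      with n hn l2
    have l3 : (0 : ℝ) ≤ (n : ℝ) ^ (7 / 8 : ℝ) := by positivity
    have hn0 : (0 : ℝ) ≤ n := Nat.cast_nonneg _
    have l4 : (⌊β * n⌋₊ : ℝ) ≤ β * n := Nat.floor_le (mul_nonneg (by linarith) hn0)
    have l5 := lt_pa (p := p) ⌊β * n⌋₊
    have l6 := pa_le h1 ⌊β * n⌋₊
    have l7 := mul_le_mul_of_nonneg_left l4 hq.le
    have l8 := mul_le_mul_of_nonneg_left l4 h0.le
    have l9 : (1 - p) * (β * n) ≤ (1 - p) * ((α2 + α3) * n) := by gcongr
    have m2 : pa p ⌊β * n⌋₊ ≤ ⌊α2 * n⌋₊ := Nat.le_floor (by rw [e2]; linarith)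
    have m3 : pc p ⌊β * n⌋₊ ≤ ⌊α3 * n⌋₊ := Nat.le_floor (by rw [pc_eq h0 h1, hp]; linarith)
    have m4 := G_anti (show 0 < n by omega) (le_refl 0) m2 m3
    have m5 := (transfer hn ⌊α2 * n⌋₊ ⌊α3 * n⌋₊).1
    have m6 := mul_le_mul_of_nonneg_right (exp_bound h2 h3 (show 0 < n by omega))
      (satProb_nonneg n ⌊α2 * n⌋₊ ⌊α3 * n⌋₊)
    rw [le_div_iff₀' hE]
    linarith

end Pool.Agent.Lib.MP_4fe7bc_pr.Thr
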