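import Pool.Agent.Lib.MP_4fe7bc_pr.T4

set_option autoImplicit false
set_option linter.unusedSectionVars false
set_option linter.unusedVariables false

open Finset

namespace Pool.Agent.Lib.MP_4fe7bc_pr.Thr

variable {Ω : Type}

/-- Expected truncated lifetime when one kind of clause is added. -/
noncomputable def Vq (P : Alg Ω) (m : ℕ) : (Ω → ℕ) → ℝ := ∑ d ∈ range m, rep (P ^ d) phi

/-- Second moment of the truncated lifetime when one kind of clause is added. -/
noncomputable def Qsec (P : Alg Ω) (m : ℕ) : (Ω → ℕ) → ℝ :=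
  ∑ d ∈ range m, (2 * (d : ℝ) + 1) • rep (P ^ d) phi

theorem cl_Vq {P : Alg Ω} (hP : Mk P) (m : ℕ) : Cl (Vq P m) :=
  Cl.sum _ fun d _ => cl_phi.map (hP.pow d).pos

theorem Vq_le {P : Alg Ω} (hP : Mk P) (hP1 : Dom P 1) (m : ℕ) (H : Ω → ℕ) :
    Vq P m H ≤ m * phi H := by
  rw [Vq, Finset.sum_apply]
  calc _ ≤ ∑ _d ∈ range m, phi H := Finset.sum_le_sum fun d _ => by
        have := hP1.pow_anti hP.pos (Nat.zero_le d) phi cl_phi H
        rwa [pow_zero, rep_one] at this
    _ = _ := by simp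

theorem Vq_succ (P : Alg Ω) (m : ℕ) : Vq P (m + 1) = phi + rep P (Vq P m) := by
  rw [Vq, Vq, Finset.sum_range_succ', pow_zero, rep_one, add_comm, map_sum]
  congr 1
  refine Finset.sum_congr rfl fun d _ => ?_
  rw [pow_succ', rep_mul]

theorem Qsec_succ (P : Alg Ω) (m : ℕ) :
    Qsec P (m + 1) = phi + rep P (Qsec P m) + (2 : ℝ) • rep P (Vq P m) := by
  rw [Qsec, Qsec, Vq, Finset.sum_range_succ', pow_zero, rep_one, add_comm, map_sum, map_sum,
    Finset.smul_sum, add_assoc, ← Finset.sum_add_distrib]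
  congr 1
  · simp
  refine Finset.sum_congr rfl fun d _ => ?_
  rw [pow_succ', rep_mul, map_smul, ← add_smul]
  congr 1
  push_cast
  ring

theorem pure_ind {P S : Alg Ω} (hP : Mk P) (hP1 : Dom P 1) {r : ℕ} {Y D : ℝ} (hY0 : 0 ≤ Y)
    (hstep : ∀ m ≤ r, ∀ H, rep P (fun x => Vq P m x ^ 2) H - (rep P (Vq P m) H) ^ 2 ≤
      Y * (Vq P m H - rep S (Vq P m) H))
    (hD : ∀ i m, i + m ≤ r → rep (P ^ i) (Vq P m - rep S (Vq P m)) 0 ≤ D) (m i : ℕ)
    (him : i + m ≤ r) : rep (P ^ i) (fun H => Qsec P m H - Vq P m H ^ 2) 0 ≤ m * (Y * D) := by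
  induction m generalizing i with
  | zero =>
    have : (fun H => Qsec P 0 H - Vq P 0 H ^ 2) = 0 := by ext H; simp [Qsec, Vq]
    rw [this, map_zero]
    simp
  | succ m ih =>
    have h1 := ih (i + 1) (by omega)
    have h2 := hD i m (by omega)
    have h3 : (fun H => Qsec P (m + 1) H - Vq P (m + 1) H ^ 2) ≤
        rep P (fun H => Qsec P m H - Vq P m H ^ 2) + Y • (Vq P m - rep S (Vq P m)) := by
      intro H
      have hV := cl_Vq hP m
      have k0 := Vq_le hP hP1 m H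
      have k2 := hstep m (by omega) H
      have k3 : (fun H => Qsec P m H - Vq P m H ^ 2) = Qsec P m - fun H => Vq P m H ^ 2 := rfl
      rw [Qsec_succ, Vq_succ, k3, map_sub]
      simp only [Pi.add_apply, Pi.sub_apply, Pi.smul_apply, smul_eq_mul]
      have k4 := hP1 _ hV H
      have k5 := hP.pos _ hV.nonneg H
      rw [rep_one] at k4
      simp only [Pi.zero_apply] at k5
      by_cases hφ : ∃ σ, H σ = 0
      · rw [show phi H = 1 from ind_pos hφ]
        nlinarith
      · rw [show phi H = 0 from ind_neg hφ] at k0 ⊢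
        have k6 : rep P (Vq P m) H = 0 := by linarith
        rw [k6] at k2 ⊢
        linarith
    have h4 := (hP.pow i).pos.mono h3 0
    rw [map_add, map_smul, ← rep_mul, ← pow_succ] at h4
    simp only [Pi.add_apply, Pi.smul_apply, smul_eq_mul] at h4
    have h5 := mul_le_mul_of_nonneg_left h2 hY0
    push_cast
    linarith

theorem pure_window {P S : Alg Ω} (hP : Mk P) (hP1 : Dom P 1) {r : ℕ} {Y D : ℝ} (hY0 : 0 ≤ Y)
    (hstep : ∀ m ≤ r, ∀ H, rep P (fun x => Vq P m x ^ 2) H - (rep P (Vq P m) H) ^ 2 ≤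
      Y * (Vq P m H - rep S (Vq P m) H))
    (hD : ∀ i m, i + m ≤ r → rep (P ^ i) (Vq P m - rep S (Vq P m)) 0 ≤ D) {u u' : ℕ}
    (hu : u ≤ u') (hr : u' < r) :
    (1 - rep (P ^ u) phi 0) * ((u' : ℝ) - u) ^ 2 ≤ 4 * (r * (Y * D)) ∨
      rep (P ^ u') phi 0 * ((u' : ℝ) - u) ^ 2 ≤ 4 * (r * (Y * D)) := by
  refine cheb (f := fun t => rep (P ^ t) phi 0)
    (fun t t' ht => hP1.pow_anti hP.pos ht phi cl_phi 0)
    (fun t => (hP.pow t).pos _ cl_phi.nonneg 0) ((hP.pow 0).le_one phi_le_one 0) ?_ hu hr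
  have h1 := pure_ind hP hP1 hY0 hstep hD r 0 (by omega)
  rw [pow_zero, rep_one] at h1
  simp only [Qsec, Vq, Finset.sum_apply, Pi.smul_apply, smul_eq_mul] at h1
  exact h1

section Fam

variable {L : Type} [Fintype L] [Nonempty L] (v : L → Ω → ℕ)

theorem Gv_two (t : ℕ) : Gv v 0 t 0 = rep (U 2 v ^ t) phi 0 := by simp [Gv, Op]

theorem Gv_three (t : ℕ) : Gv v 0 0 t = rep (U 3 v ^ t) phi 0 := by simp [Gv, Op]

theorem Gv_swap (j a b s : ℕ) : Gv v j (a + s) b ≤ Gv v j a (b + s) := by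
  have h1 := ((dom_U_succ 2 v).pow (pos_U 2 v) (pos_U 3 v) s).mul_left (mk_Op v j a b).pos
  have e1 : Op v j a b * U 2 v ^ s = Op v j (a + s) b := by simp only [Op]; ring
  have e2 : Op v j a b * U 3 v ^ s = Op v j a (b + s) := by simp only [Op]; ring
  rw [e1, e2] at h1
  exact h1 phi cl_phi 0

theorem window_two {r s : ℕ} {η Y : ℝ} (hη : 0 ≤ η) (hY0 : 0 ≤ Y) (hY : (r : ℝ) ≤ Y ^ 2)
    (hU : ∀ x ≤ r, Gv v 0 (x + s) (0 + s) - η ≤ Gv v 1 x 0) {u u' : ℕ} (hu : u ≤ u')
    (hr : u' < r) :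
    (1 - Gv v 0 u 0) * ((u' : ℝ) - u) ^ 2 ≤ 4 * (r * (Y * (2 * s + r * η))) ∨
      Gv v 0 u' 0 * ((u' : ℝ) - u) ^ 2 ≤ 4 * (r * (Y * (2 * s + r * η))) := by
  rw [Gv_two, Gv_two]
  refine pure_window (S := U 1 v) (mk_U 2 v) (dom_U_one 2 v) hY0 (fun m hm H => ?_)
    (fun i m him => ?_) hu hr
  · have k0 := Vq_le (mk_U 2 v) (dom_U_one 2 v) m H
    have k1 : Vq (U 2 v) m H ≤ r := by
      have k2 : (m : ℝ) ≤ r := by exact_mod_cast hm
      have k3 := mul_le_mul_of_nonneg_left (phi_le_one H) (Nat.cast_nonneg (α := ℝ) m)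
      simp only [Pi.one_apply, mul_one] at k3
      linarith
    refine var_step v 0 (cl_Vq (mk_U 2 v) m) H k1 (g := 1) ?_ hY0 (by linarith)
    have h1 := telescope (F := fun d => rep (U 2 v ^ d) phi H)
      (fun d => ((mk_U 2 v).pow d).pos _ cl_phi.nonneg H)
      (fun d => ((mk_U 2 v).pow d).le_one phi_le_one H) m 1
    rw [Nat.cast_one] at h1
    refine le_trans (le_of_eq ?_) h1
    rw [Vq, map_sum, Finset.sum_apply, Finset.sum_apply, ← Finset.sum_sub_distrib]
    refine Finset.sum_congr rfl fun d _ => ?_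
    rw [pow_succ', rep_mul]
  · have h1 := telescope (F := fun d => Gv v 0 (i + d) 0) (fun d => Gv_nonneg _ _ _ _)
      (fun d => Gv_le_one _ _ _ _) m (2 * s)
    rw [Vq, map_sum, ← Finset.sum_sub_distrib, map_sum, Finset.sum_apply]
    have h2 : ∀ d ∈ range m, rep (U 2 v ^ i) (rep (U 2 v ^ d) phi -
        rep (U 1 v) (rep (U 2 v ^ d) phi)) 0 ≤
        (Gv v 0 (i + d) 0 - Gv v 0 (i + (d + 2 * s)) 0) + η := by
      intro d hd
      have hd' := mem_range.1 hd
      have e0 : U 2 v ^ i * U 2 v ^ d = Op v 0 (i + d) 0 := by simp only [Op]; ring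
      have e1 : U 2 v ^ i * U 1 v * U 2 v ^ d = Op v 1 (i + d) 0 := by simp only [Op]; ring
      rw [map_sub, Pi.sub_apply, ← rep_mul, ← rep_mul, ← rep_mul, e0, e1]
      have k1 := hU (i + d) (by omega)
      have k2 := Gv_swap v 0 (i + d + s) 0 s
      rw [show i + (d + 2 * s) = i + d + s + s by ring]
      show Gv v 0 (i + d) 0 - Gv v 1 (i + d) 0 ≤ _
      linarith
    refine (Finset.sum_le_sum h2).trans ?_
    rw [Finset.sum_add_distrib]
    have h3 : (m : ℝ) ≤ r := by exact_mod_cast (show m ≤ r by omega)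
    have h4 := mul_le_mul_of_nonneg_right h3 hη
    simp only [sum_const, card_range, nsmul_eq_mul]
    push_cast at h1
    linarith

theorem two_cost {T : Alg Ω} (hT : Mk T) {τ : ℝ} (hτ : 0 < τ) (m : ℕ) (H : Ω → ℕ) :
    ∑ d ∈ range m, (rep (T * U 3 v ^ d) phi H - rep (T * U 3 v ^ d * U 2 v) phi H) ≤
      1 / τ + τ ^ 2 * m := by
  have h1 := telescope (F := fun d => rep (T * U 3 v ^ d) phi H)
    (fun d => (hT.mul ((mk_U 3 v).pow d)).pos _ cl_phi.nonneg H)
    (fun d => (hT.mul ((mk_U 3 v).pow d)).le_one phi_le_one H) m 1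
  have h2 : (phi - rep (U 2 v) phi) ≤
      fun x => ((1 / τ) • (phi - rep (U 3 v) phi) : (Ω → ℕ) → ℝ) x + τ ^ 2 := by
    intro x
    simp only [Pi.sub_apply, Pi.smul_apply, smul_eq_mul, rep_U_phi, sub_sub_cancel]
    have k1 := bet_nonneg v x
    have k2 : 0 ≤ phi x := cl_phi.nonneg x
    have k3 : phi x ≤ 1 := phi_le_one x
    have k4 : bet v x ^ 2 ≤ 1 / τ * bet v x ^ 3 + τ ^ 2 := by
      rcases le_total (bet v x) τ with h | h
      · have := pow_le_pow_left₀ k1 h 2
        have : 0 ≤ 1 / τ * bet v x ^ 3 := by positivity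
        linarith
      · have : bet v x ^ 2 ≤ 1 / τ * bet v x ^ 3 := by
          rw [one_div, inv_mul_eq_div, le_div_iff₀ hτ, pow_succ (bet v x) 2]
          gcongr
        nlinarith [sq_nonneg τ]
    have k5 := mul_le_mul_of_nonneg_left k4 k2
    nlinarith [sq_nonneg τ]
  have h3 : ∀ d ∈ range m, rep (T * U 3 v ^ d) phi H - rep (T * U 3 v ^ d * U 2 v) phi H ≤
      1 / τ * (rep (T * U 3 v ^ d) phi H - rep (T * U 3 v ^ (d + 1)) phi H) + τ ^ 2 := by
    intro d _
    have hM := hT.mul ((mk_U 3 v).pow d)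
    have k := hM.pos.mono h2 H
    rw [hM.add_const, map_smul, map_sub, map_sub, ← rep_mul, ← rep_mul, mul_assoc T _ (U 3 v),
      ← pow_succ] at k
    exact k
  refine (Finset.sum_le_sum h3).trans ?_
  rw [Finset.sum_add_distrib, ← Finset.mul_sum]
  simp only [sum_const, card_range, nsmul_eq_mul]
  rw [Nat.cast_one] at h1
  have h4 := mul_le_mul_of_nonneg_left h1 (show 0 ≤ 1 / τ by positivity)
  linarith

theorem var_three {V : (Ω → ℕ) → ℝ} (hV : Cl V) (H : Ω → ℕ) :
    rep (U 3 v) (fun x => V x ^ 2) H - (rep (U 3 v) V H) ^ 2 ≤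
      (V H - rep (U 2 v) V H) * (V H - rep (U 1 v) V H) := by
  have hN : (0 : ℝ) < Fintype.card L := by exact_mod_cast Fintype.card_pos
  have hM := mk_U 3 v
  set c := V H with hc
  have e1 : rep (U 3 v) (fun x => (c - V x) ^ 2) H =
      rep (U 3 v) (fun x => V x ^ 2) H - 2 * c * rep (U 3 v) V H + c ^ 2 := by
    have : (fun x => (c - V x) ^ 2) =
        fun x => ((fun x => V x ^ 2) - (2 * c) • V : (Ω → ℕ) → ℝ) x + c ^ 2 := by
      ext x; simp only [Pi.sub_apply, Pi.smul_apply, smul_eq_mul]; ring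
    rw [this, hM.add_const, map_sub, map_smul]
    rfl
  have h1 : ∑ l, (c - V (H + v l)) = Fintype.card L * (c - rep (U 1 v) V H) := by
    rw [rep_U, sum_tuple_one v fun y => V (H + y), Finset.sum_sub_distrib]
    simp only [sum_const, card_univ, nsmul_eq_mul]
    field_simp
  have h2 : ∑ y : Fin 2 → L, (c - V (H + ∏ i, v (y i))) =
      (Fintype.card L : ℝ) ^ 2 * (c - rep (U 2 v) V H) := by
    rw [rep_U, Finset.sum_sub_distrib]
    simp only [sum_const, card_univ, nsmul_eq_mul, Fintype.card_fun, Fintype.card_fin]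
    push_cast
    field_simp
  have e2 : rep (U 3 v) (fun x => (c - V x) ^ 2) H ≤
      (c - rep (U 2 v) V H) * (c - rep (U 1 v) V H) := by
    rw [rep_U, sum_tuple_succ 2 v fun y => (c - V (H + y)) ^ 2, div_le_iff₀ (by positivity)]
    calc _ ≤ ∑ a, ∑ y : Fin 2 → L, (c - V (H + v a)) * (c - V (H + ∏ i, v (y i))) := by
          refine Finset.sum_le_sum fun a _ => Finset.sum_le_sum fun y _ => ?_
          have h2 := hV.add_le_self H (v a * ∏ i, v (y i))
          have h3 : V (H + v a) ≤ V (H + v a * ∏ i, v (y i)) :=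
            hV.add_le H fun σ hσ => by rw [Pi.mul_apply, hσ, zero_mul]
          have h4 : V (H + ∏ i, v (y i)) ≤ V (H + v a * ∏ i, v (y i)) :=
            hV.add_le H fun σ hσ => by rw [Pi.mul_apply, hσ, mul_zero]
          rw [sq]
          exact mul_le_mul (by linarith) (by linarith) (by linarith) (by linarith)
      _ = _ := by
          simp only [← Finset.mul_sum]
          rw [← Finset.sum_mul, h1, h2]
          ring
  nlinarith [sq_nonneg (c - rep (U 3 v) V H)]

theorem window_three {r s : ℕ} {η τ : ℝ} (hη : 0 ≤ η) (hτ : 0 < τ)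
    (hU : ∀ y ≤ r, Gv v 0 (0 + s) (y + s) - η ≤ Gv v 1 0 y) {u u' : ℕ} (hu : u ≤ u')
    (hr : u' < r) :
    (1 - Gv v 0 0 u) * ((u' : ℝ) - u) ^ 2 ≤
        4 * (r * ((1 / τ + τ ^ 2 * r) * (s + s * (1 / τ + τ ^ 2 * r) + r * η))) ∨
      Gv v 0 0 u' * ((u' : ℝ) - u) ^ 2 ≤
        4 * (r * ((1 / τ + τ ^ 2 * r) * (s + s * (1 / τ + τ ^ 2 * r) + r * η))) := by
  rw [Gv_three, Gv_three]
  refine pure_window (S := U 1 v) (mk_U 3 v) (dom_U_one 3 v) (by positivity) (fun m hm H => ?_)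
    (fun i m him => ?_) hu hr
  · have hV := cl_Vq (mk_U 3 v) m
    refine (var_three v hV H).trans (mul_le_mul_of_nonneg_right ?_ ?_)
    · have h1 := two_cost v mk_one hτ m H
      have h2 : (m : ℝ) ≤ r := by exact_mod_cast hm
      have h3 : τ ^ 2 * m ≤ τ ^ 2 * r := by gcongr
      refine le_trans (le_of_eq ?_) (h1.trans (by linarith))
      rw [Vq, map_sum, Finset.sum_apply, Finset.sum_apply, ← Finset.sum_sub_distrib]
      refine Finset.sum_congr rfl fun d _ => ?_
      rw [one_mul, mul_comm, rep_mul]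
    · have := dom_U_one 1 v _ hV H
      rw [rep_one] at this
      linarith
  · have h0 : (m : ℝ) ≤ r := by exact_mod_cast (show m ≤ r by omega)
    have h1 := telescope (F := fun d => Gv v 0 0 (i + d)) (fun d => Gv_nonneg _ _ _ _)
      (fun d => Gv_le_one _ _ _ _) m s
    have h5 : ∀ j : ℕ, ∑ d ∈ range m, (Gv v 0 0 (i + (d + s)) - Gv v 0 j (i + (d + s))) ≤
        j * (1 / τ + τ ^ 2 * r) := by
      intro j
      induction j with
      | zero => simp
      | succ j ih =>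
        have k1 := two_cost v (mk_Op v 0 j (i + s)) hτ m 0
        have k2 : ∀ d, Op v 0 j (i + s) * U 3 v ^ d = Op v 0 j (i + (d + s)) := fun d => by
          simp only [Op]; ring
        have k3 : ∀ d, Op v 0 j (i + (d + s)) * U 2 v = Op v 0 (j + 1) (i + (d + s)) :=
          fun d => by simp only [Op]; ring
        simp only [k2, k3] at k1
        have k4 : τ ^ 2 * m ≤ τ ^ 2 * r := by gcongr
        have k5 : ∑ d ∈ range m, (Gv v 0 0 (i + (d + s)) - Gv v 0 (j + 1) (i + (d + s))) =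
            ∑ d ∈ range m, (Gv v 0 0 (i + (d + s)) - Gv v 0 j (i + (d + s))) +
            ∑ d ∈ range m, (Gv v 0 j (i + (d + s)) - Gv v 0 (j + 1) (i + (d + s))) := by
          rw [← Finset.sum_add_distrib]
          exact Finset.sum_congr rfl fun d _ => by ring
        rw [k5]
        push_cast
        have k6 : ∑ d ∈ range m, (Gv v 0 j (i + (d + s)) - Gv v 0 (j + 1) (i + (d + s))) ≤
            1 / τ + τ ^ 2 * m := k1
        linarith
    rw [Vq, map_sum, ← Finset.sum_sub_distrib, map_sum, Finset.sum_apply]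
    have h2 : ∀ d ∈ range m, rep (U 3 v ^ i) (rep (U 3 v ^ d) phi -
        rep (U 1 v) (rep (U 3 v ^ d) phi)) 0 ≤
        (Gv v 0 0 (i + d) - Gv v 0 0 (i + (d + s))) +
          (Gv v 0 0 (i + (d + s)) - Gv v 0 s (i + (d + s))) + η := by
      intro d hd
      have hd' := mem_range.1 hd
      have e0 : U 3 v ^ i * U 3 v ^ d = Op v 0 0 (i + d) := by simp only [Op]; ring
      have e1 : U 3 v ^ i * U 1 v * U 3 v ^ d = Op v 1 0 (i + d) := by simp only [Op]; ring
      rw [map_sub, Pi.sub_apply, ← rep_mul, ← rep_mul, ← rep_mul, e0, e1]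
      have k1 := hU (i + d) (by omega)
      rw [zero_add, add_assoc] at k1
      show Gv v 0 0 (i + d) - Gv v 1 0 (i + d) ≤ _
      linarith
    refine (Finset.sum_le_sum h2).trans ?_
    rw [Finset.sum_add_distrib, Finset.sum_add_distrib]
    have h4 := mul_le_mul_of_nonneg_right h0 hη
    have h6 := h5 s
    simp only [sum_const, card_range, nsmul_eq_mul]
    linarith

end Fam

theorem pure_interp (k : ℕ) {n1 n2 : ℕ} (h1 : 0 < n1) (h2 : 0 < n2) {D : ℝ} (hD : 0 < D)
    {t t1 t2 : ℕ} (ha1 : (t : ℝ) * n1 / (n1 + n2) + D ≤ t1)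
    (ha2 : (t : ℝ) * n2 / (n1 + n2) + D ≤ t2) :
    rep (U k (sv n1) ^ t1) phi 0 * rep (U k (sv n2) ^ t2) phi 0 - t / D ^ 2 ≤
      rep (U k (sv (n1 + n2)) ^ t) phi 0 := by
  have : NeZero n1 := ⟨h1.ne'⟩
  have : NeZero n2 := ⟨h2.ne'⟩
  have q1 : (0 : ℝ) < n1 := by exact_mod_cast h1
  have q2 : (0 : ℝ) < n2 := by exact_mod_cast h2
  have s := (split_sv n1 n2).step k
  have hq : (Fintype.card (Fin n1 × Bool) : ℝ) / Fintype.card (Fin (n1 + n2) × Bool) =
      n1 / (n1 + n2) := by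
    simp only [Fintype.card_prod, Fintype.card_fin, Fintype.card_bool]
    push_cast
    field_simp
  rw [hq] at s
  have h0 : 0 ≤ (n1 : ℝ) / (n1 + n2) := by positivity
  have hq1 : (n1 : ℝ) / (n1 + n2) ≤ 1 := by rw [div_le_one (by positivity)]; linarith
  have e1 := hybrid ((mk_U k _).mix (mk_U k _) h0 hq1).pos (pos_U k _) s t pos_one 0
  have e3 := tail_quad mk_one (mk_U k (fun l => sv n1 l ∘ fun (σ : Fin (n1 + n2) → Bool) i =>
    σ (Fin.castAdd n2 i))) (mk_U k (fun l => sv n2 l ∘ fun (σ : Fin (n1 + n2) → Bool) i =>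
    σ (Fin.natAdd n1 i))) (dom_U_one _ _) (dom_U_one _ _) cl_phi phi_le_one h0 hq1 hD
    (N := t) (a1 := t1) (a2 := t2) (by rw [mul_comm, ← mul_div_assoc]; exact ha1) (by
      rw [show 1 - (n1 : ℝ) / (n1 + n2) = n2 / (n1 + n2) by field_simp; ring, mul_comm,
        ← mul_div_assoc]
      exact ha2) 0
  have e5 := prod_lower (fun (σ : Fin (n1 + n2) → Bool) i => σ (Fin.castAdd n2 i))
    (fun (σ : Fin (n1 + n2) → Bool) i => σ (Fin.natAdd n1 i))
    (fun σ1 σ2 => ⟨Fin.append σ1 σ2, by ext i; simp, by ext i; simp⟩)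
    ((pos_U k (sv n1)).pow t1) ((pos_U k (sv n2)).pow t2)
  rw [map_pow (mp _), map_pow (mp _), mp_U, mp_U] at e5
  rw [one_mul, one_mul] at e1 e3
  have e6 : (t : ℝ) / (2 * D ^ 2) ≤ t / D ^ 2 := by
    gcongr
    nlinarith
  linarith

theorem first_moment {n : ℕ} (hn : 0 < n) (t : ℕ) : G n 0 0 t ≤ 2 ^ n * (7 / 8) ^ t := by
  have : NeZero n := ⟨hn.ne'⟩
  have hn0 : (0 : ℝ) < n := by exact_mod_cast hn
  have h1 : ∀ σ : Fin n → Bool, rep (U 3 (sv n)) (fun H => ind (H σ = 0)) =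
      (7 / 8 : ℝ) • fun H => ind (H σ = 0) := by
    intro σ
    ext H
    have e : ∀ H : (Fin n → Bool) → ℕ, ind (H σ = 0) = phi (H ∘ fun _ : Unit => σ) := by
      intro H; simp [phi]
    simp only [e]
    rw [rep_mp, mp_U, rep_U_phi, Pi.smul_apply, smul_eq_mul]
    by_cases h : H σ = 0
    · have e2 : bet (fun l => sv n l ∘ fun _ : Unit => σ) (H ∘ fun _ : Unit => σ) = 1 / 2 := by
        have e3 : ∀ i : Fin n, ∑ β : Bool, ind (∀ u : Unit, (H ∘ fun _ : Unit => σ) u = 0 →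
            (sv n (i, β) ∘ fun _ : Unit => σ) u ≠ 0) = 1 := by
          intro i
          cases hi : σ i <;> simp [h, sv, hi, ind]
        rw [bet, Fintype.sum_prod_type]
        simp only [e3]
        simp only [sum_const, card_univ, Fintype.card_prod, Fintype.card_fin, Fintype.card_bool,
          nsmul_eq_mul]
        push_cast
        field_simp
      rw [e2]; ring
    · rw [← e, ind_neg h]; simp
  have h2 : ∀ (σ : Fin n → Bool) (t : ℕ), rep (U 3 (sv n) ^ t) (fun H => ind (H σ = 0)) =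
      ((7 / 8 : ℝ) ^ t) • fun H => ind (H σ = 0) := by
    intro σ t
    induction t with
    | zero => rw [pow_zero, rep_one, pow_zero, one_smul]
    | succ t ih => rw [pow_succ, rep_mul, h1, map_smul, ih, smul_smul, pow_succ']
  have h3 : phi ≤ ∑ σ : Fin n → Bool, fun H : (Fin n → Bool) → ℕ => ind (H σ = 0) := by
    intro H
    rw [Finset.sum_apply]
    by_cases h : ∃ σ, H σ = 0
    · obtain ⟨σ, hσ⟩ := h
      refine (phi_le_one H).trans ?_
      refine le_trans (le_of_eq (ind_pos hσ).symm) ?_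
      exact Finset.single_le_sum (f := fun σ => ind (H σ = 0)) (fun _ _ => ind_nonneg _)
        (mem_univ σ)
    · rw [show phi H = 0 from ind_neg h]
      exact Finset.sum_nonneg fun _ _ => ind_nonneg _
  have h4 := ((pos_U 3 (sv n)).pow t).mono h3 0
  rw [map_sum, Finset.sum_apply] at h4
  simp only [h2, Pi.smul_apply, Pi.zero_apply, smul_eq_mul] at h4
  rw [G, Gv_three]
  refine h4.trans (le_of_eq ?_)
  simp [ind]

end Pool.Agent.Lib.MP_4fe7bc_pr.Thr
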