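import Pool.Agent.Lib.MP_4fe7bc_pr.T7
import Pool.Agent.Lib.MP_4fe7bc_pr.T8

set_option autoImplicit false
set_option linter.unusedSectionVars false
set_option linter.unusedVariables false

open Filter Topology

namespace Pool.Agent.Lib.MP_4fe7bc_pr.Thr

theorem hyp_half : Hyp (fun n t => G n 0 (pa (1 / 2) t) (pc (1 / 2) t)) (1 / (1 - 1 / 2)) (4 : ℕ) :=
  hyp_G (by norm_num) (by norm_num) (by norm_num) (by norm_num)

theorem hyp_two : Hyp (fun n t => G n 0 t 0) 1 1 := by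
  refine ⟨one_pos, zero_le_one, fun n t hn => G_nonneg hn _ _ _, fun n t hn => G_le_one hn _ _ _,
    fun n hn t t' ht => G_anti hn le_rfl ht le_rfl, ?_, ?_, ?_, ?_⟩
  · intro c hc hc0 ε hε
    obtain ⟨C, hC, hev⟩ := unit_ev (p := 1 / 2) (by norm_num) (c := c + 1) (by linarith)
      (by linarith) (by norm_num)
    set B := 4 * ((c + 1) * ((c + 2) * (2 * C + (c + 1) * C))) with hB
    filter_upwards [hev, tendsto_root.eventually (eventually_ge_atTop (B / ε)),
      ev_small (sub_pos.2 hc0) 1, eventually_gt_atTop 0] with n e1 e2 e3 hn u u' hu hu'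
    obtain ⟨s, hs, hU⟩ := e1
    obtain ⟨r1, r2, r3⟩ := root_facts hn
    set x := (n : ℝ) ^ (1 / 16 : ℝ) with hx
    have : NeZero n := ⟨hn.ne'⟩
    have hn1 : (1 : ℝ) ≤ n := by exact_mod_cast hn
    set r := ⌊c * n⌋₊ + 1 with hr
    have k1 : (r : ℝ) ≤ c * n + 1 := by
      rw [hr]; push_cast; gcongr; exact Nat.floor_le (by positivity)
    have k2 : (r : ℝ) ≤ (c + 1) * x ^ 16 := by rw [r2]; linarith
    have k3 : u' < r := Nat.lt_succ_of_le (Nat.le_floor hu')
    have hx14 : 0 < x ^ 14 := by positivity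
    have k4 : x ^ 14 ≤ (u' : ℝ) - u := by linarith
    have k5 : u ≤ u' := by exact_mod_cast (by linarith : (u : ℝ) ≤ u')
    have k6 := window_two (sv n) (r := r) (s := s) (η := C / n) (Y := (c + 2) * x ^ 8)
      (by positivity) (by positivity) (by
        calc _ ≤ (c + 1) * x ^ 16 := k2
          _ ≤ (c + 2) ^ 2 * x ^ 16 := by gcongr; nlinarith
          _ = _ := by ring)
      (fun a ha => hU a 0 (by
        have l1 : (a : ℝ) ≤ r := by exact_mod_cast ha
        linarith) (by rw [Nat.cast_zero]; positivity)) k5 k3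
    have k7 : 4 * (r * (((c + 2) * x ^ 8) * (2 * s + r * (C / n))))
        ≤ ε * ((u' : ℝ) - u) ^ 2 := by
      have l1 : 2 * (s : ℝ) ≤ 2 * C * x := by linarith
      have l2 : (r : ℝ) * (C / n) ≤ (c + 1) * C * x := by
        calc _ ≤ (c + 1) * n * (C / n) := by gcongr; linarith
          _ = (c + 1) * C * 1 := by field_simp
          _ ≤ _ := by gcongr
      have l3 : B ≤ ε * x := by rwa [div_le_iff₀' hε] at e2
      calc _ ≤ 4 * (((c + 1) * x ^ 16) * (((c + 2) * x ^ 8) *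
              (2 * C * x + (c + 1) * C * x))) := by gcongr
        _ = B * x ^ 25 := by rw [hB]; ring
        _ ≤ ε * x * x ^ 25 := by gcongr
        _ = ε * x ^ 26 := by ring
        _ ≤ ε * x ^ 28 := by gcongr; norm_num
        _ = ε * (x ^ 14) ^ 2 := by ring
        _ ≤ _ := by gcongr
    have k8 : 0 < ((u' : ℝ) - u) ^ 2 := pow_pos (by linarith) 2
    rcases k6 with k | k
    · left
      have := le_of_mul_le_mul_right (k.trans k7) k8
      show 1 - ε ≤ Gv _ _ _ _
      linarith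
    · right
      exact le_of_mul_le_mul_right (k.trans k7) k8
  · intro M
    filter_upwards [hyp_half.early (2 * M), eventually_gt_atTop 0] with n e1 hn t ht
    refine (e1 (2 * t) (by push_cast; linarith)).trans (G_anti hn le_rfl ?_ (Nat.zero_le _))
    exact Nat.le_floor (by push_cast; linarith)
  · intro n1 n2 t t1 t2 D p1 p2 hD e1 e2
    have : NeZero n1 := ⟨p1.ne'⟩
    have : NeZero n2 := ⟨p2.ne'⟩
    simp only [G, Gv_two]
    exact pure_interp 2 p1 p2 (by linarith) (by linarith) (by linarith)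
  · intro n0 n t k1 k2
    exact G_lower k1 k2 t 0

theorem hyp_three : Hyp (fun n t => G n 0 0 t) 7 1 := by
  refine ⟨by norm_num, zero_le_one, fun n t hn => G_nonneg hn _ _ _,
    fun n t hn => G_le_one hn _ _ _, fun n hn t t' ht => G_anti hn le_rfl le_rfl ht,
    ?_, ?_, ?_, ?_⟩
  · intro c hc hc0 ε hε
    have hp1 : c / (c + 1) < 1 := by rw [div_lt_one (by positivity)]; linarith
    obtain ⟨C, hC, hev⟩ := unit_ev (p := c / (c + 1)) hp1 hc
      (by rw [show (1 - c / (c + 1)) * c = c / (c + 1) by field_simp; ring]; exact hp1)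
      (by positivity)
    set B := 4 * ((c + 1) * ((c + 2) * (C + C * (c + 2) + (c + 1) * C))) with hB
    have hroot : Tendsto (fun n : ℕ => (n : ℝ) ^ (1 / 48 : ℝ)) atTop atTop :=
      (tendsto_rpow_atTop (by norm_num)).comp tendsto_natCast_atTop_atTop
    filter_upwards [hev, hroot.eventually (eventually_ge_atTop (B / ε)),
      eventually_gt_atTop 0] with n e1 e2 hn u u' hu hu'
    obtain ⟨s, hs, hU⟩ := e1
    have hn1 : (1 : ℝ) ≤ n := by exact_mod_cast hn
    have r1 : 1 ≤ (n : ℝ) ^ (1 / 48 : ℝ) := Real.one_le_rpow hn1 (by norm_num)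
    have r2 : ((n : ℝ) ^ (1 / 48 : ℝ)) ^ 48 = n := by
      rw [← Real.rpow_natCast, ← Real.rpow_mul (by linarith)]; norm_num
    have r3 : ((n : ℝ) ^ (1 / 48 : ℝ)) ^ 42 = (n : ℝ) ^ (7 / 8 : ℝ) := by
      rw [← Real.rpow_natCast, ← Real.rpow_mul (by linarith)]; norm_num
    have r4 : ((n : ℝ) ^ (1 / 48 : ℝ)) ^ 3 = (n : ℝ) ^ (1 / 16 : ℝ) := by
      rw [← Real.rpow_natCast, ← Real.rpow_mul (by linarith)]; norm_num
    rw [← r4] at hs
    set x := (n : ℝ) ^ (1 / 48 : ℝ) with hx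
    have hx0 : 0 < x := by linarith
    have : NeZero n := ⟨hn.ne'⟩
    set r := ⌊c * n⌋₊ + 1 with hr
    have k1 : (r : ℝ) ≤ c * n + 1 := by
      rw [hr]; push_cast; gcongr; exact Nat.floor_le (by positivity)
    have k2 : (r : ℝ) ≤ (c + 1) * x ^ 48 := by rw [r2]; linarith
    have k3 : u' < r := Nat.lt_succ_of_le (Nat.le_floor hu')
    have hx14 : 0 < x ^ 42 := by positivity
    have k4 : x ^ 42 ≤ (u' : ℝ) - u := by linarith
    have k5 : u ≤ u' := by exact_mod_cast (by linarith : (u : ℝ) ≤ u')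
    have k6 := window_three (sv n) (r := r) (s := s) (η := C / n) (τ := 1 / x ^ 16)
      (by positivity) (by positivity)
      (fun b hb => hU 0 b (by
        rw [Nat.cast_zero]; exact mul_nonneg (by linarith) (by positivity)) (by
        have l1 : (b : ℝ) ≤ r := by exact_mod_cast hb
        linarith)) k5 k3
    have k9 : 1 / (1 / x ^ 16) + (1 / x ^ 16) ^ 2 * r ≤ (c + 2) * x ^ 16 := by
      calc _ ≤ 1 / (1 / x ^ 16) + (1 / x ^ 16) ^ 2 * ((c + 1) * x ^ 48) := by gcongr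
        _ = _ := by field_simp; ring
    have k10 : 0 ≤ 1 / (1 / x ^ 16) + (1 / x ^ 16) ^ 2 * r := by positivity
    generalize 1 / (1 / x ^ 16) + (1 / x ^ 16) ^ 2 * r = Y at k6 k9 k10
    have k7 : 4 * (r * (Y * (s + s * Y + r * (C / n)))) ≤ ε * ((u' : ℝ) - u) ^ 2 := by
      have l0 : x ^ 3 ≤ x ^ 19 := by gcongr; norm_num
      have l00 : 1 ≤ x ^ 19 := one_le_pow₀ r1
      have l1 : (s : ℝ) ≤ C * x ^ 19 := hs.trans (by gcongr)
      have l1' : (s : ℝ) * Y ≤ C * (c + 2) * x ^ 19 := by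
        calc _ ≤ (C * x ^ 3) * ((c + 2) * x ^ 16) := by gcongr
          _ = _ := by ring
      have l2 : (r : ℝ) * (C / n) ≤ (c + 1) * C * x ^ 19 := by
        calc _ ≤ (c + 1) * n * (C / n) := by gcongr; linarith
          _ = (c + 1) * C * 1 := by field_simp
          _ ≤ _ := by gcongr
      have l3 : B ≤ ε * x := by rwa [div_le_iff₀' hε] at e2
      calc _ ≤ 4 * (((c + 1) * x ^ 48) * (((c + 2) * x ^ 16) *
              (C * x ^ 19 + C * (c + 2) * x ^ 19 + (c + 1) * C * x ^ 19))) := by gcongr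
        _ = B * x ^ 83 := by rw [hB]; ring
        _ ≤ ε * x * x ^ 83 := by gcongr
        _ = ε * (x ^ 42) ^ 2 := by ring
        _ ≤ _ := by gcongr
    have k8 : 0 < ((u' : ℝ) - u) ^ 2 := pow_pos (by linarith) 2
    rcases k6 with k | k
    · left
      have := le_of_mul_le_mul_right (k.trans k7) k8
      show 1 - ε ≤ Gv _ _ _ _
      linarith
    · right
      exact le_of_mul_le_mul_right (k.trans k7) k8
  · intro M
    filter_upwards [hyp_half.early M, eventually_gt_atTop 0] with n e1 hn t ht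
    have : NeZero n := ⟨hn.ne'⟩
    refine (e1 t ht).trans ?_
    have h1 := Gv_swap (sv n) 0 0 (pc (1 / 2) t) (pa (1 / 2) t)
    have h2 := pa_le_self (p := 1 / 2) (by norm_num) (by norm_num) t
    rw [zero_add, show pc (1 / 2) t + pa (1 / 2) t = t by rw [pc]; omega] at h1
    exact h1
  · intro n1 n2 t t1 t2 D p1 p2 hD e1 e2
    have : NeZero n1 := ⟨p1.ne'⟩
    have : NeZero n2 := ⟨p2.ne'⟩
    simp only [G, Gv_three]
    exact pure_interp 3 p1 p2 (by linarith) (by linarith) (by linarith)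
  · intro n0 n t k1 k2
    have := G_lower k1 k2 0 t
    rwa [zero_add] at this

theorem sat_one {A B : ℕ → ℕ} {c : ℝ} (hc : ∀ n, (A n : ℝ) + B n ≤ c * n)
    (h : Tendsto (fun n => G n 0 (A n) (B n)) atTop (𝓝 1)) :
    Tendsto (fun n => satProb n (A n) (B n)) atTop (𝓝 1) := by
  have hE := Real.exp_pos (-(6 * c))
  have k2 : Tendsto (fun n : ℕ => (1 - G n 0 (A n) (B n)) / Real.exp (-(6 * c))) atTop (𝓝 0) := by
    have := (h.const_sub 1).div_const (Real.exp (-(6 * c)))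
    simpa using this
  have k3 : Tendsto (fun n : ℕ => 1 - satProb n (A n) (B n)) atTop (𝓝 0) := by
    refine squeeze_zero' ?_ ?_ k2
    · filter_upwards [eventually_ge_atTop 3] with n hn
      exact sub_nonneg.2 (satProb_le_one hn _ _)
    · filter_upwards [eventually_ge_atTop 6] with n hn
      have hn0 : (0 : ℝ) < n := by exact_mod_cast (show 0 < n by omega)
      have m5 := (transfer hn (A n) (B n)).2
      have m6 : Real.exp (-(6 * c)) ≤ Real.exp (-(6 * ((A n : ℝ) + B n) / n)) := by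
        rw [Real.exp_le_exp, neg_le_neg_iff, div_le_iff₀ hn0]
        linarith [hc n]
      have m7 := mul_le_mul_of_nonneg_right m6
        (sub_nonneg.2 (satProb_le_one (show 3 ≤ n by omega) (A n) (B n)))
      rw [le_div_iff₀' hE]
      linarith
  have := k3.const_sub 1
  simpa using this

theorem sat_zero {A B : ℕ → ℕ} {c : ℝ} (hc : ∀ n, (A n : ℝ) + B n ≤ c * n) {F : ℕ → ℝ}
    (h : Tendsto F atTop (𝓝 0)) (hF : ∀ n, 0 < n → G n 0 (A n) (B n) ≤ F n) :
    Tendsto (fun n => satProb n (A n) (B n)) atTop (𝓝 0) := by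
  have hE := Real.exp_pos (-(6 * c))
  have k2 : Tendsto (fun n : ℕ => F n / Real.exp (-(6 * c))) atTop (𝓝 0) := by
    have := h.div_const (Real.exp (-(6 * c)))
    simpa using this
  refine squeeze_zero' (Eventually.of_forall fun n => satProb_nonneg _ _ _) ?_ k2
  filter_upwards [eventually_ge_atTop 6] with n hn
  have hn0 : (0 : ℝ) < n := by exact_mod_cast (show 0 < n by omega)
  have m5 := (transfer hn (A n) (B n)).1
  have m6 : Real.exp (-(6 * c)) ≤ Real.exp (-(6 * ((A n : ℝ) + B n) / n)) := by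
    rw [Real.exp_le_exp, neg_le_neg_iff, div_le_iff₀ hn0]
    linarith [hc n]
  have m7 := mul_le_mul_of_nonneg_right m6 (satProb_nonneg n (A n) (B n))
  have m8 := hF n (by omega)
  rw [le_div_iff₀' hE]
  linarith

theorem threshold_two : ∃ a : ℝ, 0 < a ∧ ∀ α : ℝ, 0 < α →
    (α < a → Tendsto (fun n : ℕ => satProb n ⌊α * n⌋₊ 0) atTop (𝓝 1)) ∧
    (a < α → Tendsto (fun n : ℕ => satProb n ⌊α * n⌋₊ 0) atTop (𝓝 0)) := by
  obtain ⟨a, ha0, ha1, hlo, hhi⟩ := hyp_two.threshold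
  refine ⟨a, ha0, fun α h0 => ?_⟩
  have hc : ∀ n : ℕ, (⌊α * n⌋₊ : ℝ) + (0 : ℕ) ≤ α * n := fun n => by
    rw [Nat.cast_zero, add_zero]; exact Nat.floor_le (by positivity)
  refine ⟨fun hα => sat_one hc (hlo α h0.le hα), fun hα => ?_⟩
  rcases eq_or_lt_of_le ha1 with h1 | h1
  · simpa using two_sat (α2 := α) (α3 := 0) (by linarith) le_rfl
  obtain ⟨β, hβ1, hβ2⟩ := exists_between (lt_min hα h1)
  have hβ3 := hβ2.trans_le (min_le_left _ _)
  exact sat_zero hc (hhi β hβ1 (hβ2.trans_le (min_le_right _ _))) fun n hn =>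
    G_anti hn le_rfl (Nat.floor_le_floor (by gcongr)) le_rfl

theorem threshold_three : ∃ a : ℝ, 0 < a ∧ ∀ α : ℝ, 0 < α →
    (α < a → Tendsto (fun n : ℕ => satProb n 0 ⌊α * n⌋₊) atTop (𝓝 1)) ∧
    (a < α → Tendsto (fun n : ℕ => satProb n 0 ⌊α * n⌋₊) atTop (𝓝 0)) := by
  obtain ⟨a, ha0, ha1, hlo, hhi⟩ := hyp_three.threshold
  refine ⟨a, ha0, fun α h0 => ?_⟩
  have hc : ∀ n : ℕ, ((0 : ℕ) : ℝ) + (⌊α * n⌋₊ : ℝ) ≤ α * n := fun n => by
    rw [Nat.cast_zero, zero_add]; exact Nat.floor_le (by positivity)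
  refine ⟨fun hα => sat_one hc (hlo α h0.le hα), fun hα => ?_⟩
  rcases eq_or_lt_of_le ha1 with h1 | h1
  · refine sat_zero hc (tendsto_pow_atTop_nhds_zero_of_lt_one
      (r := 2 * (7 / 8) ^ 6) (by norm_num) (by norm_num)) fun n hn => ?_
    have h2 : 6 * n ≤ ⌊α * n⌋₊ := Nat.le_floor (by push_cast; gcongr; linarith)
    refine (G_anti hn le_rfl le_rfl h2).trans ((first_moment hn _).trans (le_of_eq ?_))
    rw [mul_pow, pow_mul]
  obtain ⟨β, hβ1, hβ2⟩ := exists_between (lt_min hα h1)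
  have hβ3 := hβ2.trans_le (min_le_left _ _)
  exact sat_zero hc (hhi β hβ1 (hβ2.trans_le (min_le_right _ _))) fun n hn =>
    G_anti hn le_rfl le_rfl (Nat.floor_le_floor (by gcongr))

theorem threshold_all {p : ℝ} (h0 : 0 ≤ p) (h1 : p ≤ 1) :
    ∃ a : ℝ, 0 < a ∧ ∀ α2 α3 : ℝ, 0 ≤ α2 → 0 ≤ α3 → 0 < α2 + α3 → α3 / (α2 + α3) = p →
      (α2 + α3 < a → Tendsto (fun n : ℕ => satProb n ⌊α2 * n⌋₊ ⌊α3 * n⌋₊) atTop (𝓝 1)) ∧
      (a < α2 + α3 → Tendsto (fun n : ℕ => satProb n ⌊α2 * n⌋₊ ⌊α3 * n⌋₊) atTop (𝓝 0)) := by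
  rcases eq_or_lt_of_le h0 with rfl | h0'
  · obtain ⟨a, ha, h⟩ := threshold_two
    refine ⟨a, ha, fun α2 α3 h2 h3 hs hp => ?_⟩
    have e : α3 = 0 := by rwa [div_eq_iff hs.ne', zero_mul] at hp
    subst e
    simpa using h α2 (by simpa using hs)
  rcases eq_or_lt_of_le h1 with rfl | h1'
  · obtain ⟨a, ha, h⟩ := threshold_three
    refine ⟨a, ha, fun α2 α3 h2 h3 hs hp => ?_⟩
    have e : α2 = 0 := by rw [div_eq_iff hs.ne'] at hp; linarith
    subst e
    simpa using h α3 (by simpa using hs)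
  obtain ⟨a, ha, h⟩ := threshold_exists h0' h1'
  refine ⟨a, ha, fun α2 α3 h2 h3 hs hp => h α2 α3 ?_ ?_ hp⟩
  · rw [div_eq_iff hs.ne'] at hp
    nlinarith
  · rw [div_eq_iff hs.ne'] at hp
    rw [hp]
    positivity

end Pool.Agent.Lib.MP_4fe7bc_pr.Thr
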